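import Pool.Agent.PTL.Mean

/-!
# PTL: EQB
-/

set_option autoImplicit false

namespace Pool.Agent.PTL

open Pool.Agent.PTR
open Pool.Agent.PTR.OL (V ii dif difs FLC InHull)

lemma lv_sk (a b : V) (v w : Z2) (s k : ℤ) :
    lv a b (s • v + k • w) = lv a b (s • v) + k • lv a b w := by
  rw [lv_add, lv_zsmul a b k]

lemma gam_eq (m : IM) (a b : V) (v w : Z2) (T : Set V) (t : V) (s : ℤ) :
    gam m a b v w T t s = m.E (fun k => rI T (t + lv a b (s • v + k • w))) := by
  unfold gam Av
  congr 1
  funext k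
  rw [lv_sk, add_assoc]

/-- Generic transitivity of an almost everywhere relation. -/
lemma ae_trans (m : IM) {p q r : ℤ → ℤ → Prop} (hp : m.Null {s | ¬ m.Null {k | p s k}})
    (hq : m.Null {s | ¬ m.Null {k | q s k}}) (h : ∀ s k, r s k → p s k ∨ q s k) :
    m.Null {s | ¬ m.Null {k | r s k}} := by
  refine m.null_mono ?_ (m.null_union hp hq)
  intro s hs
  by_contra hcon
  rw [Set.mem_union, not_or] at hcon
  obtain ⟨h1, h2⟩ := hcon
  simp only [Set.mem_ofPred_eq, not_not] at h1 h2
  refine hs (m.null_mono ?_ (m.null_union h1 h2))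
  intro k hk
  exact h s k hk

lemma ae_mono (m : IM) {p r : ℤ → ℤ → Prop} (hp : m.Null {s | ¬ m.Null {k | p s k}})
    (h : ∀ s k, r s k → p s k) : m.Null {s | ¬ m.Null {k | r s k}} :=
  ae_trans m hp hp (fun s k hr => Or.inl (h s k hr))

/-- EQB. -/
theorem p_EQB : T_EQB := by
  intro m a b v w T
  refine ⟨?_, ?_, ?_, ?_, ?_, ?_, ?_, ?_, ?_⟩
  · intro t
    refine m.null_mono ?_ m.null_empty
    intro s hs
    exact hs (m.null_mono (fun k hk => hk Iff.rfl) m.null_empty)
  · intro t t' h
    exact ae_mono m h (fun s k hr h => hr h.symm)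
  · intro t t' h
    exact ae_mono m h (fun s k hr => hr.symm)
  · intro t t' t'' h h'
    refine ae_trans m h h' (fun s k hr => ?_)
    by_contra hcon
    rw [not_or, not_not, not_not] at hcon
    exact hr (hcon.1.trans hcon.2)
  · intro t t' t'' h h'
    refine ae_trans m h h' (fun s k hr => ?_)
    by_cases h1 : t + lv a b (s • v + k • w) ∈ T ↔ t' + lv a b (s • v + k • w) ∈ T
    · exact Or.inr (h1.symm.trans hr)
    · exact Or.inl h1
  · intro t t' t'' h h'
    refine ae_trans m h h' (fun s k hr => ?_)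
    by_contra hcon
    rw [not_or] at hcon
    apply hr
    by_cases h1 : t + lv a b (s • v + k • w) ∈ T
    · by_cases h2 : t' + lv a b (s • v + k • w) ∈ T
      · exact absurd ⟨fun _ => h2, fun _ => h1⟩ hcon.1
      · by_cases h3 : t'' + lv a b (s • v + k • w) ∈ T
        · exact ⟨fun _ => h3, fun _ => h1⟩
        · exact absurd ⟨fun h => absurd h h2, fun h => absurd h h3⟩ hcon.2
    · by_cases h2 : t' + lv a b (s • v + k • w) ∈ T
      · by_cases h3 : t'' + lv a b (s • v + k • w) ∈ T
        · exact absurd ⟨fun _ => h3, fun _ => h2⟩ hcon.2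
        · exact ⟨fun h => absurd h h1, fun h => absurd h h3⟩
      · exact absurd ⟨fun h => absurd h h1, fun h => absurd h h2⟩ hcon.1
  · intro t t' h
    refine m.null_mono ?_ h
    intro s hs h1
    apply hs
    rw [gam_eq, gam_eq]
    refine m.E_congr ⟨1, fun k => rI_abs _ _⟩ ⟨1, fun k => rI_abs _ _⟩ (m.null_mono ?_ h1)
    intro k hk h2
    apply hk
    by_cases h3 : t + lv a b (s • v + k • w) ∈ T
    · rw [rI_mem h3, rI_mem (h2.1 h3)]
    · rw [rI_not h3, rI_not (fun h => h3 (h2.2 h))]
  · intro t t' h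
    refine m.null_mono ?_ h
    intro s hs h1
    apply hs
    rw [gam_eq, gam_eq, ← m.add]
    have h4 : m.E (fun k => rI T (t + lv a b (s • v + k • w)) +
        rI T (t' + lv a b (s • v + k • w))) = m.E (fun _ => (1 : ℝ)) := by
      refine m.E_congr ⟨2, fun k => ?_⟩ ⟨1, fun k => by simp⟩ (m.null_mono ?_ h1)
      · rw [abs_of_nonneg (add_nonneg (rI_nonneg _ _) (rI_nonneg _ _))]
        linarith [rI_le T (t + lv a b (s • v + k • w)), rI_le T (t' + lv a b (s • v + k • w))]
      · intro k hk
        by_contra h2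
        apply hk
        by_cases h3 : t + lv a b (s • v + k • w) ∈ T
        · by_cases h5 : t' + lv a b (s • v + k • w) ∈ T
          · exact absurd ⟨fun _ => h5, fun _ => h3⟩ h2
          · rw [rI_mem h3, rI_not h5]; norm_num
        · by_cases h5 : t' + lv a b (s • v + k • w) ∈ T
          · rw [rI_not h3, rI_mem h5]; norm_num
          · exact absurd ⟨fun h => absurd h h3, fun h => absurd h h5⟩ h2
    rw [h4, m.one]
  · intro t t' hd h
    refine m.null_mono ?_ h
    intro s hs h1
    apply hs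
    rw [gam_eq, gam_eq, ← m.add] at h1
    refine m.null_of_E (f := fun k => 1 - (rI T (t + lv a b (s • v + k • w)) +
        rI T (t' + lv a b (s • v + k • w)))) ?_ ⟨1, ?_⟩ ?_ one_pos ?_
    · intro k
      by_cases h3 : t + lv a b (s • v + k • w) ∈ T
      · rw [rI_mem h3, rI_not (hd _ h3)]; norm_num
      · rw [rI_not h3]
        linarith [rI_le T (t' + lv a b (s • v + k • w))]
    · intro k
      linarith [rI_nonneg T (t' + lv a b (s • v + k • w)),
        rI_nonneg T (t + lv a b (s • v + k • w))]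
    · rw [m.sub, m.const, h1]; norm_num
    · intro k hk
      have h3 : t + lv a b (s • v + k • w) ∉ T := fun h3 => hd _ h3 ((Iff.mp hk) h3)
      have h5 : t' + lv a b (s • v + k • w) ∉ T := fun h5 => h3 ((Iff.mpr hk) h5)
      rw [rI_not h3, rI_not h5]
      norm_num

end Pool.Agent.PTL
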