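import Pool.Agent.PTL.Weyl

set_option autoImplicit false

/-!
# PTL: the mean of a type I sequence (HALF, NUL, NUL0)
-/

namespace Pool.Agent.PTL

open Real Filter Topology

lemma bern_two (x : ℝ) :
    (Polynomial.map (algebraMap ℚ ℝ) (Polynomial.bernoulli 2)).eval x = x ^ 2 - x + 1 / 6 := by
  rw [Polynomial.bernoulli]
  simp only [Finset.sum_range_succ, Finset.sum_range_zero, Polynomial.map_add,
    Polynomial.map_monomial, Polynomial.eval_add, Polynomial.eval_monomial, zero_add,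
    bernoulli_zero, bernoulli_one, bernoulli_two]
  norm_num [Nat.choose]
  ring

lemma bern_sum {x : ℝ} (hx : x ∈ Set.Icc (0 : ℝ) 1) :
    HasSum (fun n : ℕ => 1 / (n : ℝ) ^ 2 * cos (2 * π * n * x)) (π ^ 2 * (x ^ 2 - x + 1 / 6)) := by
  have h := hasSum_one_div_nat_pow_mul_cos (k := 1) one_ne_zero hx
  rw [mul_one, bern_two] at h
  have e : (-1 : ℝ) ^ (1 + 1) * (2 * π) ^ 2 / 2 / ((Nat.factorial 2 : ℕ) : ℝ) = π ^ 2 := by
    have h2 : ((Nat.factorial 2 : ℕ) : ℝ) = 2 := by norm_num [Nat.factorial]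
    rw [h2]
    ring
  rw [e] at h
  exact h

/-- the mean of the Bernoulli function -/
lemma bern_mean (m : IM) {g : ℤ → ℝ} (hg : TI g) (h01 : ∀ s, 0 ≤ g s ∧ g s ≤ 1) :
    m.E (fun s => g s ^ 2 - g s + 1 / 6) = 0 := by
  have hsum : Summable (fun n : ℕ => 1 / (n : ℝ) ^ 2) :=
    Real.summable_one_div_nat_pow.2 one_lt_two
  -- the tail
  have htail : ∀ (N : ℕ) (s : ℤ), |π ^ 2 * (g s ^ 2 - g s + 1 / 6) -
      ∑ n ∈ Finset.range N, 1 / (n : ℝ) ^ 2 * cos (2 * π * n * g s)| ≤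
      ∑' n : ℕ, 1 / ((n + N : ℕ) : ℝ) ^ 2 := by
    intro N s
    have h1 := (hasSum_nat_add_iff' N).2 (bern_sum (x := g s) ⟨(h01 s).1, (h01 s).2⟩)
    have h2 : Summable (fun n : ℕ => 1 / ((n + N : ℕ) : ℝ) ^ 2) := (summable_nat_add_iff N).2 hsum
    rw [← h1.tsum_eq, ← Real.norm_eq_abs]
    refine tsum_of_norm_bounded h2.hasSum fun n => ?_
    rw [Real.norm_eq_abs, abs_mul, abs_of_nonneg (by positivity : (0 : ℝ) ≤ 1 / _ ^ 2)]
    exact mul_le_of_le_one_right (by positivity) (abs_cos_le_one _)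
  have hE : ∀ N : ℕ, |m.E (fun s => π ^ 2 * (g s ^ 2 - g s + 1 / 6))| ≤
      ∑' n : ℕ, 1 / ((n + N : ℕ) : ℝ) ^ 2 := by
    intro N
    have h1 := m.eabs (htail N)
    rw [m.sub, m.sum (Finset.range N) (fun n s => 1 / (n : ℝ) ^ 2 * cos (2 * π * n * g s))] at h1
    have h2 : ∑ n ∈ Finset.range N, m.E (fun s => 1 / (n : ℝ) ^ 2 * cos (2 * π * n * g s)) = 0 := by
      refine Finset.sum_eq_zero fun n _ => ?_
      rw [m.smul]
      rcases Nat.eq_zero_or_pos n with h0 | h0
      · subst h0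
        simp
      · have h3 := hg.intmul (n := (n : ℤ)) (by exact_mod_cast h0.ne')
        have h4 := (p_WEYL m _ h3).1
        have h5 : (fun s => cos (2 * π * (((n : ℤ) : ℝ) * g s))) =
            fun s => cos (2 * π * n * g s) := by
          funext s
          rw [Int.cast_natCast, mul_assoc (2 * π)]
        rw [h5] at h4
        rw [h4, mul_zero]
    rw [h2, sub_zero] at h1
    exact h1
  have hlim : Tendsto (fun N : ℕ => ∑' n : ℕ, 1 / ((n + N : ℕ) : ℝ) ^ 2) atTop (𝓝 0) :=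
    _root_.tendsto_sum_nat_add (fun n : ℕ => 1 / (n : ℝ) ^ 2)
  have h0 : |m.E (fun s => π ^ 2 * (g s ^ 2 - g s + 1 / 6))| ≤ 0 :=
    ge_of_tendsto' hlim hE
  have h1 : m.E (fun s => π ^ 2 * (g s ^ 2 - g s + 1 / 6)) = 0 :=
    abs_eq_zero.1 (le_antisymm h0 (abs_nonneg _))
  rw [m.smul] at h1
  exact (mul_eq_zero.1 h1).resolve_left (by positivity)

lemma sq_bdd {g : ℤ → ℝ} (h01 : ∀ s, 0 ≤ g s ∧ g s ≤ 1) :
    ∃ C : ℝ, ∀ s, |g s ^ 2 - g s + 1 / 6| ≤ C := by
  refine ⟨2, fun s => ?_⟩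
  obtain ⟨h0, h1⟩ := h01 s
  rw [abs_le]
  constructor <;> nlinarith

/-- HALF. -/
theorem p_HALF : T_HALF := by
  intro m g hg h01
  have hb : ∃ C : ℝ, ∀ s, |g s| ≤ C := ⟨1, fun s => by
    rw [abs_of_nonneg (h01 s).1]; exact (h01 s).2⟩
  -- for every `h`
  have key : ∀ h : ℝ, 0 < h → h < 1 → 0 ≤ 2 * m.E g - 1 + h := by
    intro h hh0 hh1
    set g' : ℤ → ℝ := fun s => Int.fract (g s + h) with hg'
    have hTI : TI g' := by
      refine (hg.add_const h).congr fun s => ⟨-⌊g s + h⌋, ?_⟩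
      simp only [hg']
      rw [Int.fract]
      push_cast
      ring
    have h01' : ∀ s, 0 ≤ g' s ∧ g' s ≤ 1 := fun s =>
      ⟨Int.fract_nonneg _, (Int.fract_lt_one _).le⟩
    have e1 := bern_mean m hg h01
    have e2 := bern_mean m hTI h01'
    have hle : ∀ s, g' s ^ 2 - g' s + 1 / 6 ≤
        (g s ^ 2 - g s + 1 / 6) + (2 * h) * g s + (h ^ 2 - h) := by
      intro s
      obtain ⟨a0, a1⟩ := h01 s
      by_cases hlt : g s + h < 1
      · have e : g' s = g s + h := by
          simp only [hg']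
          exact Int.fract_eq_self.2 ⟨by linarith, hlt⟩
        rw [e]
        nlinarith
      · push Not at hlt
        have e : g' s = g s + h - 1 := by
          simp only [hg']
          rw [Int.fract_eq_iff]
          exact ⟨by linarith, by linarith, 1, by push_cast; ring⟩
        rw [e]
        nlinarith
    have hm := m.mono hle (sq_bdd h01') (by
      refine ⟨10, fun s => ?_⟩
      obtain ⟨a0, a1⟩ := h01 s
      rw [abs_le]
      constructor <;> nlinarith)
    rw [e2, m.add, m.add, e1, m.smul, m.const] at hm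
    have : 0 ≤ h * (2 * m.E g - 1 + h) := by nlinarith
    exact nonneg_of_mul_nonneg_right this hh0
  by_contra hcon
  push Not at hcon
  have h1 := key (min (1 / 2) ((1 - 2 * m.E g) / 2)) (lt_min (by norm_num) (by linarith))
    (lt_of_le_of_lt (min_le_left _ _) (by norm_num))
  have h2 := min_le_right (1 / 2 : ℝ) ((1 - 2 * m.E g) / 2)
  linarith

lemma rI_set_eq {α : Type} (S : Set α) (z : α) : rI S z = rI {w | w ∈ S} z := rfl

/-- NUL. -/
theorem p_NUL : T_NUL := by
  intro m g c hg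
  set g0 : ℤ → ℝ := fun s => Int.fract (g s - c) with hg0
  have hTI : TI g0 := by
    refine (hg.add_const (-c)).congr fun s => ⟨-⌊g s - c⌋, ?_⟩
    simp only [hg0]
    rw [Int.fract]
    push_cast
    ring
  have h01 : ∀ s, 0 ≤ g0 s ∧ g0 s ≤ 1 := fun s =>
    ⟨Int.fract_nonneg _, (Int.fract_lt_one _).le⟩
  set S : Set ℤ := {s | g0 s = 0} with hS
  set g1 : ℤ → ℝ := fun s => 1 - (g0 s + rI S s) with hg1
  have hTI1 : TI g1 := by
    refine (hTI.neg.add_const 1).congr fun s => ?_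
    obtain ⟨n, hn⟩ := rI_int S s
    exact ⟨-n, by simp only [hg1]; rw [hn]; push_cast; ring⟩
  have h01' : ∀ s, 0 ≤ g1 s ∧ g1 s ≤ 1 := by
    intro s
    obtain ⟨a0, a1⟩ := h01 s
    simp only [hg1]
    by_cases hs : s ∈ S
    · rw [rI_mem hs]
      have : g0 s = 0 := hs
      rw [this]
      norm_num
    · rw [rI_not hs]
      constructor <;> linarith
  have e1 := p_HALF m g0 hTI h01
  have e2 := p_HALF m g1 hTI1 h01'
  simp only [hg1] at e2
  rw [m.sub, m.const, m.add] at e2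
  have e3 : m.Null S := by
    unfold IM.Null
    have := m.rI_nonneg S
    have e4 : m.E (fun s => rI S s) = m.E (rI S) := rfl
    rw [e4] at e2
    have e5 : m.E (fun s => g0 s) = m.E g0 := rfl
    rw [e5] at e2
    linarith
  refine m.null_mono (fun s hs => ?_) e3
  have h1 : g s = c := hs
  change Int.fract (g s - c) = 0
  rw [h1, sub_self, Int.fract_zero]

/-- NUL0. -/
theorem p_NUL0 : T_NUL0 := by
  intro m g i hg hi hn
  obtain ⟨K, θ, hθ, hT⟩ := hg
  have h1 := p_DIF K θ g i hT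
  have hirr : Irrational ((i : ℝ) * θ) := hθ.intCast_mul hi
  rcases K with _ | K
  · obtain ⟨s, hs⟩ := m.exists_mem hn
    have h2 : g (s + i) = g s := by
      by_contra h
      exact hs h
    obtain ⟨n, hn⟩ := h1 s
    have h3 : g (s + i) - g s = i * θ + n := hn
    rw [h2, sub_self] at h3
    exact hirr ⟨-n, by push_cast; linarith⟩
  · have h2 : TI (Dl i g) := ⟨K, _, hirr, h1⟩
    have h3 := p_NUL m _ 0 h2
    apply m.not_null_univ
    refine m.null_mono (fun s _ => ?_) (m.null_union hn h3)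
    by_cases h4 : g (s + i) = g s
    · exact Or.inr (sub_eq_zero.2 h4)
    · exact Or.inl h4

end Pool.Agent.PTL
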