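import Pool.Agent.PTL.P_INT
import Pool.Agent.PTL.Half

set_option autoImplicit false

/-!
# PTL: a type I point is not equivalent to its translate along `n w` (KAP)
-/

namespace Pool.Agent.PTL

open Filter
open Pool.Agent.PTR
open Pool.Agent.PTR.OL (V)

lemma TI.not_const {m : IM} {g : ℤ → ℝ} (hg : TI g) {c : ℝ} (h : ∀ s, g s = c) : False := by
  apply m.not_null_univ
  exact m.null_mono (fun s _ => h s) (p_NUL m g c hg)

theorem KAP_of (hLIF : T_LIF) (hPER : T_PER) (hBPC : T_BPC) : T_KAP := by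
  intro m a b n P L w v T hS hG t κ hκ hTI hE
  rcases hS t with ⟨w', hw', hper⟩ | huns
  · exact hTI.not_const (m := m)
      (gam_settled m (v := v) hper (hG.2 w' (List.mem_append_left _ hw')))
  · obtain ⟨U, hU⟩ := p_ULT m
    set W := lv a b ((n : ℤ) • w) with hW
    set T' := LimW U W T with hT'
    set L' := L.map fun w => lv a b ((n : ℤ) • w) with hL'
    -- the limit has the same product of differences
    have h1 : ∀ u : Z2, fds L' (rI T') (t + lv a b ((n : ℤ) • u)) =
        fds L' (rI T) (t + lv a b ((n : ℤ) • u)) := by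
      intro u
      exact hLIF U W T L' _ _ (fun l => uns_inv huns u l)
    have h1' : ∀ (u : Z2) (k : ℤ), fds L' (rI T') (t + lv a b ((n : ℤ) • u) + k • W) =
        fds L' (rI T') (t + lv a b ((n : ℤ) • u)) := by
      intro u k
      have e : t + lv a b ((n : ℤ) • u) + k • W = t + lv a b ((n : ℤ) • (u + k • w)) := by
        rw [hW, ← lv_zsmul, add_assoc, ← lv_add, smul_add, smul_comm k (n : ℤ) w]
      rw [e, h1, h1, ← e]
      exact uns_inv huns u k
    -- the difference of the averages
    set β : V → ℝ := fun z => Av m W (rI T) z - Av m W (rI T') z with hβ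
    have hβinv : ∀ z, β (z + W) = β z := by
      intro z
      simp only [hβ]
      have a1 := (p_AVB m W).2.1 (rI T) z 1 (rI_bdd T)
      have a2 := (p_AVB m W).2.1 (rI T') z 1 (rI_bdd T')
      rw [one_smul] at a1 a2
      rw [a1, a2]
    have h2 : ∀ u : Z2, fds L' β (t + lv a b ((n : ℤ) • u)) ∈ (⊥ : AddSubgroup ℝ) := by
      intro u
      rw [AddSubgroup.mem_bot, hβ, fds_sub, uns_av m huns u]
      have a1 : fds L' (Av m W (rI T')) (t + lv a b ((n : ℤ) • u)) =
          fds L' (rI T') (t + lv a b ((n : ℤ) • u)) := by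
        rw [← (p_AVB m W).1]
        exact (p_AVB m W).2.2.1 _ _ (h1' u)
      rw [a1, h1, sub_self]
    have h3 := p_RED ⊥ a b n v w L (fun w' hw' => hG.2 w' (List.mem_append_right _ hw'))
      β t hβinv h2 0
    have h4 := hBPC L.length (fun s => β (t + lv a b ((n : ℤ) • 0) + lv a b (s • (n : ℤ) • v)))
      ⟨2, fun s => by
        simp only [hβ]
        have a1 := (p_AVB m W).2.2.2.1 T (t + lv a b ((n : ℤ) • 0) + lv a b (s • (n : ℤ) • v))
        have a2 := (p_AVB m W).2.2.2.1 T' (t + lv a b ((n : ℤ) • 0) + lv a b (s • (n : ℤ) • v))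
        rw [abs_le]
        constructor <;> linarith⟩ (fun s => (AddSubgroup.mem_bot).1 (h3 s))
    rw [smul_zero, lv_zero, add_zero] at h4
    -- the sequences differ by a constant
    set c := β (t + lv a b ((0 : ℤ) • (n : ℤ) • v)) with hc
    have h5 : ∀ s : ℤ, gam m a b ((n : ℤ) • v) ((n : ℤ) • w) T t s =
        m.E (rI {k : ℤ | t + lv a b (s • (n : ℤ) • v) + k • W ∈ T'}) + c := by
      intro s
      have a1 : β (t + lv a b (s • (n : ℤ) • v)) = c := h4 s
      simp only [hβ] at a1
      unfold gam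
      rw [← Av_rI]
      linarith
    -- periodicity of the limit for almost all rows
    have h6 : ∀ s : ℤ, m.Null {k | ¬ (t + lv a b (s • ((n : ℤ) • v) + k • ((n : ℤ) • w)) ∈ T ↔
        t + lv a b (κ • (n : ℤ) • w) + lv a b (s • ((n : ℤ) • v) + k • ((n : ℤ) • w)) ∈ T)} →
        ∀ k, k + κ ∈ {k : ℤ | t + lv a b (s • (n : ℤ) • v) + k • W ∈ T'} ↔
          k ∈ {k : ℤ | t + lv a b (s • (n : ℤ) • v) + k • W ∈ T'} := by
      intro s hs k
      have a1 := m.null_shift hs k
      have a2 := hU _ a1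
      have a3 : ∀ᶠ l in (U : Filter ℤ), (t + lv a b (s • (n : ℤ) • v) + (k + κ) • W + l • W ∈ T ↔
          t + lv a b (s • (n : ℤ) • v) + k • W + l • W ∈ T) := by
        refine Filter.mem_of_superset a2 ?_
        intro l hl
        have hl' : (t + lv a b (s • ((n : ℤ) • v) + (l + k) • ((n : ℤ) • w)) ∈ T ↔
          t + lv a b (κ • (n : ℤ) • w) + lv a b (s • ((n : ℤ) • v) + (l + k) • ((n : ℤ) • w))
            ∈ T) := by
          by_contra hcon
          exact hl hcon
        have e1 : t + lv a b (s • ((n : ℤ) • v) + (l + k) • ((n : ℤ) • w)) =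
            t + lv a b (s • (n : ℤ) • v) + k • W + l • W := by
          rw [lv_add, lv_zsmul a b (l + k), ← hW, add_smul]
          abel
        have e2 : t + lv a b (κ • (n : ℤ) • w) +
            lv a b (s • ((n : ℤ) • v) + (l + k) • ((n : ℤ) • w)) =
            t + lv a b (s • (n : ℤ) • v) + (k + κ) • W + l • W := by
          rw [lv_add, lv_zsmul a b (l + k), lv_zsmul a b κ, ← hW, add_smul, add_smul]
          abel
        rw [e1, e2] at hl'
        exact hl'.symm
      change (∀ᶠ l in (U : Filter ℤ), _ ∈ T) ↔ (∀ᶠ l in (U : Filter ℤ), _ ∈ T)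
      exact Filter.eventually_congr a3
    -- finitely many values
    apply m.not_null_univ
    have h7 := m.null_biUnion (Finset.range (κ.natAbs + 1))
      (fun j => {s | gam m a b ((n : ℤ) • v) ((n : ℤ) • w) T t s = (j : ℝ) / κ.natAbs + c})
      (fun j _ => p_NUL m _ _ hTI)
    refine m.null_mono (fun s _ => ?_) (m.null_union hE h7)
    by_cases hs : m.Null {k | ¬ (t + lv a b (s • ((n : ℤ) • v) + k • ((n : ℤ) • w)) ∈ T ↔
        t + lv a b (κ • (n : ℤ) • w) + lv a b (s • ((n : ℤ) • v) + k • ((n : ℤ) • w)) ∈ T)}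
    · right
      obtain ⟨j, hj, hj2⟩ := hPER m κ _ hκ (h6 s hs)
      refine ⟨j, Finset.mem_range.2 (by omega), ?_⟩
      change gam m a b ((n : ℤ) • v) ((n : ℤ) • w) T t s = (j : ℝ) / κ.natAbs + c
      rw [h5 s, hj2]
    · left
      exact hs

end Pool.Agent.PTL
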