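import Pool.Agent.PTL.Targets

set_option autoImplicit false

/-!
# PTL: existence of invariant means, full ultrafilters, basic facts
-/

namespace Pool.Agent.PTL

open Filter Topology

noncomputable def avN (n : ℕ) (f : ℤ → ℝ) : ℝ := (∑ i ∈ Finset.range (n + 1), f i) / (n + 1)

lemma avN_abs {f : ℤ → ℝ} {C : ℝ} (hf : ∀ s, |f s| ≤ C) (n : ℕ) : |avN n f| ≤ C := by
  unfold avN
  have hn : (0 : ℝ) < n + 1 := by positivity
  rw [abs_div, abs_of_pos hn, div_le_iff₀ hn]
  refine (Finset.abs_sum_le_sum_abs _ _).trans ?_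
  have h1 : ∑ i ∈ Finset.range (n + 1), |f (i : ℤ)| ≤ ∑ _i ∈ Finset.range (n + 1), C :=
    Finset.sum_le_sum fun i _ => hf i
  refine h1.trans ?_
  rw [Finset.sum_const, Finset.card_range, nsmul_eq_mul]
  push_cast
  linarith

lemma avN_lim {f : ℤ → ℝ} (hf : ∃ C : ℝ, ∀ s, |f s| ≤ C) :
    ∃ x, Tendsto (fun n => avN n f) (hyperfilter ℕ : Filter ℕ) (𝓝 x) := by
  obtain ⟨C, hC⟩ := hf
  have h1 : ∀ n, avN n f ∈ Set.Icc (-C) C := fun n => abs_le.1 (avN_abs hC n)
  obtain ⟨x, -, hx⟩ := (isCompact_Icc (a := -C) (b := C)).ultrafilter_le_nhds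
    ((hyperfilter ℕ).map (fun n => avN n f)) (by
      rw [Ultrafilter.coe_map, le_principal_iff, mem_map]
      exact Filter.univ_mem' h1)
  exact ⟨x, hx⟩

lemma avN_unique {f : ℕ → ℝ} {x y : ℝ} (hx : Tendsto f (hyperfilter ℕ : Filter ℕ) (𝓝 x))
    (hy : Tendsto f (hyperfilter ℕ : Filter ℕ) (𝓝 y)) : x = y :=
  tendsto_nhds_unique hx hy

/-- the submodule of the bounded functions -/
def bddS : Submodule ℝ (ℤ → ℝ) where
  carrier := {f | ∃ C : ℝ, ∀ s, |f s| ≤ C}
  zero_mem' := ⟨0, fun s => by simp⟩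
  add_mem' := by
    rintro f g ⟨C, hC⟩ ⟨D, hD⟩
    exact ⟨C + D, fun s => (abs_add_le _ _).trans (add_le_add (hC s) (hD s))⟩
  smul_mem' := by
    rintro c f ⟨C, hC⟩
    refine ⟨|c| * C, fun s => ?_⟩
    rw [Pi.smul_apply, smul_eq_mul, abs_mul]
    exact mul_le_mul_of_nonneg_left (hC s) (abs_nonneg c)

noncomputable def limB (f : bddS) : ℝ := (avN_lim f.2).choose

lemma limB_spec (f : bddS) :
    Tendsto (fun n => avN n f) (hyperfilter ℕ : Filter ℕ) (𝓝 (limB f)) :=
  (avN_lim f.2).choose_spec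

lemma avN_add (n : ℕ) (f g : ℤ → ℝ) : avN n (f + g) = avN n f + avN n g := by
  unfold avN
  rw [← add_div, ← Finset.sum_add_distrib]
  rfl

lemma avN_smul (n : ℕ) (c : ℝ) (f : ℤ → ℝ) : avN n (c • f) = c * avN n f := by
  unfold avN
  rw [← mul_div_assoc, Finset.mul_sum]
  rfl

noncomputable def limL : bddS →ₗ[ℝ] ℝ where
  toFun := limB
  map_add' f g := by
    refine avN_unique (limB_spec (f + g)) ?_
    have := (limB_spec f).add (limB_spec g)
    refine this.congr fun n => ?_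
    exact (avN_add n f g).symm
  map_smul' c f := by
    refine avN_unique (limB_spec (c • f)) ?_
    have := (limB_spec f).const_mul c
    refine this.congr fun n => ?_
    exact (avN_smul n c f).symm

lemma avN_shift (f : ℤ → ℝ) {C : ℝ} (hC : ∀ s, |f s| ≤ C) (n : ℕ) :
    |avN n (fun s => f (s + 1)) - avN n f| ≤ 2 * C / (n + 1) := by
  unfold avN
  have hn : (0 : ℝ) < n + 1 := by positivity
  rw [← sub_div, ← Finset.sum_sub_distrib]
  have h1 : ∑ i ∈ Finset.range (n + 1), (f ((i : ℤ) + 1) - f i) = f (n + 1) - f 0 := by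
    have := Finset.sum_range_sub (fun i : ℕ => f (i : ℤ)) (n + 1)
    push_cast at this
    simpa using this
  rw [h1, abs_div, abs_of_pos hn]
  apply div_le_div_of_nonneg_right _ hn.le
  have h2 := abs_sub (f (n + 1)) (f 0)
  have h3 := hC (n + 1)
  have h4 := hC 0
  linarith

/-- MEAN. -/
theorem p_MEAN : T_MEAN := by
  obtain ⟨E, hE⟩ := LinearMap.exists_extend limL
  have hE' : ∀ f : ℤ → ℝ, ∀ hf : (∃ C : ℝ, ∀ s, |f s| ≤ C), E f = limB ⟨f, hf⟩ := by
    intro f hf
    have := congrArg (fun φ : bddS →ₗ[ℝ] ℝ => φ ⟨f, hf⟩) hE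
    exact this
  have hsh : ∀ f : ℤ → ℝ, (∃ C : ℝ, ∀ s, |f s| ≤ C) → E (fun s => f (s + 1)) = E f := by
    intro f hf
    obtain ⟨C, hC⟩ := hf
    rw [hE' f ⟨C, hC⟩, hE' (fun s => f (s + 1)) ⟨C, fun s => hC _⟩]
    have h1 := limB_spec ⟨f, ⟨C, hC⟩⟩
    have h2 := limB_spec ⟨fun s => f (s + 1), ⟨C, fun s => hC _⟩⟩
    have h3 := h2.sub h1
    have h4 : Tendsto (fun n => avN n (fun s => f (s + 1)) - avN n f)
        (hyperfilter ℕ : Filter ℕ) (𝓝 0) := by
      have h5 : Tendsto (fun n : ℕ => 2 * C / ((n : ℝ) + 1)) (hyperfilter ℕ : Filter ℕ) (𝓝 0) := by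
        have h6 : Tendsto (fun n : ℕ => 2 * C / ((n : ℝ) + 1)) atTop (𝓝 0) := by
          have := (tendsto_one_div_add_atTop_nhds_zero_nat (𝕜 := ℝ)).const_mul (2 * C)
          simpa [div_eq_mul_inv] using this
        exact h6.mono_left (Nat.hyperfilter_le_atTop)
      exact squeeze_zero_norm (fun n => avN_shift f hC n) h5
    have h5 := avN_unique h3 h4
    linarith
  refine ⟨⟨E, ?_, ?_, ?_⟩⟩
  · rintro f h0 ⟨C, hC⟩
    have hb : ∃ C : ℝ, ∀ s, |f s| ≤ C := ⟨C, fun s => by rw [abs_of_nonneg (h0 s)]; exact hC s⟩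
    rw [hE' f hb]
    refine ge_of_tendsto' (limB_spec ⟨f, hb⟩) fun n => ?_
    unfold avN
    exact div_nonneg (Finset.sum_nonneg fun i _ => h0 _) (by positivity)
  · have hb : ∃ C : ℝ, ∀ s : ℤ, |(fun _ => (1 : ℝ)) s| ≤ C := ⟨1, fun s => by simp⟩
    rw [hE' _ hb]
    refine avN_unique (limB_spec ⟨_, hb⟩) ?_
    have : ∀ n, avN n (fun _ => (1 : ℝ)) = 1 := by
      intro n
      unfold avN
      rw [Finset.sum_const, Finset.card_range, nsmul_eq_mul, mul_one]
      push_cast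
      exact div_self (by positivity)
    exact tendsto_const_nhds.congr fun n => (this n).symm
  · intro f h hf
    induction h using Int.induction_on with
    | zero => simp
    | succ i ih =>
      have h1 := hsh (fun s => f (s + i)) (by obtain ⟨C, hC⟩ := hf; exact ⟨C, fun s => hC _⟩)
      rw [← ih, ← h1]
      congr 1
      funext s
      rw [add_right_comm, add_assoc]
    | pred i ih =>
      have h1 := hsh (fun s => f (s + (-i - 1))) (by
        obtain ⟨C, hC⟩ := hf; exact ⟨C, fun s => hC _⟩)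
      rw [← ih, ← h1]
      congr 1
      funext s
      congr 1
      ring

end Pool.Agent.PTL
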