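import Pool.Agent.PTL.P_RED

set_option autoImplicit false

/-!
# PTL: integrality of the differences of the averages (INT)
-/

namespace Pool.Agent.PTL

open Pool.Agent.PTR
open Pool.Agent.PTR.OL (V)

/-- multiples of a period on a class -/
lemma per_cls {a b : V} {n : ℕ} {w' : Z2} {T : Set V} {t : V}
    (h : ∀ u : Z2, (t + lv a b ((n : ℤ) • (u + w')) ∈ T ↔ t + lv a b ((n : ℤ) • u) ∈ T))
    (q : ℤ) (u : Z2) :
    (t + lv a b ((n : ℤ) • (u + q • w')) ∈ T ↔ t + lv a b ((n : ℤ) • u) ∈ T) := by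
  induction q using Int.induction_on with
  | zero => rw [zero_smul, add_zero]
  | succ i ih =>
    rw [add_smul, one_smul, ← add_assoc, h, ih]
  | pred i ih =>
    rw [← ih, ← h (u + (-(i : ℤ) - 1) • w'), add_assoc, ← add_one_zsmul, sub_add_cancel]

/-- on a settled class the sequence of the averages is constant -/
lemma gam_settled (m : IM) {a b : V} {n : ℕ} {w w' v : Z2} {T : Set V} {t : V}
    (h : ∀ u : Z2, (t + lv a b ((n : ℤ) • (u + w')) ∈ T ↔ t + lv a b ((n : ℤ) • u) ∈ T))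
    (hv : ∃ p q : ℤ, v = p • w + q • w') (s : ℤ) :
    gam m a b ((n : ℤ) • v) ((n : ℤ) • w) T t s = gam m a b ((n : ℤ) • v) ((n : ℤ) • w) T t 0 := by
  obtain ⟨p, q, hpq⟩ := hv
  have h1 : ∀ s : ℤ, gam m a b ((n : ℤ) • v) ((n : ℤ) • w) T t s =
      gam m a b ((n : ℤ) • v) ((n : ℤ) • w) T t 0 := by
    intro s
    unfold gam
    have e1 : t + lv a b (s • (n : ℤ) • v) = (t + lv a b ((n : ℤ) • ((s * q) • w'))) +
        (s * p) • lv a b ((n : ℤ) • w) := by
      rw [← lv_zsmul a b (s * p), add_assoc, ← lv_add]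
      congr 2
      rw [hpq, smul_add, smul_add, smul_comm (n : ℤ) p w, smul_comm (n : ℤ) q w', smul_smul s p,
        smul_smul s q, add_comm, smul_comm (n : ℤ) (s * q) w']
    rw [e1, (p_AVB m _).2.1 _ _ _ (rI_bdd T), Av_rI, Av_rI]
    congr 2
    ext k
    simp only [Set.mem_ofPred_eq]
    have e2 : t + lv a b ((n : ℤ) • ((s * q) • w')) + k • lv a b ((n : ℤ) • w) =
        t + lv a b ((n : ℤ) • (k • w + (s * q) • w')) := by
      rw [← lv_zsmul, add_assoc, ← lv_add, smul_add, smul_comm k (n : ℤ) w,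
        add_comm ((n : ℤ) • (s * q) • w') _]
    have e3 : t + lv a b ((0 : ℤ) • (n : ℤ) • v) + k • lv a b ((n : ℤ) • w) =
        t + lv a b ((n : ℤ) • (k • w)) := by
      rw [zero_smul, lv_zero, add_zero, ← lv_zsmul, smul_comm k (n : ℤ) w]
    rw [e2, e3]
    exact per_cls h (s * q) (k • w)
  exact h1 s

/-- on an unsettled class the product of the other differences of `T` is invariant along `n w` -/
lemma uns_inv {a b : V} {n : ℕ} {w : Z2} {L : List Z2} {T : Set V} {t : V}
    (h : ∀ u : Z2, fds ((w :: L).map fun w => lv a b ((n : ℤ) • w)) (rI T)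
      (t + lv a b ((n : ℤ) • u)) = 0) (u : Z2) (k : ℤ) :
    fds (L.map fun w => lv a b ((n : ℤ) • w)) (rI T)
      (t + lv a b ((n : ℤ) • u) + k • lv a b ((n : ℤ) • w)) =
    fds (L.map fun w => lv a b ((n : ℤ) • w)) (rI T) (t + lv a b ((n : ℤ) • u)) := by
  set G := fds (L.map fun w => lv a b ((n : ℤ) • w)) (rI T) with hG
  have h1 : ∀ u : Z2, G (t + lv a b ((n : ℤ) • (u + w))) = G (t + lv a b ((n : ℤ) • u)) := by
    intro u
    have h2 := h u
    rw [List.map_cons, fds_cons, ← hG] at h2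
    simp only [fd] at h2
    rw [smul_add, lv_add, ← add_assoc]
    linarith
  have h3 : ∀ (k : ℤ) (u : Z2), G (t + lv a b ((n : ℤ) • (u + k • w))) =
      G (t + lv a b ((n : ℤ) • u)) := by
    intro k
    induction k using Int.induction_on with
    | zero => intro u; rw [zero_smul, add_zero]
    | succ i ih => intro u; rw [add_smul, one_smul, ← add_assoc, h1, ih]
    | pred i ih =>
      intro u
      rw [← ih u, ← h1 (u + (-(i : ℤ) - 1) • w), add_assoc u _ w, ← add_one_zsmul, sub_add_cancel]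
  rw [← h3 k u, smul_add, lv_add, smul_comm (n : ℤ) k w, lv_zsmul a b k, add_assoc]

/-- the product of the other differences of the average -/
lemma uns_av (m : IM) {a b : V} {n : ℕ} {w : Z2} {L : List Z2} {T : Set V} {t : V}
    (h : ∀ u : Z2, fds ((w :: L).map fun w => lv a b ((n : ℤ) • w)) (rI T)
      (t + lv a b ((n : ℤ) • u)) = 0) (u : Z2) :
    fds (L.map fun w => lv a b ((n : ℤ) • w)) (Av m (lv a b ((n : ℤ) • w)) (rI T))
      (t + lv a b ((n : ℤ) • u)) =
    fds (L.map fun w => lv a b ((n : ℤ) • w)) (rI T) (t + lv a b ((n : ℤ) • u)) := by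
  rw [← (p_AVB m _).1]
  exact (p_AVB m _).2.2.1 _ _ (uns_inv h u)

/-- the integers as an additive subgroup of the reals -/
def ZR : AddSubgroup ℝ := (Int.castAddHom ℝ).range

lemma mem_ZR {x : ℝ} : x ∈ ZR ↔ ∃ n : ℤ, x = n := by
  unfold ZR
  rw [AddMonoidHom.mem_range]
  constructor
  · rintro ⟨n, hn⟩; exact ⟨n, hn.symm⟩
  · rintro ⟨n, hn⟩; exact ⟨n, hn.symm⟩

/-- INT. -/
theorem p_INT : T_INT := by
  intro m a b n P L w v T hS hG t s
  rcases hS t with ⟨w', hw', hper⟩ | huns
  · have h1 := gam_settled m (v := v) hper (hG.2 w' (List.mem_append_left _ hw'))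
    have e : gam m a b ((n : ℤ) • v) ((n : ℤ) • w) T t =
        fun _ => gam m a b ((n : ℤ) • v) ((n : ℤ) • w) T t 0 := funext h1
    rw [e, it_const]
    exact ⟨0, by simp⟩
  · have h1 := p_RED ZR a b n v w L (fun w' hw' => hG.2 w' (List.mem_append_right _ hw'))
      (Av m (lv a b ((n : ℤ) • w)) (rI T)) t
      (fun z => by
        have := (p_AVB m (lv a b ((n : ℤ) • w))).2.1 (rI T) z 1 (rI_bdd T)
        rwa [one_smul] at this)
      (fun u => by
        rw [uns_av m huns u]
        exact mem_ZR.2 (fds_int _ _ (rI_int T) _))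
    have h2 : ∀ s, ∃ j : ℤ, (Dl 1)^[L.length]
        (gam m a b ((n : ℤ) • v) ((n : ℤ) • w) T t) s = j := by
      intro s
      have h3 := mem_ZR.1 (h1 0 s)
      rw [smul_zero, lv_zero, add_zero] at h3
      exact h3
    obtain ⟨x, hx⟩ := h2 (s + 1)
    obtain ⟨y, hy⟩ := h2 s
    exact ⟨x - y, by rw [it_succ, hx, hy]; push_cast; ring⟩

end Pool.Agent.PTL
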