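import Pool.Agent.PTL.Targets

set_option autoImplicit false

/-!
# PTL: sequences modulo 1 (DIF, REF)
-/

namespace Pool.Agent.PTL

lemma Dl_comm (h k : ℤ) (g : ℤ → ℝ) : Dl h (Dl k g) = Dl k (Dl h g) := by
  funext s
  simp only [Dl]
  rw [add_right_comm s h k]
  ring

lemma it_comm (K : ℕ) (h k : ℤ) (g : ℤ → ℝ) :
    (Dl k)^[K] (Dl h g) = Dl h ((Dl k)^[K] g) := by
  induction K generalizing g with
  | zero => rfl
  | succ K ih =>
    rw [Function.iterate_succ_apply, Function.iterate_succ_apply, Dl_comm, ih]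

lemma it_succ (K : ℕ) (k : ℤ) (g : ℤ → ℝ) (s : ℤ) :
    (Dl k)^[K + 1] g s = (Dl k)^[K] g (s + k) - (Dl k)^[K] g s := by
  rw [Function.iterate_succ_apply']
  rfl

lemma it_shift (K : ℕ) (k h : ℤ) (g : ℤ → ℝ) (s : ℤ) :
    (Dl k)^[K] (fun s => g (s + h)) s = (Dl k)^[K] g (s + h) := by
  induction K generalizing s with
  | zero => rfl
  | succ K ih =>
    rw [it_succ, it_succ, ih, ih, add_right_comm]

lemma it_add (K : ℕ) (k : ℤ) (f g : ℤ → ℝ) (s : ℤ) :
    (Dl k)^[K] (fun s => f s + g s) s = (Dl k)^[K] f s + (Dl k)^[K] g s := by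
  induction K generalizing s with
  | zero => rfl
  | succ K ih => rw [it_succ, it_succ, it_succ, ih, ih]; ring

lemma it_sub (K : ℕ) (k : ℤ) (f g : ℤ → ℝ) (s : ℤ) :
    (Dl k)^[K] (fun s => f s - g s) s = (Dl k)^[K] f s - (Dl k)^[K] g s := by
  induction K generalizing s with
  | zero => rfl
  | succ K ih => rw [it_succ, it_succ, it_succ, ih, ih]; ring

lemma it_mul (K : ℕ) (k : ℤ) (c : ℝ) (g : ℤ → ℝ) (s : ℤ) :
    (Dl k)^[K] (fun s => c * g s) s = c * (Dl k)^[K] g s := by
  induction K generalizing s with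
  | zero => rfl
  | succ K ih => rw [it_succ, it_succ, ih, ih]; ring

/-- integer valued sequences have integer valued differences -/
lemma it_int (K : ℕ) (k : ℤ) {g : ℤ → ℝ} (hg : ∀ s, ∃ n : ℤ, g s = n) (s : ℤ) :
    ∃ n : ℤ, (Dl k)^[K] g s = n := by
  induction K generalizing s with
  | zero => exact hg s
  | succ K ih =>
    obtain ⟨a, ha⟩ := ih (s + k)
    obtain ⟨b, hb⟩ := ih s
    exact ⟨a - b, by rw [it_succ, ha, hb]; push_cast; ring⟩

/-- adding an integer valued sequence does not change the type -/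
lemma Ty.congr {K : ℕ} {θ : ℝ} {f g : ℤ → ℝ} (hf : Ty K θ f)
    (h : ∀ s, ∃ n : ℤ, g s = f s + n) : Ty K θ g := by
  intro s
  have h1 : ∀ s, ∃ n : ℤ, g s - f s = n := by
    intro s
    obtain ⟨n, hn⟩ := h s
    exact ⟨n, by rw [hn]; ring⟩
  obtain ⟨n, hn⟩ := hf s
  obtain ⟨k, hk⟩ := it_int K 1 h1 s
  rw [it_sub] at hk
  exact ⟨n + k, by push_cast; rw [← hk, ← add_assoc, ← hn]; ring⟩

lemma TI.congr {f g : ℤ → ℝ} (hf : TI f) (h : ∀ s, ∃ n : ℤ, g s = f s + n) : TI g := by
  obtain ⟨K, θ, hθ, hT⟩ := hf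
  exact ⟨K, θ, hθ, hT.congr h⟩

/-- adding a constant does not change the type in positive degree -/
lemma it_const (K : ℕ) (k : ℤ) (c : ℝ) (s : ℤ) : (Dl k)^[K + 1] (fun _ => c) s = 0 := by
  induction K generalizing s with
  | zero => rw [it_succ]; simp
  | succ K ih => rw [it_succ, ih, ih, sub_zero]

lemma TI.add_const {g : ℤ → ℝ} (hg : TI g) (c : ℝ) : TI (fun s => g s + c) := by
  obtain ⟨K, θ, hθ, hT⟩ := hg
  refine ⟨K, θ, hθ, fun s => ?_⟩
  rw [it_add, it_const, add_zero]
  exact hT s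

lemma Ty.intmul {K : ℕ} {θ : ℝ} {g : ℤ → ℝ} (hg : Ty K θ g) (n : ℤ) :
    Ty K (n * θ) (fun s => n * g s) := by
  intro s
  obtain ⟨k, hk⟩ := hg s
  refine ⟨n * k, ?_⟩
  rw [it_mul, hk]
  push_cast
  ring

lemma TI.intmul {g : ℤ → ℝ} (hg : TI g) {n : ℤ} (hn : n ≠ 0) : TI (fun s => n * g s) := by
  obtain ⟨K, θ, hθ, hT⟩ := hg
  exact ⟨K, n * θ, hθ.intCast_mul hn, hT.intmul n⟩

lemma TI.neg {g : ℤ → ℝ} (hg : TI g) : TI (fun s => - g s) := by
  have h := hg.intmul (n := -1) (by norm_num)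
  have e : (fun s => ((-1 : ℤ) : ℝ) * g s) = fun s => - g s := by
    funext s
    push_cast
    ring
  rwa [e] at h

/-- telescoping -/
lemma tel {G : ℤ → ℝ} {θ : ℝ} (h : ∀ s, ∃ n : ℤ, G (s + 1) - G s = θ + n) (k s : ℤ) :
    ∃ n : ℤ, G (s + k) - G s = k * θ + n := by
  induction k using Int.induction_on with
  | zero => exact ⟨0, by simp⟩
  | succ i ih =>
    obtain ⟨n, hn⟩ := ih
    obtain ⟨n', hn'⟩ := h (s + i)
    refine ⟨n + n', ?_⟩
    rw [← add_assoc]
    push_cast at hn ⊢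
    linear_combination hn + hn'
  | pred i ih =>
    obtain ⟨n, hn⟩ := ih
    obtain ⟨n', hn'⟩ := h (s + (-i - 1))
    refine ⟨n - n', ?_⟩
    have e : s + (-(i : ℤ) - 1) + 1 = s + -i := by ring
    rw [e] at hn'
    push_cast at hn ⊢
    linarith

/-- DIF. -/
theorem p_DIF : T_DIF := by
  intro K θ g h hg s
  rw [it_comm]
  have h1 : ∀ s, ∃ n : ℤ, (Dl 1)^[K] g (s + 1) - (Dl 1)^[K] g s = θ + n := by
    intro s
    obtain ⟨n, hn⟩ := hg s
    rw [it_succ] at hn
    exact ⟨n, hn⟩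
  exact tel h1 h s

/-- differences with step `q` -/
lemma Ty.step {K : ℕ} {θ : ℝ} {g : ℤ → ℝ} (hg : Ty K θ g) (q : ℤ) (s : ℤ) :
    ∃ n : ℤ, (Dl q)^[K] g s = q ^ K * θ + n := by
  induction K generalizing θ g s with
  | zero =>
    obtain ⟨n, hn⟩ := hg s
    exact ⟨n, by rw [pow_zero, one_mul]; exact hn⟩
  | succ K ih =>
    obtain ⟨n, hn⟩ := ih (p_DIF K θ g q hg) s
    refine ⟨n, ?_⟩
    rw [Function.iterate_succ_apply, hn]
    ring

lemma it_sub_seq (K : ℕ) (q r : ℤ) (g : ℤ → ℝ) (s : ℤ) :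
    (Dl 1)^[K] (fun s => g (q * s + r)) s = (Dl q)^[K] g (q * s + r) := by
  induction K generalizing s with
  | zero => rfl
  | succ K ih =>
    rw [it_succ, it_succ, ih, ih]
    have e : q * (s + 1) + r = q * s + r + q := by ring
    rw [e]

lemma Ty.sub_seq {K : ℕ} {θ : ℝ} {g : ℤ → ℝ} (hg : Ty K θ g) (q r : ℤ) :
    Ty K (q ^ K * θ) (fun s => g (q * s + r)) := by
  intro s
  rw [it_sub_seq]
  exact hg.step q _

/-- REF. -/
theorem p_REF : T_REF := by
  intro K
  induction K with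
  | zero =>
    intro g hg
    refine ⟨1, one_pos, fun q' _ _ r => Or.inl fun s => ?_⟩
    obtain ⟨a, ha⟩ := hg (q' * s + r)
    obtain ⟨b, hb⟩ := hg (q' * 0 + r)
    have ha' : g (q' * s + r) = a := ha
    have hb' : g (q' * 0 + r) = b := hb
    exact ⟨a - b, by
      change g (q' * s + r) = g (q' * 0 + r) + _
      rw [ha', hb']; push_cast; ring⟩
  | succ K ih =>
    intro g hg
    have h1 : ∀ s, ∃ n : ℤ, (Dl 1)^[K] g (s + 1) - (Dl 1)^[K] g s = 0 + n := by
      intro s
      obtain ⟨n, hn⟩ := hg s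
      rw [it_succ] at hn
      exact ⟨n, by rw [zero_add]; exact hn⟩
    have h2 : Ty K ((Dl 1)^[K] g 0) g := by
      intro s
      obtain ⟨n, hn⟩ := tel h1 s 0
      refine ⟨n, ?_⟩
      rw [zero_add, mul_zero, zero_add] at hn
      linarith
    set θ := (Dl 1)^[K] g 0 with hθ
    rcases Nat.eq_zero_or_pos K with hK | hK
    · subst hK
      refine ⟨1, one_pos, fun q' _ _ r => Or.inl fun s => ?_⟩
      obtain ⟨a, ha⟩ := h2 (q' * s + r)
      obtain ⟨b, hb⟩ := h2 (q' * 0 + r)
      have ha' : g (q' * s + r) = θ + a := ha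
      have hb' : g (q' * 0 + r) = θ + b := hb
      exact ⟨a - b, by
        change g (q' * s + r) = g (q' * 0 + r) + _
        rw [ha', hb']; push_cast; ring⟩
    · by_cases hir : Irrational θ
      · refine ⟨1, one_pos, fun q' hq' _ r => Or.inr ?_⟩
        refine ⟨K - 1, (q' : ℝ) ^ K * θ, ?_, ?_⟩
        · have h3 : Irrational (((q' ^ K : ℕ) : ℝ) * θ) :=
            hir.natCast_mul (pow_ne_zero _ hq'.ne')
          rwa [Nat.cast_pow] at h3
        · rw [Nat.sub_add_cancel hK]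
          have := h2.sub_seq q' r
          rwa [Int.cast_natCast] at this
      · -- rational
        rw [Irrational, not_not] at hir
        obtain ⟨x, hx⟩ := hir
        have h3 : ∀ r : ℤ, ∀ s, ∃ n : ℤ, (Dl 1)^[K] (fun s => g ((x.den : ℤ) * s + r)) s = n := by
          intro r s
          obtain ⟨n, hn⟩ := h2.sub_seq (x.den : ℤ) r s
          refine ⟨(x.den : ℤ) ^ (K - 1) * x.num + n, ?_⟩
          rw [hn, ← hx]
          have h4 : (x : ℝ) * x.den = x.num := by
            exact_mod_cast x.mul_den_eq_num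
          have h5 : ((x.den : ℤ) : ℝ) ^ K = (x.den : ℝ) ^ (K - 1) * x.den := by
            rw [← pow_succ, Nat.sub_add_cancel hK]
            norm_cast
          rw [h5]
          push_cast
          rw [← h4]
          ring
        have h4 : ∀ r : ℤ, ∃ q : ℕ, 0 < q ∧ ∀ q' : ℕ, 0 < q' → q ∣ q' → ∀ r' : ℤ,
            CM (fun s => g ((x.den : ℤ) * (q' * s + r') + r)) ∨
            TI (fun s => g ((x.den : ℤ) * (q' * s + r') + r)) :=
          fun r => ih (fun s => g ((x.den : ℤ) * s + r)) (h3 r)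
        choose qq hqq0 hqq using h4
        refine ⟨x.den * ∏ r ∈ Finset.range x.den, qq r, ?_, ?_⟩
        · exact Nat.mul_pos x.den_pos (Finset.prod_pos fun r _ => hqq0 r)
        · rintro q' hq' ⟨c, hc⟩ r
          set r0 := (r % (x.den : ℤ)).toNat with hr0
          have hden : (0 : ℤ) < x.den := by exact_mod_cast x.den_pos
          have hm : (r0 : ℤ) = r % (x.den : ℤ) :=
            Int.toNat_of_nonneg (Int.emod_nonneg _ hden.ne')
          have hlt : r0 < x.den := by
            have := Int.emod_lt_of_pos r hden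
            rw [← hm] at this
            exact_mod_cast this
          have hdvd : qq (r0 : ℤ) ∣ (∏ r ∈ Finset.range x.den, qq r) * c :=
            Dvd.dvd.mul_right (Finset.dvd_prod_of_mem (fun r : ℕ => qq (r : ℤ))
              (Finset.mem_range.2 hlt)) c
          have hpos : 0 < (∏ r ∈ Finset.range x.den, qq r) * c := by
            rcases Nat.eq_zero_or_pos c with h0 | h0
            · rw [h0, mul_zero] at hc; omega
            · exact Nat.mul_pos (Finset.prod_pos fun r _ => hqq0 r) h0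
          have h5 := hqq (r0 : ℤ) _ hpos hdvd (r / (x.den : ℤ))
          have e : ∀ s : ℤ, (x.den : ℤ) * ((((∏ r ∈ Finset.range x.den, qq r) * c : ℕ) : ℤ) * s
              + r / (x.den : ℤ)) + r0 = (q' : ℤ) * s + r := by
            intro s
            have h6 := Int.mul_ediv_add_emod r (x.den : ℤ)
            rw [hc, hm]
            push_cast
            linear_combination h6
          simp only [e] at h5
          exact h5

end Pool.Agent.PTL
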