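import Pool.Agent.PTL.Mean
import Pool.Agent.PTL.Seq

/-!
# PTL: PER, BPC
-/

set_option autoImplicit false

namespace Pool.Agent.PTL

open Pool.Agent.PTR
open Pool.Agent.PTR.OL (V ii dif difs FLC InHull)

/-- PER. -/
theorem p_PER : T_PER := by
  intro m κ S hκ hS
  set N : ℕ := κ.natAbs with hN
  have hN0 : 0 < N := Int.natAbs_pos.2 hκ
  have hSN : ∀ k : ℤ, k + N ∈ S ↔ k ∈ S := by
    intro k
    rcases Int.natAbs_eq κ with h | h
    · rw [hN, ← h]; exact hS k
    · have h1 : (N : ℤ) = -κ := by rw [hN]; omega
      rw [h1]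
      have := hS (k + -κ)
      rw [neg_add_cancel_right] at this
      exact this.symm
  have hrI : ∀ k : ℤ, rI S (k + N) = rI S k := by
    intro k
    by_cases h : k ∈ S
    · rw [rI_mem h, rI_mem ((hSN k).2 h)]
    · rw [rI_not h, rI_not (fun h' => h ((hSN k).1 h'))]
  set f : ℤ → ℝ := fun s => ∑ i ∈ Finset.range N, rI S (s + i) with hf
  have h1 : ∀ s, f (s + 1) = f s := by
    intro s
    have e1 : f (s + 1) + rI S s = f s + rI S (s + N) := by
      have e2 : f (s + 1) + rI S s = ∑ i ∈ Finset.range (N + 1), rI S (s + i) := by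
        rw [Finset.sum_range_succ', hf]
        congr 1
        · refine Finset.sum_congr rfl fun i _ => ?_
          rw [add_assoc, add_comm (1 : ℤ)]
          push_cast
          rfl
        · simp
      rw [e2, Finset.sum_range_succ]
    rw [hrI] at e1
    linarith
  have h2 : ∀ s, f s = f 0 := by
    intro s
    induction s using Int.induction_on with
    | zero => rfl
    | succ i ih => rw [h1, ih]
    | pred i ih =>
      have := h1 (-(i : ℤ) - 1)
      rw [sub_add_cancel] at this
      rw [← this, ih]
  obtain ⟨j, hj, hjN⟩ : ∃ j : ℕ, f 0 = j ∧ j ≤ N := by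
    classical
    refine ⟨((Finset.range N).filter (fun i : ℕ => ((0 : ℤ) + i) ∈ S)).card, ?_, ?_⟩
    · rw [hf]
      simp only
      rw [Finset.card_filter]
      push_cast
      refine Finset.sum_congr rfl fun i _ => ?_
      by_cases h : (0 : ℤ) + i ∈ S
      · rw [rI_mem h, if_pos h]
      · rw [rI_not h, if_neg h]
    · exact (Finset.card_filter_le _ _).trans (by simp)
  refine ⟨j, hjN, ?_⟩
  have h3 : m.E f = N * m.E (rI S) := by
    have e : ∀ i : ℕ, m.E (fun s : ℤ => rI S (s + i)) = m.E (rI S) := fun i =>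
      m.shift (rI S) i (rI_bdd S)
    rw [hf, m.sum, Finset.sum_congr rfl fun i _ => e i]
    simp
  have h4 : m.E f = j := by
    have : f = fun _ => (j : ℝ) := by
      funext s
      rw [h2 s, hj]
    rw [this, m.const]
  have hN1 : (0 : ℝ) < N := by exact_mod_cast hN0
  rw [eq_div_iff hN1.ne', mul_comm, ← h3, h4]

/-- BPC. -/
theorem p_BPC : T_BPC := by
  intro K
  induction K with
  | zero =>
    intro δ _ h s
    have h1 : δ s = 0 := h s
    have h2 : δ 0 = 0 := h 0
    rw [h1, h2]
  | succ K ih =>
    intro δ hb h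
    obtain ⟨C, hC⟩ := hb
    have h1 := ih (Dl 1 δ) ⟨C + C, fun s => by
      have e : |Dl 1 δ s| ≤ |δ (s + 1)| + |δ s| := abs_sub _ _
      linarith [hC (s + 1), hC s]⟩ (fun s => by
        rw [← Function.iterate_succ_apply]
        exact h s)
    set c := Dl 1 δ 0 with hc
    have h2 : ∀ s : ℤ, δ s = δ 0 + s * c := by
      intro s
      induction s using Int.induction_on with
      | zero => simp
      | succ i ih =>
        have e := h1 i
        have e' : δ ((i : ℤ) + 1) - δ i = c := e
        push_cast at ih ⊢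
        linarith
      | pred i ih =>
        have e := h1 (-(i : ℤ) - 1)
        have e' : δ (-(i : ℤ) - 1 + 1) - δ (-(i : ℤ) - 1) = c := e
        rw [sub_add_cancel] at e'
        push_cast at ih ⊢
        linarith
    have hc0 : c = 0 := by
      by_contra hne
      obtain ⟨n, hn⟩ := exists_nat_gt ((C + C) / |c|)
      have hcp : 0 < |c| := abs_pos.2 hne
      rw [div_lt_iff₀ hcp] at hn
      have e1 := h2 n
      have e2 : |(n : ℝ) * c| ≤ C + C := by
        have : (n : ℝ) * c = δ n - δ 0 := by
          rw [e1]; push_cast; ring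
        rw [this]
        exact (abs_sub _ _).trans (by linarith [hC n, hC 0])
      rw [abs_mul, Nat.abs_cast] at e2
      linarith
    intro s
    rw [h2 s, hc0]
    ring

end Pool.Agent.PTL
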