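import Pool.Agent.PTL.P_CHV
import Pool.Agent.PTL.P_PER

/-!
# PTL: TYP (from INT)
-/

set_option autoImplicit false

namespace Pool.Agent.PTL

open Pool.Agent.PTR
open Pool.Agent.PTR.OL (V ii dif difs FLC InHull)

lemma Av_shift (m : IM) (W : V) (F : V → ℝ) (hF : ∃ C : ℝ, ∀ z, |F z| ≤ C) (t : V) (k : ℤ) :
    Av m W F (t + k • W) = Av m W F t := by
  obtain ⟨C, hC⟩ := hF
  have h := m.shift (fun j => F (t + j • W)) k ⟨C, fun s => hC _⟩
  unfold Av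
  rw [← h]
  congr 1
  funext s
  rw [add_smul, add_assoc, add_comm (k • W)]

/-- TYP from INT. -/
theorem TYP_of (hINT : T_INT) : T_TYP := by
  classical
  intro m a b X hX n P L w T hn hw hPL hS
  obtain ⟨v₀, hv₀⟩ := p_CHV w (P ++ L) hw hPL
  have hn' : (n : ℤ) ≠ 0 := by exact_mod_cast hn.ne'
  obtain ⟨R, _, hR⟩ := p_FIN a b X hX ((n : ℤ) • v₀) ((n : ℤ) • w) (by
    rw [det_smul_left, det_smul_right]
    exact mul_ne_zero hn' (mul_ne_zero hn' hv₀.1))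
  have h1 : ∀ r : V, ∃ q : ℕ, 0 < q ∧ ∀ q' : ℕ, 0 < q' → q ∣ q' → ∀ i : ℤ,
      CM (fun s => gam m a b ((n : ℤ) • v₀) ((n : ℤ) • w) T r (q' * s + i)) ∨
      TI (fun s => gam m a b ((n : ℤ) • v₀) ((n : ℤ) • w) T r (q' * s + i)) := by
    intro r
    exact p_REF (L.length + 1) (gam m a b ((n : ℤ) • v₀) ((n : ℤ) • w) T r)
      (fun s => hINT m a b n P L w v₀ T hS hv₀ r s)
  choose q hq0 hq using h1
  set Q : ℕ := ∏ r ∈ R, q r with hQ
  have hQ0 : 0 < Q := Finset.prod_pos fun r _ => hq0 r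
  refine ⟨(Q : ℤ) • v₀, ⟨?_, ?_⟩, ?_⟩
  · rw [det_smul_left]
    exact mul_ne_zero (by exact_mod_cast hQ0.ne') hv₀.1
  · intro w' hw'
    obtain ⟨p, q', h⟩ := hv₀.2 w' hw'
    refine ⟨Q * p, Q * q', ?_⟩
    rw [h, smul_add, ← mul_smul, ← mul_smul]
  · intro t ht
    obtain ⟨r, hr, i, k, rfl⟩ := hR t ht
    have h2 := hq r Q hQ0 (Finset.dvd_prod_of_mem q hr) i
    have e : (gam m a b ((n : ℤ) • ((Q : ℤ) • v₀)) ((n : ℤ) • w) T
        (r + lv a b (i • (n : ℤ) • v₀ + k • (n : ℤ) • w))) =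
        fun s => gam m a b ((n : ℤ) • v₀) ((n : ℤ) • w) T r (Q * s + i) := by
      funext s
      unfold gam
      have e1 : r + lv a b (i • (n : ℤ) • v₀ + k • (n : ℤ) • w) +
          lv a b (s • (n : ℤ) • (Q : ℤ) • v₀) =
          r + lv a b (((Q : ℤ) * s + i) • (n : ℤ) • v₀) + k • lv a b ((n : ℤ) • w) := by
        rw [← lv_zsmul, add_assoc, add_assoc, ← lv_add, ← lv_add]
        congr 2
        ext <;> simp <;> ring
      rw [e1, Av_shift m _ _ ⟨1, rI_abs T⟩]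
    rw [e]
    exact h2

end Pool.Agent.PTL
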