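import Pool.Agent.PTL.Half
import Pool.Agent.PTL.P_TYP
import Pool.Agent.PTL.P_INT

/-!
# PTL: NOTI (from PAIR, EQB, NZD, KAP)
-/

set_option autoImplicit false

namespace Pool.Agent.PTL

open Pool.Agent.PTR
open Pool.Agent.PTR.OL (V ii dif difs FLC InHull)

lemma gam_mem (m : IM) (a b : V) (v w : Z2) (T : Set V) (t : V) (s : ℤ) :
    0 ≤ gam m a b v w T t s ∧ gam m a b v w T t s ≤ 1 :=
  (p_AVB m (lv a b w)).2.2.2.1 T _

/-- a type I sequence does not take only finitely many values almost everywhere -/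
lemma TI.not_fin (m : IM) {g : ℤ → ℝ} (hg : TI g) (F : Finset ℝ) (h : m.Null {s | g s ∉ F}) :
    False := by
  have h1 := m.null_biUnion F (fun c => {s | g s = c}) fun c _ => p_NUL m g c hg
  have h2 := m.null_union h h1
  refine m.not_null_univ (m.null_mono ?_ h2)
  intro s _
  by_cases hs : g s ∈ F
  · right
    exact ⟨g s, hs, rfl⟩
  · left
    exact hs

/-- a sequence in `[0,1]` which is constant modulo 1 takes at most three values -/
lemma CM.fin {g : ℤ → ℝ} (hg : CM g) (h01 : ∀ s, 0 ≤ g s ∧ g s ≤ 1) :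
    ∀ s, g s ∈ ({g 0, 0, 1} : Finset ℝ) := by
  intro s
  obtain ⟨n, hn⟩ := hg s
  have h0 := h01 0
  have hs := h01 s
  rw [hn] at hs ⊢
  have h1 : (n : ℝ) ≤ 1 := by linarith
  have h2 : (-1 : ℝ) ≤ n := by linarith
  have h1' : n ≤ 1 := by exact_mod_cast h1
  have h2' : -1 ≤ n := by exact_mod_cast h2
  have : n = -1 ∨ n = 0 ∨ n = 1 := by omega
  simp only [Finset.mem_insert, Finset.mem_singleton]
  rcases this with h | h | h
  · subst h
    right; left
    push_cast at hs ⊢
    linarith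
  · subst h
    left; simp
  · subst h
    right; right
    push_cast at hs ⊢
    linarith

lemma ecov_fin {a b : V} (hab : rdet a b ≠ 0) {X : Set V} (hX : X.Finite) {C : Set V}
    (hC : ∃ r : ℝ, ∀ z ∈ C, ‖z‖ ≤ r) (z : V) : {t | t ∈ XL a b X ∧ z - t ∈ C}.Finite := by
  obtain ⟨r, hr⟩ := hC
  have h := fin_ball a b hab X hX (‖z‖ + r)
  refine h.subset ?_
  rintro t ⟨ht, hz⟩
  refine ⟨?_, ht⟩
  have h1 := hr _ hz
  calc ‖t‖ = ‖z - (z - t)‖ := by rw [sub_sub_cancel]
    _ ≤ ‖z‖ + ‖z - t‖ := norm_sub_le _ _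
    _ ≤ ‖z‖ + r := by linarith

/-- the sum of the averages of the points near `z` is 1 -/
lemma sum_gam (m : IM) {a b : V} (v w : Z2) {X : Set V} {C T : Set V}
    (hT : ECov C T) (hTX : T ⊆ XL a b X) (z : V) (F : Finset V)
    (hF : ∀ t, t ∈ F ↔ t ∈ XL a b X ∧ z - t ∈ C) (s : ℤ) :
    ∑ t ∈ F, gam m a b v w T t s = 1 := by
  classical
  unfold gam Av
  rw [← m.sum F (fun t k => rI T (t + lv a b (s • v) + k • lv a b w))]
  have h : (fun k : ℤ => ∑ t ∈ F, rI T (t + lv a b (s • v) + k • lv a b w)) = fun _ => 1 := by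
    funext k
    have e : lv a b (s • v) + k • lv a b w = lv a b (s • v + k • w) := by
      rw [lv_add, lv_zsmul a b k]
    obtain ⟨t₁, ⟨ht₁, ht₁C⟩, huniq⟩ := hT (z + lv a b (s • v + k • w))
    have h1 : t₁ - lv a b (s • v + k • w) ∈ F := by
      rw [hF]
      refine ⟨?_, ?_⟩
      · rw [sub_eq_add_neg, ← lv_neg]
        exact (XL_add a b X _ _).2 (hTX ht₁)
      · convert ht₁C using 1
        abel
    rw [Finset.sum_eq_single (t₁ - lv a b (s • v + k • w))]
    · rw [add_assoc, e, sub_add_cancel, rI_mem ht₁]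
    · intro t ht hne
      refine rI_not fun hmem => hne ?_
      rw [add_assoc, e] at hmem
      have h2 := huniq (t + lv a b (s • v + k • w)) ⟨hmem, by
        have := ((hF t).1 ht).2
        convert this using 1
        abel⟩
      rw [← h2, add_sub_cancel_right]
    · intro h2
      exact absurd h1 h2
  rw [h, m.one]

/-- NOTI from PAIR, EQB, NZD, KAP. -/
theorem NOTI_of (hPAIR : T_PAIR) (hEQB : T_EQB) (hNZD : T_NZD) (hKAP : T_KAP) : T_NOTI := by
  classical
  intro m a b hab X hX n P L w v C T hn hS hv hC hT hTX hCT t₀ ht₀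
  rcases hCT t₀ ht₀ with h | hTI₀
  · exact h
  exfalso
  set v' : Z2 := (n : ℤ) • v with hv'
  set w' : Z2 := (n : ℤ) • w with hw'
  have hn' : (n : ℤ) ≠ 0 := by exact_mod_cast hn.ne'
  have hdet : GT.det v' w' ≠ 0 := by
    rw [hv', hw', det_smul_left, det_smul_right]
    exact mul_ne_zero hn' (mul_ne_zero hn' hv.1)
  obtain ⟨eRefl, eSymm, oSymm, eTrans, eoTrans, ooTrans, eNull, oNull, oIntro⟩ :=
    hEQB m a b v' w' T
  -- finitely many values
  have keyE : ∀ t t', t ∈ XL a b X → t' ∈ XL a b X → Eqv m a b v' w' T t t' →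
      TI (gam m a b v' w' T t) → TI (gam m a b v' w' T t') := by
    intro t t' ht ht' hE hti
    rcases hCT t' ht' with h | h
    · exfalso
      have h1 := eNull t t' hE
      refine hti.not_fin m {gam m a b v' w' T t' 0, 0, 1} (m.null_mono ?_ h1)
      intro s hs
      simp only [Set.mem_ofPred_eq] at hs ⊢
      intro h2
      apply hs
      rw [h2]
      exact h.fin (gam_mem m a b v' w' T t') s
    · exact h
  have keyO : ∀ t t', t ∈ XL a b X → t' ∈ XL a b X → Opp m a b v' w' T t t' →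
      TI (gam m a b v' w' T t) → TI (gam m a b v' w' T t') := by
    intro t t' ht ht' hE hti
    rcases hCT t' ht' with h | h
    · exfalso
      have h1 := oNull t t' hE
      refine hti.not_fin m (({gam m a b v' w' T t' 0, 0, 1} : Finset ℝ).image (fun x => 1 - x))
        (m.null_mono ?_ h1)
      intro s hs
      simp only [Set.mem_ofPred_eq] at hs ⊢
      intro h2
      apply hs
      refine Finset.mem_image.2 ⟨gam m a b v' w' T t' s, h.fin (gam_mem m a b v' w' T t') s, ?_⟩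
      linarith
    · exact h
  -- partner
  have partner : ∀ t z, t ∈ XL a b X → TI (gam m a b v' w' T t) → z - t ∈ C →
      ∃ t' ∈ XL a b X, z - t' ∈ C ∧ Opp m a b v' w' T t t' := by
    intro t z ht hti hz
    have hfin := ecov_fin hab hX hC z
    set F := hfin.toFinset with hF
    have hFm : ∀ t, t ∈ F ↔ t ∈ XL a b X ∧ z - t ∈ C := fun t => by
      rw [hF, Set.Finite.mem_toFinset]; rfl
    obtain ⟨j, hj, hjt, -, hnull⟩ := hPAIR m V F (gam m a b v' w' T)
      (fun i _ s => (gam_mem m a b v' w' T i s).1)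
      (fun s => sum_gam m v' w' hT hTX z F hFm s)
      (fun i hi => hCT i ((hFm i).1 hi).1) t ((hFm t).2 ⟨ht, hz⟩) hti
    refine ⟨j, ((hFm j).1 hj).1, ((hFm j).1 hj).2, oIntro t j ?_ hnull⟩
    intro u hu hju
    apply hjt
    have h1 := (hT (z + lv a b u)).unique ⟨hu, by
      convert hz using 1
      abel⟩ ⟨hju, by
      convert ((hFm j).1 hj).2 using 1
      abel⟩
    exact (add_right_cancel h1).symm
  -- two equivalent points in one class
  have inj : ∀ t t', t ∈ XL a b X → TI (gam m a b v' w' T t) → Eqv m a b v' w' T t t' →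
      ∀ i k : ℤ, t' = t + lv a b (i • v' + k • w') → t' = t := by
    intro t t' ht hti hE i k ht'
    by_cases hi : i = 0
    · by_cases hk : k = 0
      · rw [ht', hi, hk, zero_smul, zero_smul, add_zero, lv_zero, add_zero]
      · exfalso
        rw [ht', hi, zero_smul, zero_add] at hE
        exact hKAP m a b n P L w v T hS hv t k hk hti hE
    · exfalso
      have h1 := eNull t t' hE
      have h2 : ∀ s, gam m a b v' w' T t' s = gam m a b v' w' T t (s + i) := by
        intro s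
        unfold gam
        have e1 : t' + lv a b (s • v') = t + lv a b ((s + i) • v') + k • lv a b w' := by
          rw [ht', ← lv_zsmul, add_assoc, add_assoc, ← lv_add, ← lv_add, add_smul]
          congr 2
          abel
        rw [e1, Av_shift m _ _ ⟨1, rI_abs T⟩]
      refine p_NUL0 m _ i hti hi (m.null_mono ?_ h1)
      intro s hs
      simp only [Set.mem_ofPred_eq] at hs ⊢
      rw [h2]
      exact fun h => hs h.symm
  obtain ⟨R, -, hR⟩ := p_FIN a b X hX v' w' hdet
  -- finiteness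
  have hfinS : ∀ S : Set V, (∀ t ∈ S, t ∈ XL a b X ∧ TI (gam m a b v' w' T t)) →
      (∀ t ∈ S, ∀ t' ∈ S, Eqv m a b v' w' T t t') → S.Finite := by
    intro S hS1 hS2
    have h1 : ∀ t : V, ∃ r : V, t ∈ S → r ∈ R ∧ ∃ i k : ℤ, t = r + lv a b (i • v' + k • w') := by
      intro t
      by_cases ht : t ∈ S
      · obtain ⟨r, hr, i, k, h⟩ := hR t (hS1 t ht).1
        exact ⟨r, fun _ => ⟨hr, i, k, h⟩⟩
      · exact ⟨t, fun h => absurd h ht⟩
    choose ρ hρ using h1
    refine Set.Finite.of_finite_image (f := ρ) ((R.finite_toSet).subset ?_) ?_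
    · rintro _ ⟨t, ht, rfl⟩
      exact (hρ t ht).1
    · intro t ht t' ht' htt'
      obtain ⟨-, i, k, h⟩ := hρ t ht
      obtain ⟨-, i', k', h'⟩ := hρ t' ht'
      have htt'' : ρ t = ρ t' := htt'
      refine (inj t t' (hS1 t ht).1 (hS1 t ht).2 (hS2 t ht t' ht') (i' - i) (k' - k) ?_).symm
      have e : lv a b ((i' - i) • v' + (k' - k) • w')
          = lv a b (i' • v' + k' • w') - lv a b (i • v' + k • w') := by
        rw [← lv_sub, sub_smul, sub_smul]
        congr 1
        abel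
      rw [e, h, h', ← htt'']
      generalize lv a b (i' • v' + k' • w') = A
      generalize lv a b (i • v' + k • w') = B
      have e3 : ∀ r : V, r + A = r + B + (A - B) := fun r => by abel
      exact e3 _
  set PP : Set V := {t | t ∈ XL a b X ∧ Eqv m a b v' w' T t₀ t} with hPP
  set QQ : Set V := {t | t ∈ XL a b X ∧ Opp m a b v' w' T t₀ t} with hQQ
  have hPfin : PP.Finite := hfinS PP
    (fun t ht => ⟨ht.1, keyE t₀ t ht₀ ht.1 ht.2 hTI₀⟩)
    (fun t ht t' ht' => eTrans t t₀ t' (eSymm _ _ ht.2) ht'.2)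
  have hQfin : QQ.Finite := hfinS QQ
    (fun t ht => ⟨ht.1, keyO t₀ t ht₀ ht.1 ht.2 hTI₀⟩)
    (fun t ht t' ht' => ooTrans t t₀ t' (oSymm _ _ ht.2) ht'.2)
  have hdisj : Disjoint PP QQ := by
    rw [Set.disjoint_left]
    intro t hP hQ
    have h1 := eNull t₀ t hP.2
    have h2 := oNull t₀ t hQ.2
    refine hTI₀.not_fin m {1 / 2} (m.null_mono ?_ (m.null_union h1 h2))
    intro s hs
    by_contra hcon
    simp only [Set.mem_union, Set.mem_ofPred_eq, not_or, not_not] at hcon
    apply hs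
    rw [Finset.mem_singleton]
    linarith [hcon.1, hcon.2]
  refine hNZD C PP QQ hC ?_ hPfin hQfin hdisj ⟨t₀, ht₀, eRefl t₀⟩ ?_ ?_
  · obtain ⟨t, ⟨-, ht⟩, -⟩ := hT 0
    exact ⟨_, ht⟩
  · rintro z ⟨t, ht, hz⟩
    obtain ⟨t', ht'X, ht'C, hO⟩ := partner t z ht.1 (keyE t₀ t ht₀ ht.1 ht.2 hTI₀) hz
    exact ⟨t', ⟨ht'X, eoTrans t₀ t t' ht.2 hO⟩, ht'C⟩
  · rintro z ⟨t, ht, hz⟩
    obtain ⟨t', ht'X, ht'C, hO⟩ := partner t z ht.1 (keyO t₀ t ht₀ ht.1 ht.2 hTI₀) hz
    exact ⟨t', ⟨ht'X, ooTrans t₀ t t' ht.2 hO⟩, ht'C⟩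

end Pool.Agent.PTL
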