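import Pool.Agent.PTL.Targets

/-!
# PTL: NZD
-/

set_option autoImplicit false

namespace Pool.Agent.PTL

open Pool.Agent.PTR
open Pool.Agent.PTR.OL (V ii dif difs FLC InHull)

/-- A linear form `z.1 + θ z.2` which is injective on a finite set. -/
lemma exists_sep (F : Set V) (hF : F.Finite) :
    ∃ θ : ℝ, ∀ t ∈ F, ∀ t' ∈ F, t.1 + θ * t.2 = t'.1 + θ * t'.2 → t = t' := by
  have hB : ((fun p : V × V => -(p.1.1 - p.2.1) / (p.1.2 - p.2.2)) '' (F ×ˢ F)).Finite :=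
    (hF.prod hF).image _
  obtain ⟨θ, hθ⟩ := hB.exists_notMem
  refine ⟨θ, fun t ht t' ht' h => ?_⟩
  by_cases h2 : t.2 - t'.2 = 0
  · have h3 : t.2 = t'.2 := by linarith
    refine Prod.ext ?_ h3
    rw [h3] at h
    linarith
  · exfalso
    apply hθ
    refine ⟨(t, t'), ⟨ht, ht'⟩, ?_⟩
    simp only
    rw [div_eq_iff h2]
    linarith

/-- The asymmetric half. -/
lemma nzd_half {C P Q : Set V} {θ : ℝ} {t₀ : V} (hb : ∃ r : ℝ, ∀ z ∈ C, ‖z‖ ≤ r)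
    (hC : C.Nonempty) (hQ : Q.Finite) (ht₀ : t₀ ∈ P)
    (hmax : ∀ t ∈ Q, t.1 + θ * t.2 < t₀.1 + θ * t₀.2)
    (h : ∀ z, (∃ t ∈ P, z - t ∈ C) → ∃ t ∈ Q, z - t ∈ C) : False := by
  obtain ⟨ε, hε, hgap⟩ : ∃ ε : ℝ, 0 < ε ∧
      ∀ t ∈ Q, t.1 + θ * t.2 ≤ t₀.1 + θ * t₀.2 - ε := by
    rcases Q.eq_empty_or_nonempty with h0 | h0
    · exact ⟨1, one_pos, fun t ht => by rw [h0] at ht; exact absurd ht (Set.notMem_empty t)⟩
    · obtain ⟨t₁, ht₁, hm⟩ := Set.exists_max_image Q (fun t => t.1 + θ * t.2) hQ h0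
      refine ⟨(t₀.1 + θ * t₀.2) - (t₁.1 + θ * t₁.2), by linarith [hmax t₁ ht₁], fun t ht => ?_⟩
      have := hm t ht
      linarith
  obtain ⟨r, hr⟩ := hb
  have hbdd : BddAbove ((fun z : V => z.1 + θ * z.2) '' C) := by
    refine ⟨r + |θ| * r, ?_⟩
    rintro _ ⟨z, hz, rfl⟩
    have h1 : |z.1| ≤ r := (norm_fst_le z).trans (hr z hz)
    have h2 : |z.2| ≤ r := (norm_snd_le z).trans (hr z hz)
    have h3 : θ * z.2 ≤ |θ| * r := by
      calc θ * z.2 ≤ |θ * z.2| := le_abs_self _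
        _ = |θ| * |z.2| := abs_mul _ _
        _ ≤ |θ| * r := by gcongr
    have h4 := le_abs_self z.1
    simp only
    linarith
  have hne : ((fun z : V => z.1 + θ * z.2) '' C).Nonempty := hC.image _
  obtain ⟨_, ⟨c, hc, rfl⟩, hlt⟩ := exists_lt_of_lt_csSup hne
    (show sSup ((fun z : V => z.1 + θ * z.2) '' C) - ε <
      sSup ((fun z : V => z.1 + θ * z.2) '' C) by linarith)
  obtain ⟨t, ht, hz⟩ := h (t₀ + c) ⟨t₀, ht₀, by rwa [add_sub_cancel_left]⟩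
  have h5 := le_csSup hbdd ⟨_, hz, rfl⟩
  have h6 := hgap t ht
  simp only [Prod.fst_sub, Prod.snd_sub, Prod.fst_add, Prod.snd_add] at h5 hlt
  nlinarith

/-- NZD. -/
theorem p_NZD : T_NZD := by
  intro C P Q hb hC hP hQ hd hne h1 h2
  obtain ⟨θ, hθ⟩ := exists_sep (P ∪ Q) (hP.union hQ)
  obtain ⟨t₀, ht₀, hm⟩ := Set.exists_max_image (P ∪ Q) (fun t => t.1 + θ * t.2) (hP.union hQ)
    (hne.mono Set.subset_union_left)
  rcases ht₀ with h0 | h0
  · refine nzd_half hb hC hQ h0 (θ := θ) (fun t ht => ?_) h1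
    refine lt_of_le_of_ne (hm t (Or.inr ht)) (fun he => ?_)
    have := hθ t (Or.inr ht) t₀ (Or.inl h0) he
    rw [this] at ht
    exact Set.disjoint_left.1 hd h0 ht
  · refine nzd_half hb hC hP h0 (θ := θ) (fun t ht => ?_) h2
    refine lt_of_le_of_ne (hm t (Or.inl ht)) (fun he => ?_)
    have := hθ t (Or.inl ht) t₀ (Or.inr h0) he
    rw [this] at ht
    exact Set.disjoint_left.1 hd ht h0

end Pool.Agent.PTL
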