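import Pool.Agent.PTL.Half

/-!
# PTL: PAIR
-/

set_option autoImplicit false

namespace Pool.Agent.PTL

/-- A sequence which is constant modulo 1 and bounded by 0 and 1 takes at most three values. -/
lemma CM.vals {g : ℤ → ℝ} (h : CM g) (h0 : ∀ s, 0 ≤ g s ∧ g s ≤ 1) (s : ℤ) :
    g s = g 0 - 1 ∨ g s = g 0 ∨ g s = g 0 + 1 := by
  obtain ⟨n, hn⟩ := h s
  have h1 := h0 s
  have h2 := h0 0
  have h3 : (n : ℝ) ≤ 1 := by linarith
  have h4 : (-1 : ℝ) ≤ n := by linarith
  have h5 : n ≤ 1 := by exact_mod_cast h3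
  have h6 : -1 ≤ n := by exact_mod_cast h4
  interval_cases n
  · left; rw [hn]; push_cast; ring
  · right; left; rw [hn]; push_cast; ring
  · right; right; rw [hn]; push_cast; ring

/-- A type I sequence does not agree almost everywhere with one of three constants. -/
lemma TI.not3 (m : IM) {g : ℤ → ℝ} (hg : TI g) {x y z : ℝ} {S : Set ℤ} (hS : m.Null S)
    (h : ∀ s, s ∉ S → g s = x ∨ g s = y ∨ g s = z) : False := by
  apply m.not_null_univ
  refine m.null_mono (fun s _ => ?_) (m.null_union hS (m.null_union (p_NUL m g x hg)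
    (m.null_union (p_NUL m g y hg) (p_NUL m g z hg))))
  by_cases hs : s ∈ S
  · exact Or.inl hs
  · right
    rcases h s hs with h1 | h1 | h1
    · exact Or.inl h1
    · exact Or.inr (Or.inl h1)
    · exact Or.inr (Or.inr h1)

lemma CM.not_TI (m : IM) {g : ℤ → ℝ} (h : CM g) (h0 : ∀ s, 0 ≤ g s ∧ g s ≤ 1) (hg : TI g) :
    False :=
  hg.not3 m m.null_empty (fun s _ => h.vals h0 s)

lemma CM.sum {ι : Type} (F : Finset ι) (g : ι → ℤ → ℝ) (h : ∀ i ∈ F, CM (g i)) :
    CM (fun s => ∑ i ∈ F, g i s) := by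
  classical
  intro s
  choose! n hn using fun i (hi : i ∈ F) => h i hi s
  refine ⟨∑ i ∈ F, n i, ?_⟩
  push_cast
  rw [← Finset.sum_add_distrib]
  exact Finset.sum_congr rfl hn

/-- PAIR. -/
theorem p_PAIR : T_PAIR := by
  classical
  intro m ι F g h0 h1 hty i hi hTI
  have hle : ∀ k ∈ F, ∀ s, g k s ≤ 1 := by
    intro k hk s
    rw [← h1 s]
    exact Finset.single_le_sum (f := fun k => g k s) (fun j hj => h0 j hj s) hk
  have hE1 : ∑ k ∈ F, m.E (g k) = 1 := by
    rw [← m.sum]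
    have : (fun s => ∑ k ∈ F, g k s) = fun _ => (1 : ℝ) := funext h1
    rw [this, m.one]
  have hE0 : ∀ k ∈ F, 0 ≤ m.E (g k) := fun k hk => m.pos _ (h0 k hk) ⟨1, hle k hk⟩
  -- a second term of type I
  obtain ⟨j, hj, hji, hTj⟩ : ∃ j ∈ F, j ≠ i ∧ TI (g j) := by
    by_contra hcon
    push Not at hcon
    have hCM : ∀ k ∈ F.erase i, CM (g k) := by
      intro k hk
      obtain ⟨hk1, hk2⟩ := Finset.mem_erase.1 hk
      rcases hty k hk2 with h | h
      · exact h
      · exact absurd h (hcon k hk2 hk1)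
    have h2 := CM.sum (F.erase i) g hCM
    have h3 : CM (g i) := by
      intro s
      obtain ⟨n, hn⟩ := h2 s
      refine ⟨-n, ?_⟩
      have e1 := Finset.add_sum_erase F (fun k => g k s) hi
      have e2 := Finset.add_sum_erase F (fun k => g k 0) hi
      simp only at e1 e2 hn
      rw [h1] at e1 e2
      push_cast
      linarith
    exact h3.not_TI m (fun s => ⟨h0 i hi s, hle i hi s⟩) hTI
  refine ⟨j, hj, hji, hTj, ?_⟩
  set G := (F.erase i).erase j with hG
  have hjG : j ∈ F.erase i := Finset.mem_erase.2 ⟨hji, hj⟩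
  have hsplit : ∀ f : ι → ℝ, f i + (f j + ∑ k ∈ G, f k) = ∑ k ∈ F, f k := by
    intro f
    rw [← Finset.add_sum_erase F f hi, ← Finset.add_sum_erase (F.erase i) f hjG]
  have hGF : ∀ k ∈ G, k ∈ F := fun k hk => Finset.mem_of_mem_erase (Finset.mem_of_mem_erase hk)
  have hHi := p_HALF m (g i) hTI (fun s => ⟨h0 i hi s, hle i hi s⟩)
  have hHj := p_HALF m (g j) hTj (fun s => ⟨h0 j hj s, hle j hj s⟩)
  have hES := hsplit (fun k => m.E (g k))
  rw [hE1] at hES
  have hsum0 : ∑ k ∈ G, m.E (g k) ≤ 0 := by linarith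
  have hCMG : ∀ k ∈ G, CM (g k) := by
    intro k hk
    rcases hty k (hGF k hk) with h | h
    · exact h
    · exfalso
      have h2 := p_HALF m (g k) h (fun s => ⟨h0 k (hGF k hk) s, hle k (hGF k hk) s⟩)
      have h3 := Finset.single_le_sum (f := fun k => m.E (g k))
        (fun k hk => hE0 k (hGF k hk)) hk
      linarith
  have hR := CM.sum G g hCMG
  set R : ℤ → ℝ := fun s => ∑ k ∈ G, g k s with hRdef
  have hR0 : ∀ s, 0 ≤ R s := fun s => Finset.sum_nonneg fun k hk => h0 k (hGF k hk) s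
  have hRe : ∀ s, R s = 1 - g i s - g j s := by
    intro s
    have := hsplit (fun k => g k s)
    rw [h1] at this
    simp only [hRdef]
    linarith
  have hR1 : ∀ s, R s ≤ 1 := fun s => by
    have e1 := h0 i hi s
    have e2 := h0 j hj s
    rw [hRe]; linarith
  have hER : m.E R ≤ 0 := by
    rw [hRdef, m.sum]
    exact hsum0
  have key : ∀ c : ℝ, 0 < c → (∀ s, R s ≠ 0 → c ≤ R s) →
      m.Null {s | g i s + g j s ≠ 1} := by
    intro c hc h
    refine m.null_mono ?_ (m.null_of_E hR0 ⟨1, hR1⟩ hER hc (S := {s | R s ≠ 0}) h)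
    intro s hs h2
    apply hs
    have := hRe s
    rw [h2] at this
    linarith
  rcases (Int.fract_nonneg (R 0)).eq_or_lt with h2 | h2
  · refine key 1 one_pos ?_
    intro s hs
    obtain ⟨n, hn⟩ := hR s
    have h3 : R s = ((⌊R 0⌋ + n : ℤ) : ℝ) := by
      have := Int.floor_add_fract (R 0)
      rw [← h2] at this
      push_cast
      have e : (fun s => ∑ i ∈ G, g i s) s = R s := rfl
      linarith
    have h4 : 0 < R s := lt_of_le_of_ne (hR0 s) (Ne.symm hs)
    rw [h3] at h4 ⊢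
    have h5 : (0 : ℤ) < ⌊R 0⌋ + n := by exact_mod_cast h4
    exact_mod_cast h5
  · refine key _ h2 ?_
    intro s _
    obtain ⟨n, hn⟩ := hR s
    have h3 : Int.fract (R s) = Int.fract (R 0) := by
      have e : R s = R 0 + n := hn
      rw [e, Int.fract_add_intCast]
    rw [← h3]
    have h4 : (0 : ℤ) ≤ ⌊R s⌋ := Int.floor_nonneg.2 (hR0 s)
    have h5 : (0 : ℝ) ≤ (⌊R s⌋ : ℝ) := by exact_mod_cast h4
    have := Int.floor_add_fract (R s)
    linarith

end Pool.Agent.PTL
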