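import Pool.Agent.PTL.FLCR
import Pool.Agent.PTL.P_MEAN
import Pool.Agent.PTL.P_EQB
import Pool.Agent.PTL.P_PAIR
import Pool.Agent.PTL.P_NZD
import Pool.Agent.PTL.P_KAP
import Pool.Agent.PTL.P_NOTI

/-!
# PTL: unconditional theorems
-/

set_option autoImplicit false

namespace Pool.Agent.PTL

theorem p_KAP : T_KAP := KAP_of p_LIF p_PER p_BPC

theorem p_TYP : T_TYP := TYP_of p_INT

theorem p_NOTI : T_NOTI := NOTI_of p_PAIR p_EQB p_NZD p_KAP

theorem p_STEP : T_STEP := STEP_of p_MEAN p_ULT p_TYP p_NOTI p_MUL p_AVB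

/-- The lattice case with a relation. -/
theorem p_R3W : T_R3W := R3W_of p_STEP

/-- Tilings of finite local complexity with a relation. -/
theorem p_FLCR : T_FLCR := FLCR_of p_R3W

end Pool.Agent.PTL
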