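import Pool.Agent.PTL.All
import Pool.Agent.PSQ.Main

/-!
# Arbitrary bodies with a tiling in finitely many translates of one lattice
-/

set_option autoImplicit false

namespace Pool.Agent.PTL

open Pool.Agent.PTR Topology Filter
open Pool.Agent.PTR.OL (V ii dif difs FLC InHull)

/-- R3W with the location of the new tiling. -/
theorem R3WS {a b : V} (hab : rdet a b ≠ 0) {X : Set V} (hX : X.Finite) {C T : Set V}
    (hC : ∃ r : ℝ, ∀ z ∈ C, ‖z‖ ≤ r) (hT : ECov C T) (hsub : T ⊆ XL a b X) (L : List Z2)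
    (hL : ∀ w ∈ L, w ≠ 0) (hpw : L.Pairwise (fun w w' => GT.det w w' ≠ 0))
    (hrel : ∀ z, fds (L.map (lv a b)) (rI T) z = 0) :
    ∃ (T' : Set V) (N : ℕ), 0 < N ∧ T' ⊆ XL a b X ∧ ECov C T' ∧
      ∀ (z : V) (w : Z2), z + lv a b ((N : ℤ) • w) ∈ T' ↔ z ∈ T' := by
  obtain ⟨T', P', hP', hT', hsub', n, hn, hS⟩ := stg_all p_STEP a b hab X hX C hC L [] T hT hsub
    (fun w hw => absurd hw (by simp)) hL (by simpa using hpw) ⟨1, one_pos, fun t => Or.inr
      fun u => by simpa using hrel (t + lv a b u)⟩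
  refine surgery a b hab X hX C T' hC hT' hsub' n hn ?_
  intro x hx r
  rcases hS (x + lv a b r) with ⟨w, hw, h⟩ | h
  · refine ⟨(n : ℤ) • w, ?_, ⟨w.1, by simp⟩, ⟨w.2, by simp⟩, ?_⟩
    · intro h0
      rcases smul_eq_zero.1 h0 with h1 | h1
      · exact absurd h1 (by exact_mod_cast hn.ne')
      · exact hP' w hw h1
    · rintro u ⟨i, hi⟩ ⟨j, hj⟩
      have hu : u = r + (n : ℤ) • ((i, j) : Z2) := by
        ext
        · simp only [Prod.fst_add, Prod.smul_fst, smul_eq_mul]; omega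
        · simp only [Prod.snd_add, Prod.smul_snd, smul_eq_mul]; omega
      have h1 := h (i, j)
      rw [add_assoc, add_assoc, ← lv_add, ← lv_add] at h1
      rw [hu, ← h1, smul_add, add_assoc r]
  · refine ⟨((n : ℤ), 0), ?_, ⟨1, by simp⟩, ⟨0, by simp⟩, ?_⟩
    · intro h0
      have := congrArg Prod.fst h0
      simp only [Prod.fst_zero] at this
      omega
    · rintro u ⟨i, hi⟩ ⟨j, hj⟩
      have hemp : ∀ i j : ℤ, x + lv a b (r + (n : ℤ) • ((i, j) : Z2)) ∉ T' := by
        intro i j h1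
        have h2 := h (i, j)
        rw [List.map_nil, fds_nil, add_assoc, ← lv_add, rI_mem h1] at h2
        exact one_ne_zero h2
      have e1 : u = r + (n : ℤ) • ((i, j) : Z2) := by
        ext
        · simp only [Prod.fst_add, Prod.smul_fst, smul_eq_mul]; omega
        · simp only [Prod.snd_add, Prod.smul_snd, smul_eq_mul]; omega
      have e2 : u + ((n : ℤ), 0) = r + (n : ℤ) • ((i + 1, j) : Z2) := by
        rw [e1]
        ext
        · simp only [Prod.fst_add, Prod.smul_fst, smul_eq_mul]; ring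
        · simp only [Prod.snd_add, Prod.smul_snd, smul_eq_mul]; ring
      constructor
      · intro h1
        rw [e1] at h1
        exact absurd h1 (hemp _ _)
      · intro h1
        rw [e2] at h1
        exact absurd h1 (hemp _ _)

/-! ## The retraction -/

/-- The points which are on no boundary of a translate by an element of `Γ`. -/
def gd (C : Set V) (Γ : AddSubgroup V) : Set V := {z | ∀ γ ∈ Γ, z - γ ∉ frontier C}

lemma gd_add {C : Set V} {Γ : AddSubgroup V} {z γ : V} (hγ : γ ∈ Γ) :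
    z + γ ∈ gd C Γ ↔ z ∈ gd C Γ := by
  constructor
  · intro h δ hδ hz
    refine h (γ + δ) (Γ.add_mem hγ hδ) ?_
    rwa [show z + γ - (γ + δ) = z - δ by abel]
  · intro h δ hδ hz
    refine h (δ - γ) (Γ.sub_mem hδ hγ) ?_
    rwa [show z - (δ - γ) = z + γ - δ by abel]

lemma gd_dense {C : Set V} (hC : IsClosed C) {Γ : AddSubgroup V} (hΓ : (Γ : Set V).Countable) :
    Dense (gd C Γ) := by
  have e : gd C Γ = ⋂ γ : Γ, {z : V | z - γ ∉ frontier C} := by
    ext z
    simp only [Set.mem_iInter, gd]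
    exact ⟨fun h γ => h γ γ.2, fun h γ hγ => h ⟨γ, hγ⟩⟩
  have hcount : Countable Γ := hΓ.to_subtype
  rw [e]
  apply dense_iInter_of_isOpen
  · intro γ
    have hc : Continuous (fun z : V => z - (γ : V)) := by fun_prop
    exact (isClosed_frontier.preimage hc).isOpen_compl
  · intro γ
    have h1 : interior (frontier C) = ∅ := interior_frontier hC
    have h2 : Dense (frontier C)ᶜ := by
      rw [← interior_eq_empty_iff_dense_compl]
      exact h1
    have h3 := h2.preimage (Homeomorph.subRight (γ : V)).isOpenMap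
    exact h3

/-- The retraction onto the good points. -/
lemma exists_retr {C : Set V} (hC : IsClosed C) {Γ : AddSubgroup V}
    (hΓ : (Γ : Set V).Countable) :
    ∃ g : V → V, (∀ z, g z ∈ gd C Γ) ∧ (∀ z, ‖g z - z‖ ≤ 1) ∧
      (∀ z, ∀ γ ∈ Γ, g (z + γ) = g z + γ) ∧ ∀ z ∈ gd C Γ, g z = z := by
  classical
  have hex : ∀ z : V, ∃ w ∈ gd C Γ, ‖w - z‖ ≤ 1 ∧ (z ∈ gd C Γ → w = z) := by
    intro z
    by_cases hz : z ∈ gd C Γ
    · exact ⟨z, hz, by simp, fun _ => rfl⟩
    · obtain ⟨w, hw, hwz⟩ := (gd_dense hC hΓ).exists_dist_lt z (ε := 1) one_pos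
      refine ⟨w, hw, ?_, fun h => absurd h hz⟩
      rw [dist_eq_norm, ← norm_neg, neg_sub] at hwz
      exact hwz.le
  choose g0 h1 h2 h3 using hex
  have hout : ∀ z : V, z - (QuotientAddGroup.mk (s := Γ) z).out ∈ Γ := by
    intro z
    have h4 : (QuotientAddGroup.mk (s := Γ) (QuotientAddGroup.mk (s := Γ) z).out) =
        QuotientAddGroup.mk (s := Γ) z := Quotient.out_eq' _
    rw [QuotientAddGroup.eq] at h4
    rw [sub_eq_neg_add]
    exact h4
  refine ⟨fun z => g0 (QuotientAddGroup.mk (s := Γ) z).out +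
    (z - (QuotientAddGroup.mk (s := Γ) z).out), ?_, ?_, ?_, ?_⟩
  · intro z
    exact (gd_add (hout z)).2 (h1 _)
  · intro z
    have := h2 (QuotientAddGroup.mk (s := Γ) z).out
    rwa [show g0 (QuotientAddGroup.mk (s := Γ) z).out +
      (z - (QuotientAddGroup.mk (s := Γ) z).out) - z =
      g0 (QuotientAddGroup.mk (s := Γ) z).out - (QuotientAddGroup.mk (s := Γ) z).out by abel]
  · intro z γ hγ
    have e : QuotientAddGroup.mk (s := Γ) (z + γ) = QuotientAddGroup.mk (s := Γ) z := by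
      rw [eq_comm, QuotientAddGroup.eq]
      rwa [show -z + (z + γ) = γ by abel]
    simp only [e]
    abel
  · intro z hz
    have h4 : (QuotientAddGroup.mk (s := Γ) z).out ∈ gd C Γ := by
      rw [← gd_add (hout z)]
      rwa [show (QuotientAddGroup.mk (s := Γ) z).out + (z - (QuotientAddGroup.mk (s := Γ) z).out)
        = z by abel]
    simp only
    rw [h3 _ h4]
    abel

/-! ## The theorem for bodies -/

/-- Conversion from tilings by the body to exact covers and back. -/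
theorem body_conv {C : Set V} (hC : IsCompact C) {a b : V} (hab : rdet a b ≠ 0) {X : Set V} (hX : X.Finite) :
    ∃ C' : Set V, (∃ r : ℝ, ∀ z ∈ C', ‖z‖ ≤ r) ∧ ∀ T : Set V, T ⊆ XL a b X →
      (((∀ z, ∃ t ∈ T, z - t ∈ C) ∧ ∀ t ∈ T, ∀ t' ∈ T, ∀ z, z - t ∈ interior C →
        z - t' ∈ interior C → t = t') ↔ ECov C' T) := by
  classical
  set Y : Set V := X ∪ {a, b} with hY
  have hfin : Y.Finite := hX.union (Set.toFinite _)
  have hYc : Countable Y := hfin.countable.to_subtype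
  set M : Submodule ℤ V := Submodule.span ℤ (Set.range (fun y : Y => (y : V))) with hM
  set Γ : AddSubgroup V := M.toAddSubgroup with hΓ
  have hcount : (Γ : Set V).Countable := by
    have h1 : Countable M := inferInstance
    have h2 : (M : Set V).Countable := Set.countable_coe_iff.1 h1
    exact h2
  have hmem : ∀ y ∈ Y, y ∈ Γ := by
    intro y hy
    have h1 : y ∈ M := Submodule.subset_span ⟨⟨y, hy⟩, rfl⟩
    exact h1
  have hXL : ∀ t ∈ XL a b X, t ∈ Γ := by
    rintro t ⟨x, hx, u, rfl⟩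
    have h1 : x ∈ Γ := hmem x (Or.inl hx)
    have h2 : a ∈ Γ := hmem a (Or.inr (by simp))
    have h3 : b ∈ Γ := hmem b (Or.inr (by simp))
    exact Γ.add_mem h1 (Γ.add_mem (Γ.zsmul_mem h2 _) (Γ.zsmul_mem h3 _))
  have hcl : IsClosed C := hC.isClosed
  obtain ⟨g, hg1, hg2, hg3, hg4⟩ := exists_retr hcl hcount
  obtain ⟨r, hr⟩ := hC.isBounded.exists_norm_le
  have hgs : ∀ z, ∀ t ∈ Γ, g (z - t) = g z - t := by
    intro z t ht
    have := hg3 z (-t) (Γ.neg_mem ht)
    rwa [← sub_eq_add_neg, ← sub_eq_add_neg] at this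
  have hint : ∀ z ∈ gd C Γ, ∀ t ∈ Γ, z - t ∈ C → z - t ∈ interior C := by
    intro z hz t ht h
    have h1 := hz t ht
    rw [hcl.frontier_eq, Set.mem_sdiff] at h1
    push Not at h1
    exact h1 h
  refine ⟨{z | g z ∈ C}, ⟨r + 1, ?_⟩, ?_⟩
  · intro z hz
    have h1 := hr _ hz
    have h2 := hg2 z
    calc ‖z‖ = ‖g z - (g z - z)‖ := by congr 1; abel
      _ ≤ ‖g z‖ + ‖g z - z‖ := norm_sub_le _ _
      _ ≤ r + 1 := add_le_add h1 h2
  · intro T hT
    constructor
    · rintro ⟨h1, h2⟩ z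
      obtain ⟨t, ht, hz⟩ := h1 (g z)
      have htΓ := hXL t (hT ht)
      refine ⟨t, ⟨ht, ?_⟩, ?_⟩
      · show g (z - t) ∈ C
        rw [hgs z t htΓ]
        exact hz
      · rintro t' ⟨ht', hz'⟩
        have htΓ' := hXL t' (hT ht')
        have hz2 : g (z - t') ∈ C := hz'
        rw [hgs z t' htΓ'] at hz2
        exact h2 t' ht' t ht (g z) (hint _ (hg1 z) t' htΓ' hz2) (hint _ (hg1 z) t htΓ hz)
    · intro h
      have hgood : ∀ z ∈ gd C Γ, ∃! t, t ∈ T ∧ z - t ∈ C := by
        intro z hz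
        obtain ⟨t, ⟨ht, hzt⟩, hu⟩ := h z
        have hz1 : g (z - t) ∈ C := hzt
        rw [hgs z t (hXL t (hT ht)), hg4 z hz] at hz1
        refine ⟨t, ⟨ht, hz1⟩, ?_⟩
        rintro t' ⟨ht', hz'⟩
        refine hu t' ⟨ht', ?_⟩
        show g (z - t') ∈ C
        rw [hgs z t' (hXL t' (hT ht')), hg4 z hz]
        exact hz'
      have hd := gd_dense hcl hcount
      refine ⟨?_, ?_⟩
      · intro z
        -- the tiles near z
        have hF : {t : V | t ∈ T ∧ ‖t‖ ≤ ‖z‖ + 1 + r}.Finite := by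
          refine (fin_ball a b hab X hX (‖z‖ + 1 + r)).subset ?_
          rintro t ⟨ht, hn⟩
          exact ⟨hn, hT ht⟩
        have hK : IsClosed (⋃ t ∈ {t : V | t ∈ T ∧ ‖t‖ ≤ ‖z‖ + 1 + r}, {w : V | w - t ∈ C}) := by
          refine hF.isClosed_biUnion fun t _ => ?_
          have hc : Continuous (fun w : V => w - t) := by fun_prop
          exact hcl.preimage hc
        have hz : z ∈ closure (gd C Γ ∩ Metric.ball z 1) := by
          have h3 := hd.open_subset_closure_inter (Metric.isOpen_ball (x := z) (ε := 1))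
          have h4 := h3 (Metric.mem_ball_self one_pos)
          rwa [Set.inter_comm] at h4
        have hsub : gd C Γ ∩ Metric.ball z 1 ⊆
            ⋃ t ∈ {t : V | t ∈ T ∧ ‖t‖ ≤ ‖z‖ + 1 + r}, {w : V | w - t ∈ C} := by
          rintro w ⟨hw, hwz⟩
          obtain ⟨t, ⟨ht, hwt⟩, -⟩ := hgood w hw
          simp only [Set.mem_iUnion, exists_prop]
          refine ⟨t, ⟨ht, ?_⟩, hwt⟩
          rw [Metric.mem_ball, dist_eq_norm] at hwz
          have h5 := hr _ hwt
          calc ‖t‖ = ‖z + (w - z) - (w - t)‖ := by congr 1; abel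
            _ ≤ ‖z + (w - z)‖ + ‖w - t‖ := norm_sub_le _ _
            _ ≤ ‖z‖ + ‖w - z‖ + ‖w - t‖ := by gcongr; exact norm_add_le _ _
            _ ≤ ‖z‖ + 1 + r := by gcongr
        have h6 := hK.closure_subset_iff.2 hsub hz
        simp only [Set.mem_iUnion, exists_prop] at h6
        obtain ⟨t, ⟨ht, -⟩, hzt⟩ := h6
        exact ⟨t, ht, hzt⟩
      · intro t ht t' ht' z hz hz'
        have hO : IsOpen ({w : V | w - t ∈ interior C} ∩ {w : V | w - t' ∈ interior C}) := by
          have hc : Continuous (fun w : V => w - t) := by fun_prop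
          have hc' : Continuous (fun w : V => w - t') := by fun_prop
          exact (isOpen_interior.preimage hc).inter (isOpen_interior.preimage hc')
        obtain ⟨w, ⟨hw1, hw2⟩, hw⟩ := hd.inter_open_nonempty _ hO ⟨z, hz, hz'⟩
        exact (hgood w hw).unique ⟨ht, interior_subset hw1⟩ ⟨ht', interior_subset hw2⟩

lemma interior_tr (C : Set V) (t : V) : interior (PSQ.tr C t) = PSQ.tr (interior C) t :=
  ((Homeomorph.addRight t).image_interior C).symm

lemma mem_ptr {C : Set V} {t z : V} : z ∈ PSQ.tr C t ↔ z - t ∈ C := by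
  unfold PSQ.tr
  constructor
  · rintro ⟨w, hw, rfl⟩
    rwa [add_sub_cancel_right]
  · intro h
    exact ⟨z - t, h, sub_add_cancel _ _⟩

lemma ptil_iff (C T : Set V) : PSQ.Tiling C T ↔ ((∀ z, ∃ t ∈ T, z - t ∈ C) ∧
    ∀ t ∈ T, ∀ t' ∈ T, ∀ z, z - t ∈ interior C → z - t' ∈ interior C → t = t') := by
  constructor
  · rintro ⟨h1, h2⟩
    refine ⟨?_, ?_⟩
    · intro z
      have h3 : z ∈ ⋃ t ∈ T, PSQ.tr C t := by rw [h2]; exact Set.mem_univ _
      simp only [Set.mem_iUnion, exists_prop] at h3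
      obtain ⟨t, ht, hz⟩ := h3
      exact ⟨t, ht, mem_ptr.1 hz⟩
    · intro t ht t' ht' z hz hz'
      by_contra hne
      have h3 := h1 t ht t' ht' hne
      rw [interior_tr, interior_tr, Set.disjoint_left] at h3
      exact h3 (mem_ptr.2 hz) (mem_ptr.2 hz')
  · rintro ⟨h1, h2⟩
    refine ⟨?_, ?_⟩
    · intro s hs t ht hne
      rw [interior_tr, interior_tr, Set.disjoint_left]
      intro z hz hz'
      exact hne (h2 s hs t ht z (mem_ptr.1 hz) (mem_ptr.1 hz'))
    · rw [Set.eq_univ_iff_forall]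
      intro z
      obtain ⟨t, ht, hz⟩ := h1 z
      simp only [Set.mem_iUnion, exists_prop]
      exact ⟨t, ht, mem_ptr.2 hz⟩

lemma per_ptr {p : V} {T : Set V} (h : ∀ z, z + p ∈ T ↔ z ∈ T) : PSQ.tr T p = T := by
  ext z
  rw [mem_ptr, ← h (z - p), sub_add_cancel]

/-- **Bodies with a tiling in finitely many translates of one lattice.** -/
theorem lat_body (hANN : T_ANN) {C : Set V} (hC : IsCompact C) {a b : V}
    (hab : LinearIndependent ℝ ![a, b]) (X : Finset V) {T : Set V} (hT : PSQ.Tiling C T)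
    (hTX : ∀ t ∈ T, ∃ x ∈ X, ∃ i j : ℤ, t = x + i • a + j • b) :
    ∃ T', PSQ.Tiling C T' ∧ (∀ t ∈ T', ∃ x ∈ X, ∃ i j : ℤ, t = x + i • a + j • b) ∧
      PSQ.Periodic T' := by
  have hab' := rdet_ne_of_li hab
  have hsub : T ⊆ XL a b (X : Set V) := by
    intro t ht
    obtain ⟨x, hx, i, j, rfl⟩ := hTX t ht
    exact ⟨x, hx, (i, j), by rw [add_assoc]; rfl⟩
  obtain ⟨C', hC', hconv⟩ := body_conv hC hab' X.finite_toSet
  have h1 : ECov C' T := (hconv T hsub).1 ((ptil_iff C T).1 hT)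
  obtain ⟨L, hL, hpw, hrel⟩ := hANN a b hab' X X.finite_toSet C' T hC' h1 hsub
  obtain ⟨T', N, hN, hsub', hc, hper⟩ := R3WS hab' X.finite_toSet hC' h1 hsub L hL hpw hrel
  refine ⟨T', (ptil_iff C T').2 ((hconv T' hsub').2 hc), ?_,
    lv a b ((N : ℤ) • ((1, 0) : Z2)), lv a b ((N : ℤ) • ((0, 1) : Z2)), ?_,
    per_ptr fun z => hper z _, per_ptr fun z => hper z _⟩
  · intro t ht
    obtain ⟨x, hx, u, rfl⟩ := hsub' ht
    exact ⟨x, hx, u.1, u.2, by rw [add_assoc]; rfl⟩
  · apply li_of_rdet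
    rw [rdet_lv]
    have e : GT.det ((N : ℤ) • ((1, 0) : Z2)) ((N : ℤ) • ((0, 1) : Z2)) = N * N := by
      simp [GT.det]
    rw [e]
    have hNr : (N : ℝ) ≠ 0 := by exact_mod_cast hN.ne'
    push_cast
    exact mul_ne_zero (mul_ne_zero hNr hNr) hab'

end Pool.Agent.PTL
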