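import Pool.Agent.PTR.Surg
import Pool.Agent.PTR.PerCase

/-!
# PTL: definitions

Means on the integers, sequences modulo 1, averages along one direction, stages.
-/

set_option autoImplicit false

namespace Pool.Agent.PTL

open Pool.Agent.PTR
open Pool.Agent.PTR.OL (V ii dif difs FLC InHull)

/-- Indicator function with real values. -/
noncomputable def rI {α : Type} (T : Set α) (z : α) : ℝ := by
  classical exact if z ∈ T then 1 else 0

lemma rI_mem {α : Type} {T : Set α} {z : α} (h : z ∈ T) : rI T z = 1 := by simp [rI, h]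

lemma rI_not {α : Type} {T : Set α} {z : α} (h : z ∉ T) : rI T z = 0 := by simp [rI, h]

lemma rI_nonneg {α : Type} (T : Set α) (z : α) : 0 ≤ rI T z := by
  unfold rI
  split_ifs <;> norm_num

lemma rI_le {α : Type} (T : Set α) (z : α) : rI T z ≤ 1 := by
  unfold rI
  split_ifs <;> norm_num

lemma rI_abs {α : Type} (T : Set α) (z : α) : |rI T z| ≤ 1 :=
  abs_le.2 ⟨by linarith [rI_nonneg T z], rI_le T z⟩

lemma rI_int {α : Type} (T : Set α) (z : α) : ∃ n : ℤ, rI T z = n := by
  by_cases h : z ∈ T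
  · exact ⟨1, by rw [rI_mem h]; norm_num⟩
  · exact ⟨0, by rw [rI_not h]; norm_num⟩

/-! ## Invariant means -/

/-- An invariant mean on the integers: a linear form on all functions which is positive and
shift-invariant on the bounded functions. -/
structure IM where
  E : (ℤ → ℝ) →ₗ[ℝ] ℝ
  pos : ∀ f : ℤ → ℝ, (∀ s, 0 ≤ f s) → (∃ C : ℝ, ∀ s, f s ≤ C) → 0 ≤ E f
  one : E (fun _ => 1) = 1
  shift : ∀ (f : ℤ → ℝ) (h : ℤ), (∃ C : ℝ, ∀ s, |f s| ≤ C) → E (fun s => f (s + h)) = E f

/-- Null sets of a mean. -/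
def IM.Null (m : IM) (S : Set ℤ) : Prop := m.E (rI S) = 0

/-! ## Sequences modulo 1 -/

/-- Difference with step `h`. -/
def Dl (h : ℤ) (g : ℤ → ℝ) : ℤ → ℝ := fun s => g (s + h) - g s

/-- The `K`-th difference is constant `θ` modulo 1. -/
def Ty (K : ℕ) (θ : ℝ) (g : ℤ → ℝ) : Prop := ∀ s, ∃ n : ℤ, (Dl 1)^[K] g s = θ + n

/-- Type I: modulo 1 a polynomial of positive degree with irrational leading coefficient. -/
def TI (g : ℤ → ℝ) : Prop := ∃ (K : ℕ) (θ : ℝ), Irrational θ ∧ Ty (K + 1) θ g

/-- Constant modulo 1. -/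
def CM (g : ℤ → ℝ) : Prop := ∀ s, ∃ n : ℤ, g s = g 0 + n

/-! ## Averages in the plane -/

/-- Average of `F` along `W`. -/
noncomputable def Av (m : IM) (W : V) (F : V → ℝ) (t : V) : ℝ := m.E (fun k => F (t + k • W))

/-- Forward difference. -/
def fd (w : V) (F : V → ℝ) : V → ℝ := fun z => F (z + w) - F z

/-- Products of forward differences. -/
def fds (L : List V) (F : V → ℝ) : V → ℝ := L.foldr fd F

lemma fds_nil (F : V → ℝ) : fds [] F = F := rfl

lemma fds_cons (w : V) (L : List V) (F : V → ℝ) : fds (w :: L) F = fd w (fds L F) := rfl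

/-- Stage with settled directions `P` and remaining directions `L`: for some `n > 0`, on every
class `t + n Λ` (`Λ` = lattice of `a`, `b`) the set `T` is periodic with the period `n w` for some
`w ∈ P`, or its indicator function is killed by the product of the differences of `n w`,
`w ∈ L`. -/
def StgN (a b : V) (n : ℕ) (P L : List Z2) (T : Set V) : Prop :=
  ∀ t : V,
    (∃ w ∈ P, ∀ u : Z2,
      (t + lv a b ((n : ℤ) • (u + w)) ∈ T ↔ t + lv a b ((n : ℤ) • u) ∈ T)) ∨
    ∀ u : Z2, fds (L.map fun w => lv a b ((n : ℤ) • w)) (rI T) (t + lv a b ((n : ℤ) • u)) = 0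

def Stg (a b : V) (P L : List Z2) (T : Set V) : Prop := ∃ n : ℕ, 0 < n ∧ StgN a b n P L T

/-- The sequence of the averages along `w` at the points `t + s v`. -/
noncomputable def gam (m : IM) (a b : V) (v w : Z2) (T : Set V) (t : V) (s : ℤ) : ℝ :=
  Av m (lv a b w) (rI T) (t + lv a b (s • v))

/-- `v` is good for `w` and the directions `Q`: an integer combination of `w` and `w'` for all
`w' ∈ Q`, and not parallel to `w`. -/
def Good (v w : Z2) (Q : List Z2) : Prop :=
  GT.det v w ≠ 0 ∧ ∀ w' ∈ Q, ∃ p q : ℤ, v = p • w + q • w'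

/-- `t` and `t'` have the same pattern (almost everywhere along `w`, for almost all `s`). -/
def Eqv (m : IM) (a b : V) (v w : Z2) (T : Set V) (t t' : V) : Prop :=
  m.Null {s | ¬ m.Null {k | ¬ (t + lv a b (s • v + k • w) ∈ T ↔ t' + lv a b (s • v + k • w) ∈ T)}}

/-- `t` and `t'` have opposite patterns. -/
def Opp (m : IM) (a b : V) (v w : Z2) (T : Set V) (t t' : V) : Prop :=
  m.Null {s | ¬ m.Null {k | (t + lv a b (s • v + k • w) ∈ T ↔ t' + lv a b (s • v + k • w) ∈ T)}}

/-- limit of the translates `T - l W` along an ultrafilter -/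
def LimW (U : Ultrafilter ℤ) (W : V) (T : Set V) : Set V :=
  {t | ∀ᶠ l in (U : Filter ℤ), t + l • W ∈ T}

/-- `U` contains all sets of full measure. -/
def Full (m : IM) (U : Ultrafilter ℤ) : Prop := ∀ S : Set ℤ, m.Null S → Sᶜ ∈ U

end Pool.Agent.PTL
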