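import Pool.Agent.PTL.Step
import Pool.Agent.PTR.FLCThm

/-!
# PTL: the lattice case with a relation, and tilings of finite local complexity
-/

set_option autoImplicit false

namespace Pool.Agent.PTL

open Pool.Agent.PTR
open Pool.Agent.PTR.OL (V ii dif difs FLC InHull)

lemma det_swap (u v : Z2) : GT.det u v = -GT.det v u := by simp only [GT.det]; ring

/-- Iteration of the step. -/
lemma stg_all (hSTEP : T_STEP) (a b : V) (hab : rdet a b ≠ 0) (X : Set V) (hX : X.Finite)
    (C : Set V) (hC : ∃ r : ℝ, ∀ z ∈ C, ‖z‖ ≤ r) (L : List Z2) :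
    ∀ (P : List Z2) (T : Set V), ECov C T → T ⊆ XL a b X → (∀ w ∈ P, w ≠ 0) → (∀ w ∈ L, w ≠ 0) →
      (P ++ L).Pairwise (fun w w' => GT.det w w' ≠ 0) → Stg a b P L T →
      ∃ (T' : Set V) (P' : List Z2), (∀ w ∈ P', w ≠ 0) ∧ ECov C T' ∧ T' ⊆ XL a b X ∧
        Stg a b P' [] T' := by
  induction L with
  | nil =>
    intro P T hT hsub hP _ _ hS
    exact ⟨T, P, hP, hT, hsub, hS⟩
  | cons w L ih =>
    intro P T hT hsub hP hL hpw hS
    have hw : w ≠ 0 := hL w List.mem_cons_self
    rw [List.pairwise_append] at hpw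
    obtain ⟨p1, p2, p3⟩ := hpw
    rw [List.pairwise_cons] at p2
    have hdet : ∀ w' ∈ P ++ L, GT.det w w' ≠ 0 := by
      intro w' hw'
      rcases List.mem_append.1 hw' with h | h
      · rw [det_swap]
        exact neg_ne_zero.2 (p3 w' h w List.mem_cons_self)
      · exact p2.1 w' h
    obtain ⟨T', hT', hsub', hS'⟩ := hSTEP a b hab X hX C T hC hT hsub P L w hw hdet hS
    refine ih (w :: P) T' hT' hsub' ?_ (fun w' hw' => hL w' (List.mem_cons_of_mem _ hw')) ?_ hS'
    · intro w' hw'
      rcases List.mem_cons.1 hw' with rfl | h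
      · exact hw
      · exact hP w' h
    · rw [List.cons_append, List.pairwise_cons]
      refine ⟨hdet, ?_⟩
      rw [List.pairwise_append]
      exact ⟨p1, p2.2, fun x hx y hy => p3 x hx y (List.mem_cons_of_mem _ hy)⟩

/-- All periods in a multiple of a lattice: doubly periodic. -/
lemma dp_of_lat {C T' : Set V} (hc : ECov C T') {a b : V} (hab : rdet a b ≠ 0) {N : ℕ}
    (hN : 0 < N) (hper : ∀ (z : V) (w : Z2), z + lv a b ((N : ℤ) • w) ∈ T' ↔ z ∈ T') : DP C := by
  refine ⟨T', hc, lv a b ((N : ℤ) • ((1, 0) : Z2)), lv a b ((N : ℤ) • ((0, 1) : Z2)), ?_,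
    fun z => hper z _, fun z => hper z _⟩
  apply li_of_rdet
  rw [rdet_lv]
  have e : GT.det ((N : ℤ) • ((1, 0) : Z2)) ((N : ℤ) • ((0, 1) : Z2)) = N * N := by
    simp [GT.det]
  rw [e]
  have hNr : (N : ℝ) ≠ 0 := by exact_mod_cast hN.ne'
  push_cast
  exact mul_ne_zero (mul_ne_zero hNr hNr) hab

theorem R3W_of (hSTEP : T_STEP) : T_R3W := by
  intro a b hab X hX C T hC hT hsub L hL hpw hrel
  obtain ⟨T', P', hP', hT', hsub', n, hn, hS⟩ := stg_all hSTEP a b hab X hX C hC L [] T hT hsub
    (fun w hw => absurd hw (by simp)) hL (by simpa using hpw) ⟨1, one_pos, fun t => Or.inr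
      fun u => by simpa using hrel (t + lv a b u)⟩
  obtain ⟨T'', N, hN, _, hc, hper⟩ := surgery a b hab X hX C T' hC hT' hsub' n hn (by
    intro x hx r
    rcases hS (x + lv a b r) with ⟨w, hw, h⟩ | h
    · refine ⟨(n : ℤ) • w, ?_, ⟨w.1, by simp⟩, ⟨w.2, by simp⟩, ?_⟩
      · intro h0
        rcases smul_eq_zero.1 h0 with h1 | h1
        · exact absurd h1 (by exact_mod_cast hn.ne')
        · exact hP' w hw h1
      · rintro u ⟨i, hi⟩ ⟨j, hj⟩
        have hu : u = r + (n : ℤ) • ((i, j) : Z2) := by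
          ext
          · simp only [Prod.fst_add, Prod.smul_fst, smul_eq_mul]; omega
          · simp only [Prod.snd_add, Prod.smul_snd, smul_eq_mul]; omega
        have h1 := h (i, j)
        rw [add_assoc, add_assoc, ← lv_add, ← lv_add] at h1
        rw [hu, ← h1, smul_add, add_assoc r]
    · refine ⟨((n : ℤ), 0), ?_, ⟨1, by simp⟩, ⟨0, by simp⟩, ?_⟩
      · intro h0
        have := congrArg Prod.fst h0
        simp only [Prod.fst_zero] at this
        omega
      · rintro u ⟨i, hi⟩ ⟨j, hj⟩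
        have hemp : ∀ i j : ℤ, x + lv a b (r + (n : ℤ) • ((i, j) : Z2)) ∉ T' := by
          intro i j h1
          have h2 := h (i, j)
          rw [List.map_nil, fds_nil, add_assoc, ← lv_add, rI_mem h1] at h2
          exact one_ne_zero h2
        have e1 : u = r + (n : ℤ) • ((i, j) : Z2) := by
          ext
          · simp only [Prod.fst_add, Prod.smul_fst, smul_eq_mul]; omega
          · simp only [Prod.snd_add, Prod.smul_snd, smul_eq_mul]; omega
        have e2 : u + ((n : ℤ), 0) = r + (n : ℤ) • ((i + 1, j) : Z2) := by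
          rw [e1]
          ext
          · simp only [Prod.fst_add, Prod.smul_fst, smul_eq_mul]; ring
          · simp only [Prod.snd_add, Prod.smul_snd, smul_eq_mul]; ring
        constructor
        · intro h1
          rw [e1] at h1
          exact absurd h1 (hemp _ _)
        · intro h1
          rw [e2] at h1
          exact absurd h1 (hemp _ _))
  exact dp_of_lat hc hab hN hper

/-- The two kinds of differences. -/
lemma fds_difs (L : List V) (T : Set V) (z : V) : fds L (rI T) z = difs L (ii T) (z + L.sum) := by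
  induction L generalizing z with
  | nil =>
    simp only [fds_nil, OL.difs_nil, List.sum_nil, add_zero]
    by_cases h : z ∈ T
    · rw [rI_mem h, OL.ii_of_mem h, Int.cast_one]
    · rw [rI_not h, OL.ii_of_not h, Int.cast_zero]
  | cons w L ih =>
    simp only [fds_cons, OL.difs_cons, fd, dif, List.sum_cons]
    rw [ih, ih]
    push_cast
    rw [show z + w + L.sum = z + (w + L.sum) by abel,
      show z + (w + L.sum) - w = z + L.sum by abel]

theorem FLCR_of (hR3W : T_R3W) : T_FLCR := by
  intro C hC T hT hF L hL hrel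
  have hne : T.Nonempty := by
    obtain ⟨t, ⟨ht, _⟩, _⟩ := hT 0
    exact ⟨t, ht⟩
  obtain ⟨T1, hT1, _, h1⟩ := OL.one_lattice T hne hF L hL hrel
  have hc1 : ECov C T1 := ecov_hull hC hT hT1
  rcases h1 with ⟨p, hp, hper⟩ | ⟨a, b, hab, ⟨X, hX⟩, L', hL1, hL2, hL3, hL4⟩
  · obtain ⟨T', v, hv, hc, h3, h4⟩ := per_case C T1 hC hc1 (hF.hull hT1) p hp hper
    exact ⟨T', hc, p, v, li_of_rdet hv, h3, h4⟩
  · have hsub : T1 ⊆ XL a b (X : Set V) := by
      intro t ht
      obtain ⟨x, hx, m, n, e⟩ := hX t ht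
      exact ⟨x, hx, (m, n), e⟩
    have hsplit : ∀ M : List V, (∀ w ∈ M, ∃ m n : ℤ, w = m • a + n • b) →
        ∃ L'' : List Z2, M = L''.map (lv a b) := by
      intro M
      induction M with
      | nil => exact fun _ => ⟨[], rfl⟩
      | cons w M ih =>
        intro h
        obtain ⟨m, n, e⟩ := h w List.mem_cons_self
        obtain ⟨L'', e2⟩ := ih fun v hv => h v (List.mem_cons_of_mem _ hv)
        exact ⟨(m, n) :: L'', by rw [List.map_cons, ← e2, e]; rfl⟩
    obtain ⟨L'', rfl⟩ := hsplit L' hL1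
    refine hR3W a b (rdet_ne_of_li hab) X X.finite_toSet C T1 hC hc1 hsub L'' ?_ ?_ ?_
    · intro w hw h0
      exact hL2 (lv a b w) (List.mem_map_of_mem hw) (by rw [h0, lv_zero])
    · rw [List.pairwise_map] at hL3
      refine hL3.imp fun {w w'} h h0 => ?_
      have h1 := rdet_ne_of_li h
      rw [rdet_lv, h0] at h1
      exact h1 (by simp)
    · intro z
      rw [fds_difs, hL4]
      simp

end Pool.Agent.PTL
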