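import Pool.Agent.PTL.Targets

set_option autoImplicit false

/-!
# PTL: basic facts on means and null sets
-/

namespace Pool.Agent.PTL

open Filter Topology

lemma IM.const (m : IM) (c : ℝ) : m.E (fun _ => c) = c := by
  have h : (fun _ : ℤ => c) = c • (fun _ : ℤ => (1 : ℝ)) := by
    funext s
    simp
  rw [h, map_smul, m.one, smul_eq_mul, mul_one]

lemma IM.add (m : IM) (f g : ℤ → ℝ) : m.E (fun s => f s + g s) = m.E f + m.E g :=
  map_add m.E f g

lemma IM.sub (m : IM) (f g : ℤ → ℝ) : m.E (fun s => f s - g s) = m.E f - m.E g :=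
  map_sub m.E f g

lemma IM.neg (m : IM) (f : ℤ → ℝ) : m.E (fun s => - f s) = - m.E f :=
  map_neg m.E f

lemma IM.smul (m : IM) (c : ℝ) (f : ℤ → ℝ) : m.E (fun s => c * f s) = c * m.E f :=
  map_smul m.E c f

lemma IM.sum (m : IM) {ι : Type*} (F : Finset ι) (g : ι → ℤ → ℝ) :
    m.E (fun s => ∑ i ∈ F, g i s) = ∑ i ∈ F, m.E (g i) := by
  have : (fun s => ∑ i ∈ F, g i s) = ∑ i ∈ F, g i := by
    funext s
    rw [Finset.sum_apply]
  rw [this, map_sum]

lemma IM.mono (m : IM) {f g : ℤ → ℝ} (hfg : ∀ s, f s ≤ g s) (hf : ∃ C : ℝ, ∀ s, |f s| ≤ C)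
    (hg : ∃ C : ℝ, ∀ s, |g s| ≤ C) : m.E f ≤ m.E g := by
  obtain ⟨C, hC⟩ := hf
  obtain ⟨D, hD⟩ := hg
  have h := m.pos (fun s => g s - f s) (fun s => sub_nonneg.2 (hfg s)) ⟨D + C, fun s => by
    have h1 := (abs_le.1 (hC s)).1
    have h2 := (abs_le.1 (hD s)).2
    linarith⟩
  rw [m.sub] at h
  linarith

lemma IM.eabs (m : IM) {f : ℤ → ℝ} {C : ℝ} (hf : ∀ s, |f s| ≤ C) : |m.E f| ≤ C := by
  have h1 : m.E f ≤ m.E (fun _ => C) :=
    m.mono (fun s => (abs_le.1 (hf s)).2) ⟨C, hf⟩ ⟨|C|, fun _ => le_refl _⟩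
  have h2 : m.E (fun _ => -C) ≤ m.E f :=
    m.mono (fun s => (abs_le.1 (hf s)).1) ⟨|-C|, fun _ => le_refl _⟩ ⟨C, hf⟩
  rw [m.const] at h1 h2
  exact abs_le.2 ⟨h2, h1⟩

lemma rI_bdd {α : Type} (S : Set α) : ∃ C : ℝ, ∀ s, |rI S s| ≤ C := ⟨1, rI_abs S⟩

lemma IM.rI_nonneg (m : IM) (S : Set ℤ) : 0 ≤ m.E (rI S) :=
  m.pos _ (Pool.Agent.PTL.rI_nonneg S) ⟨1, rI_le S⟩

lemma IM.rI_le_one (m : IM) (S : Set ℤ) : m.E (rI S) ≤ 1 :=
  (abs_le.1 (m.eabs (rI_abs S))).2

/-- a nonnegative function with mean zero which is at least `c > 0` on `S` -/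
lemma IM.null_of_E (m : IM) {f : ℤ → ℝ} (h0 : ∀ s, 0 ≤ f s) (hb : ∃ C : ℝ, ∀ s, f s ≤ C)
    (hE : m.E f ≤ 0) {S : Set ℤ} {c : ℝ} (hc : 0 < c) (hS : ∀ s ∈ S, c ≤ f s) : m.Null S := by
  have h1 : m.E (fun s => c * rI S s) ≤ m.E f := by
    apply m.mono
    · intro s
      by_cases hs : s ∈ S
      · rw [rI_mem hs, mul_one]; exact hS s hs
      · rw [rI_not hs, mul_zero]; exact h0 s
    · refine ⟨c, fun s => ?_⟩
      rw [abs_mul, abs_of_pos hc]
      exact mul_le_of_le_one_right hc.le (rI_abs S s)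
    · obtain ⟨C, hC⟩ := hb
      exact ⟨C, fun s => by rw [abs_of_nonneg (h0 s)]; exact hC s⟩
  rw [m.smul] at h1
  have h2 := m.rI_nonneg S
  unfold IM.Null
  nlinarith

lemma IM.null_mono (m : IM) {S S' : Set ℤ} (h : S ⊆ S') (hS' : m.Null S') : m.Null S := by
  apply m.null_of_E (f := rI S') (Pool.Agent.PTL.rI_nonneg S') ⟨1, rI_le S'⟩
    (le_of_eq hS') one_pos
  intro s hs
  rw [rI_mem (h hs)]

lemma IM.null_empty (m : IM) : m.Null ∅ := by
  unfold IM.Null
  have : rI (∅ : Set ℤ) = fun _ => (0 : ℝ) := by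
    funext s
    exact rI_not (Set.notMem_empty s)
  rw [this, m.const]

lemma IM.not_null_univ (m : IM) : ¬ m.Null Set.univ := by
  unfold IM.Null
  have : rI (Set.univ : Set ℤ) = fun _ => (1 : ℝ) := by
    funext s
    exact rI_mem (Set.mem_univ s)
  rw [this, m.const]
  exact one_ne_zero

lemma IM.null_union (m : IM) {S S' : Set ℤ} (h : m.Null S) (h' : m.Null S') :
    m.Null (S ∪ S') := by
  apply m.null_of_E (f := fun s => rI S s + rI S' s)
    (fun s => add_nonneg (Pool.Agent.PTL.rI_nonneg S s) (Pool.Agent.PTL.rI_nonneg S' s))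
    ⟨2, fun s => by linarith [rI_le S s, rI_le S' s]⟩
    (by
      rw [m.add]
      unfold IM.Null at h h'
      rw [h, h', add_zero]) one_pos
  rintro s (hs | hs)
  · rw [rI_mem hs]; linarith [Pool.Agent.PTL.rI_nonneg S' s]
  · rw [rI_mem hs]; linarith [Pool.Agent.PTL.rI_nonneg S s]

lemma IM.null_biUnion (m : IM) {ι : Type*} (F : Finset ι) (S : ι → Set ℤ)
    (h : ∀ i ∈ F, m.Null (S i)) : m.Null {s | ∃ i ∈ F, s ∈ S i} := by
  classical
  induction F using Finset.induction_on with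
  | empty => exact m.null_mono (by rintro s ⟨i, hi, -⟩; simp at hi) m.null_empty
  | insert a F ha ih =>
    refine m.null_mono ?_ (m.null_union (h a (Finset.mem_insert_self a F))
      (ih fun i hi => h i (Finset.mem_insert_of_mem hi)))
    rintro s ⟨i, hi, hs⟩
    rcases Finset.mem_insert.1 hi with rfl | hi
    · exact Or.inl hs
    · exact Or.inr ⟨i, hi, hs⟩

lemma IM.null_shift (m : IM) {S : Set ℤ} (h : m.Null S) (k : ℤ) : m.Null {s | s + k ∈ S} := by
  unfold IM.Null at *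
  rw [← h, ← m.shift (rI S) k (rI_bdd S)]
  congr 1

lemma IM.null_shift_iff (m : IM) {S : Set ℤ} (k : ℤ) : m.Null {s | s + k ∈ S} ↔ m.Null S := by
  refine ⟨fun h => ?_, fun h => m.null_shift h k⟩
  have := m.null_shift h (-k)
  refine m.null_mono (fun s hs => ?_) this
  simpa using hs

lemma IM.compl_not_null (m : IM) {S : Set ℤ} (h : m.Null S) : ¬ m.Null Sᶜ := by
  intro h'
  apply m.not_null_univ
  rw [← Set.union_compl_self S]
  exact m.null_union h h'

/-- if two sets have null complements then they meet -/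
lemma IM.exists_mem (m : IM) {S : Set ℤ} (h : m.Null S) : ∃ s, s ∉ S := by
  by_contra hcon
  push Not at hcon
  exact m.not_null_univ (m.null_mono (fun s _ => hcon s) h)

lemma IM.E_congr (m : IM) {f g : ℤ → ℝ} (hf : ∃ C : ℝ, ∀ s, |f s| ≤ C)
    (hg : ∃ C : ℝ, ∀ s, |g s| ≤ C) (h : m.Null {s | f s ≠ g s}) : m.E f = m.E g := by
  obtain ⟨C, hC⟩ := hf
  obtain ⟨D, hD⟩ := hg
  have key : ∀ f g : ℤ → ℝ, ∀ C D : ℝ, (∀ s, |f s| ≤ C) → (∀ s, |g s| ≤ D) →
      m.Null {s | f s ≠ g s} → m.E f ≤ m.E g := by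
    intro f g C D hC hD h
    have h1 : m.E f ≤ m.E (fun s => g s + (C + D) * rI {s | f s ≠ g s} s) := by
      apply m.mono
      · intro s
        have h1 := (abs_le.1 (hC s)).2
        have h2 := (abs_le.1 (hD s)).1
        by_cases hs : f s = g s
        · have : s ∉ {s | f s ≠ g s} := fun h => h hs
          rw [rI_not this, hs]
          linarith
        · have : s ∈ {s | f s ≠ g s} := hs
          rw [rI_mem this]
          linarith
      · exact ⟨C, hC⟩
      · refine ⟨D + |C + D|, fun s => ?_⟩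
        refine (abs_add_le _ _).trans (add_le_add (hD s) ?_)
        rw [abs_mul]
        exact mul_le_of_le_one_right (abs_nonneg _) (rI_abs _ s)
    rw [m.add, m.smul] at h1
    unfold IM.Null at h
    rw [h] at h1
    linarith
  apply le_antisymm (key f g C D hC hD h)
  apply key g f D C hD hC
  refine m.null_mono ?_ h
  intro s hs h'
  exact hs h'.symm

/-- ULT. -/
theorem p_ULT : T_ULT := by
  intro m
  let F : Filter ℤ :=
    { sets := {S | m.Null Sᶜ}
      univ_sets := by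
        change m.Null (Set.univ)ᶜ
        rw [Set.compl_univ]
        exact m.null_empty
      sets_of_superset := by
        intro S S' h hS
        exact m.null_mono (Set.compl_subset_compl.2 hS) h
      inter_sets := by
        intro S S' h h'
        change m.Null (S ∩ S')ᶜ
        rw [Set.compl_inter]
        exact m.null_union h h' }
  have hF : F.NeBot := by
    refine ⟨fun h => ?_⟩
    have h1 : (∅ : Set ℤ) ∈ F := by rw [h]; trivial
    have h2 : m.Null (∅ : Set ℤ)ᶜ := h1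
    rw [Set.compl_empty] at h2
    exact m.not_null_univ h2
  refine ⟨Ultrafilter.of F, fun S hS => ?_⟩
  have h1 : Sᶜ ∈ F := by
    change m.Null Sᶜᶜ
    rw [compl_compl]
    exact hS
  exact Ultrafilter.of_le F h1

end Pool.Agent.PTL
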