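import Pool.Agent.PTL.FLCR

/-!
# PTL: ANN and R3

Every tiling inside finitely many translates of one lattice has a relation.
-/

set_option autoImplicit false

namespace Pool.Agent.PTL

open Pool.Agent.PTR
open Pool.Agent.PTR.OL (V ii dif difs FLC InHull)

/-- A family of rows over a domain with no column relation spans every unit vector up to a
nonzero factor. -/
lemma lin_span {R : Type} [CommRing R] [IsDomain R] {ι Z : Type} [Fintype ι] [DecidableEq ι]
    (F : Z → ι → R) (h : ∀ q : ι → R, (∀ z, ∑ x, q x * F z x = 0) → q = 0) (x : ι) :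
    ∃ (Q : R) (S : Finset Z) (c : Z → R), Q ≠ 0 ∧
      ∀ y, ∑ z ∈ S, c z * F z y = if y = x then Q else 0 := by
  classical
  set K := FractionRing R
  set φ : R →+* K := algebraMap R K with hφ
  have hφi : Function.Injective φ := IsFractionRing.injective R K
  set G : Z → ι → K := fun z y => φ (F z y) with hG
  have htop : Submodule.span K (Set.range G) = ⊤ := by
    by_contra hne
    obtain ⟨f, hf0, hf⟩ := Submodule.exists_le_ker_of_lt_top _ (lt_top_iff_ne_top.2 hne)
    obtain ⟨b, hb⟩ := IsLocalization.exist_integer_multiples_of_finite (nonZeroDivisors R)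
      (fun y : ι => f (Pi.single y 1))
    choose q hq using hb
    have hb0 : (b : R) ≠ 0 := nonZeroDivisors.coe_ne_zero b
    have h1 : q = 0 := by
      refine h q fun z => ?_
      apply hφi
      rw [map_sum, map_zero]
      have h2 : f (G z) = 0 := hf (Submodule.subset_span ⟨z, rfl⟩)
      have h3 : G z = ∑ y, (G z y) • (Pi.single y (1 : K) : ι → K) := by
        funext y
        simp [Finset.sum_apply, Pi.single_apply]
      rw [h3, map_sum] at h2
      have h4 : ∀ y, φ (q y * F z y) = φ (b : R) * f ((G z y) • (Pi.single y (1 : K) : ι → K)) := by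
        intro y
        rw [map_smul, smul_eq_mul, map_mul]
        have h5 : φ (q y) = φ (b : R) * f (Pi.single y 1) := by
          have := hq y
          rw [Algebra.smul_def] at this
          exact this
        rw [h5]
        simp only [hG]
        ring
      rw [Finset.sum_congr rfl fun y _ => h4 y, ← Finset.mul_sum, h2, mul_zero]
    apply hf0
    refine LinearMap.pi_ext' fun y => LinearMap.ext_ring ?_
    have h2 := hq y
    rw [h1, Pi.zero_apply, map_zero, Algebra.smul_def] at h2
    have h3 : algebraMap R K (b : R) ≠ 0 := fun h0 => hb0 (hφi (by rw [hφ, h0, map_zero]))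
    have h4 := (mul_eq_zero.1 h2.symm).resolve_left h3
    simpa using h4
  have hx : (Pi.single x (1 : K) : ι → K) ∈ Submodule.span K (Set.range G) := by
    rw [htop]; trivial
  obtain ⟨c, hc⟩ := Finsupp.mem_span_range_iff_exists_finsupp.1 hx
  obtain ⟨b, hb⟩ := IsLocalization.exist_integer_multiples_of_finset (nonZeroDivisors R)
    (c.support.image c)
  have hb' : ∀ z ∈ c.support, ∃ r : R, algebraMap R K r = (b : R) • c z := fun z hz =>
    hb _ (Finset.mem_image_of_mem _ hz)
  choose! r hr using hb'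
  refine ⟨b, c.support, r, nonZeroDivisors.coe_ne_zero b, fun y => ?_⟩
  apply hφi
  rw [map_sum]
  have h1 : ∀ z ∈ c.support, φ (r z * F z y) = φ (b : R) * (c z * G z y) := by
    intro z hz
    have h2 := hr z hz
    rw [Algebra.smul_def] at h2
    rw [map_mul]
    change algebraMap R K (r z) * _ = _
    rw [h2]
    simp only [hG, hφ]
    ring
  rw [Finset.sum_congr rfl h1, ← Finset.mul_sum]
  have h2 := congrFun hc y
  rw [Finsupp.sum, Finset.sum_apply] at h2
  simp only [Pi.smul_apply, smul_eq_mul] at h2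
  rw [h2, Pi.single_apply]
  by_cases h3 : y = x
  · simp [h3]
  · simp [h3]

/-- a slope which separates finitely many points -/
lemma ex_slope (S : Finset V) : ∃ s : ℝ, ∀ p ∈ S, ∀ q ∈ S, p.1 + s * p.2 = q.1 + s * q.2 → p = q := by
  classical
  obtain ⟨s, hs⟩ := Set.Infinite.exists_notMem_finset (s := Set.univ) Set.infinite_univ
    ((S ×ˢ S).image fun pq : V × V => -(pq.1.1 - pq.2.1) / (pq.1.2 - pq.2.2))
  refine ⟨s, fun p hp q hq h => ?_⟩
  by_cases h2 : p.2 = q.2
  · refine Prod.ext ?_ h2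
    rw [h2] at h
    linarith
  · exfalso
    apply hs.2
    refine Finset.mem_image.2 ⟨(p, q), Finset.mem_product.2 ⟨hp, hq⟩, ?_⟩
    have h3 : p.2 - q.2 ≠ 0 := sub_ne_zero.2 h2
    rw [div_eq_iff h3]
    linarith

/-- no zero divisors -/
lemma nzd {C : Set V} (hC : ∃ r : ℝ, ∀ z ∈ C, ‖z‖ ≤ r) (hne : C.Nonempty) {ι : Type} (I : Finset ι)
    (p : ι → V) (hp : ∀ i ∈ I, ∀ j ∈ I, p i = p j → i = j) (q : ι → ℤ) (hq : ∀ i ∈ I, q i ≠ 0)
    (h : ∀ z, ∑ i ∈ I, q i * ii C (z - p i) = 0) : I = ∅ := by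
  classical
  by_contra hI
  have hIne : I.Nonempty := Finset.nonempty_iff_ne_empty.2 hI
  obtain ⟨s, hs⟩ := ex_slope (I.image p)
  set l : V → ℝ := fun z => z.1 + s * z.2 with hl
  obtain ⟨i₀, hi₀, hmax⟩ := Finset.exists_max_image I (fun i => l (p i)) hIne
  have hlt : ∀ i ∈ I, i ≠ i₀ → l (p i) < l (p i₀) := by
    intro i hi hne
    refine lt_of_le_of_ne (hmax i hi) fun he => hne (hp i hi i₀ hi₀ ?_)
    exact hs _ (Finset.mem_image_of_mem _ hi) _ (Finset.mem_image_of_mem _ hi₀) he
  obtain ⟨ε, hε, hgap⟩ : ∃ ε : ℝ, 0 < ε ∧ ∀ i ∈ I, i ≠ i₀ → l (p i) + ε ≤ l (p i₀) := by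
    by_cases h1 : (I.erase i₀).Nonempty
    · obtain ⟨i₁, hi₁, hmax₁⟩ := Finset.exists_max_image (I.erase i₀) (fun i => l (p i)) h1
      refine ⟨l (p i₀) - l (p i₁), ?_, fun i hi hne => ?_⟩
      · have := hlt i₁ (Finset.mem_of_mem_erase hi₁) (Finset.ne_of_mem_erase hi₁)
        linarith
      · have := hmax₁ i (Finset.mem_erase.2 ⟨hne, hi⟩)
        linarith
    · refine ⟨1, one_pos, fun i hi hne => absurd ⟨i, Finset.mem_erase.2 ⟨hne, hi⟩⟩ h1⟩
  have hbdd : BddAbove (l '' C) := by
    obtain ⟨r, hr⟩ := hC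
    refine ⟨r + |s| * r, ?_⟩
    rintro _ ⟨z, hz, rfl⟩
    have h1 := hr z hz
    have h2 : z.1 ≤ ‖z‖ := (le_abs_self _).trans (norm_fst_le z)
    have h3 : s * z.2 ≤ |s| * ‖z‖ := by
      refine (le_abs_self _).trans ?_
      rw [abs_mul]
      exact mul_le_mul_of_nonneg_left (norm_snd_le z) (abs_nonneg _)
    have h4 : |s| * ‖z‖ ≤ |s| * r := mul_le_mul_of_nonneg_left h1 (abs_nonneg _)
    simp only [hl]
    linarith
  obtain ⟨_, ⟨c, hc, rfl⟩, hcl⟩ := exists_lt_of_lt_csSup (hne.image l)
    (show sSup (l '' C) - ε < sSup (l '' C) by linarith)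
  have h1 := h (p i₀ + c)
  rw [Finset.sum_eq_single i₀] at h1
  · rw [add_sub_cancel_left, OL.ii_of_mem hc, mul_one] at h1
    exact hq i₀ hi₀ h1
  · intro i hi hne'
    rw [OL.ii_of_not, mul_zero]
    intro hmem
    have h2 : l (p i₀ + c - p i) ≤ sSup (l '' C) := le_csSup hbdd ⟨_, hmem, rfl⟩
    have h3 : l (p i₀ + c - p i) = l (p i₀) + l c - l (p i) := by
      simp only [hl, Prod.fst_sub, Prod.fst_add, Prod.snd_sub, Prod.snd_add]
      ring
    have h4 := hgap i hi hne'
    linarith
  · intro h2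
    exact absurd hi₀ h2

/-- representatives of the classes modulo the lattice -/
lemma reps (a b : V) (X : Set V) (hX : X.Finite) : ∃ Y : Finset V, XL a b X ⊆ XL a b (Y : Set V) ∧
    ∀ x ∈ Y, ∀ y ∈ Y, ∀ u : Z2, y = x + lv a b u → y = x := by
  classical
  induction X, hX using Set.Finite.induction_on with
  | empty =>
    refine ⟨∅, ?_, by simp⟩
    rintro z ⟨x, hx, -⟩
    exact absurd hx (by simp)
  | @insert x X _ _ ih =>
    obtain ⟨Y, hY, hYd⟩ := ih
    by_cases hx : x ∈ XL a b (Y : Set V)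
    · refine ⟨Y, ?_, hYd⟩
      rintro z ⟨x', hx', u, rfl⟩
      rcases Set.mem_insert_iff.1 hx' with rfl | h
      · exact (XL_add a b _ _ _).2 hx
      · exact hY ⟨x', h, u, rfl⟩
    · refine ⟨insert x Y, ?_, ?_⟩
      · rintro z ⟨x', hx', u, rfl⟩
        rcases Set.mem_insert_iff.1 hx' with rfl | h
        · exact ⟨x', by simp, u, rfl⟩
        · obtain ⟨y, hy, w, hw⟩ := hY ⟨x', h, u, rfl⟩
          exact ⟨y, by simp [Finset.mem_coe.1 hy], w, hw⟩
      · intro y hy y' hy' u hu
        rcases Finset.mem_insert.1 hy with rfl | h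
        · rcases Finset.mem_insert.1 hy' with rfl | h'
          · rfl
          · exfalso
            apply hx
            refine ⟨y', h', -u, ?_⟩
            rw [hu, lv_neg, add_neg_cancel_right]
        · rcases Finset.mem_insert.1 hy' with rfl | h'
          · exact absurd ⟨y, h, u, hu⟩ hx
          · exact hYd y h y' h' u hu

/-- lv is injective -/
lemma lv_inj {a b : V} (hab : rdet a b ≠ 0) {u v : Z2} (h : lv a b u = lv a b v) : u = v := by
  have h1 : lv a b (u - v) = 0 := by rw [lv_sub, h, sub_self]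
  have h2 : rdet (lv a b (u - v)) b = ((u - v).1 : ℝ) * rdet a b := by
    simp only [rdet, lv, Prod.fst_add, Prod.snd_add, zs1, zs2]
    ring
  have h3 : rdet a (lv a b (u - v)) = ((u - v).2 : ℝ) * rdet a b := by
    simp only [rdet, lv, Prod.fst_add, Prod.snd_add, zs1, zs2]
    ring
  rw [h1] at h2 h3
  have h4 : rdet 0 b = 0 := by simp [rdet]
  have h5 : rdet a 0 = 0 := by simp [rdet]
  rw [h4] at h2
  rw [h5] at h3
  have h6 := (mul_eq_zero.1 h2.symm).resolve_right hab
  have h7 := (mul_eq_zero.1 h3.symm).resolve_right hab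
  have h8 : (u - v).1 = 0 := by exact_mod_cast h6
  have h9 : (u - v).2 = 0 := by exact_mod_cast h7
  exact sub_eq_zero.1 (Prod.ext h8 h9)


/-! ## The group ring -/

/-- translations as a representation -/
noncomputable def zrep : Multiplicative Z2 →* Module.End ℤ (Z2 → ℤ) where
  toFun v := LinearMap.funLeft ℤ ℤ (fun l => l + Multiplicative.toAdd v)
  map_one' := by
    refine LinearMap.ext fun t => funext fun z => ?_
    simp [LinearMap.funLeft_apply]
  map_mul' v w := by
    refine LinearMap.ext fun t => funext fun z => ?_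
    simp only [LinearMap.funLeft_apply, toAdd_mul, Module.End.mul_apply]
    congr 1
    abel

/-- The action of the group ring on the functions on `ℤ²`. -/
noncomputable def act : AddMonoidAlgebra ℤ Z2 →ₐ[ℤ] Module.End ℤ (Z2 → ℤ) :=
  AddMonoidAlgebra.lift ℤ (Module.End ℤ (Z2 → ℤ)) Z2 zrep

lemma act_single (u : Z2) (c : ℤ) (A : Z2 → ℤ) (l : Z2) :
    act (AddMonoidAlgebra.single u c) A l = c * A (l + u) := by
  unfold act
  rw [AddMonoidAlgebra.lift_single, LinearMap.smul_apply, Pi.smul_apply, smul_eq_mul]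
  rfl

lemma act_sum {ι : Type} (S : Finset ι) (f : ι → Z2) (c : ι → ℤ) (A : Z2 → ℤ) (l : Z2) :
    act (∑ i ∈ S, AddMonoidAlgebra.single (f i) (c i)) A l = ∑ i ∈ S, c i * A (l + f i) := by
  rw [map_sum, LinearMap.sum_apply, Finset.sum_apply]
  exact Finset.sum_congr rfl fun i _ => act_single _ _ _ _

lemma eq_sum_single (q : AddMonoidAlgebra ℤ Z2) :
    q = ∑ u ∈ q.coeff.support, AddMonoidAlgebra.single u (q.coeff u) := by
  apply AddMonoidAlgebra.coeff_injective
  rw [AddMonoidAlgebra.coeff_sum]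
  simp only [AddMonoidAlgebra.coeff_single]
  exact (Finsupp.sum_single q.coeff).symm

lemma act_eq (q : AddMonoidAlgebra ℤ Z2) (A : Z2 → ℤ) (l : Z2) :
    act q A l = ∑ u ∈ q.coeff.support, q.coeff u * A (l + u) := by
  conv_lhs => rw [eq_sum_single q]
  exact act_sum _ _ _ _ _

/-- the coefficient at 0 of a product with a sum of monomials -/
lemma coeff_mul_zero (q : AddMonoidAlgebra ℤ Z2) (N : Finset Z2) :
    (q * ∑ u ∈ N, AddMonoidAlgebra.single u (1 : ℤ)).coeff 0 =
      ∑ v ∈ q.coeff.support, q.coeff v * if -v ∈ N then 1 else 0 := by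
  classical
  conv_lhs => rw [eq_sum_single q]
  rw [Finset.sum_mul_sum, AddMonoidAlgebra.coeff_sum, Finsupp.finsetSum_apply]
  refine Finset.sum_congr rfl fun v _ => ?_
  rw [AddMonoidAlgebra.coeff_sum, Finsupp.finsetSum_apply]
  simp only [AddMonoidAlgebra.single_mul_single, AddMonoidAlgebra.coeff_single, mul_one]
  by_cases h : -v ∈ N
  · rw [Finset.sum_eq_single (-v)]
    · rw [if_pos h, add_neg_cancel, Finsupp.single_eq_same, mul_one]
    · intro u _ hu
      rw [Finsupp.single_apply, if_neg]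
      intro h0
      exact hu (eq_neg_of_add_eq_zero_right h0)
    · intro h'
      exact absurd h h'
  · rw [if_neg h, mul_zero]
    refine Finset.sum_eq_zero fun u hu => ?_
    rw [Finsupp.single_apply, if_neg]
    intro h0
    apply h
    rw [← eq_neg_of_add_eq_zero_right h0]
    exact hu

/-! ## The rows -/

lemma row_fin {a b : V} (hab : rdet a b ≠ 0) {C : Set V} (hC : ∃ r : ℝ, ∀ z ∈ C, ‖z‖ ≤ r) (y : V) :
    {u : Z2 | y - lv a b u ∈ C}.Finite := by
  obtain ⟨r, hr⟩ := hC
  have h := fin_ball a b hab {y} (Set.finite_singleton y) r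
  refine Set.Finite.of_finite_image (f := fun u : Z2 => y + lv a b (-u)) (h.subset ?_) ?_
  · rintro _ ⟨u, hu, rfl⟩
    refine ⟨?_, y, rfl, -u, rfl⟩
    have h1 := hr _ hu
    simp only [lv_neg]
    rwa [← sub_eq_add_neg]
  · intro u _ v _ huv
    have h1 : lv a b (-u) = lv a b (-v) := add_left_cancel huv
    exact neg_injective (lv_inj hab h1)

/-- The relation for one class. -/
lemma class_ann {a b : V} (hab : rdet a b ≠ 0) {C T : Set V} (hC : ∃ r : ℝ, ∀ z ∈ C, ‖z‖ ≤ r)
    (hT : ECov C T) (Y : Finset V) (hTY : T ⊆ XL a b (Y : Set V))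
    (hY : ∀ x ∈ Y, ∀ y ∈ Y, ∀ u : Z2, y = x + lv a b u → y = x) (x : V) (hx : x ∈ Y) :
    ∃ P : AddMonoidAlgebra ℤ Z2, P ≠ 0 ∧
      ∀ l, ∑ u ∈ P.coeff.support, P.coeff u * ii T (x + lv a b (l + u)) = 0 := by
  classical
  have hCne : C.Nonempty := by
    obtain ⟨t, ⟨-, ht⟩, -⟩ := hT 0
    exact ⟨_, ht⟩
  set N : V → Finset Z2 := fun y => (row_fin hab hC y).toFinset with hN
  have hNm : ∀ y u, u ∈ N y ↔ y - lv a b u ∈ C := fun y u => by
    rw [hN, Set.Finite.mem_toFinset]; rfl
  set F : V → {x // x ∈ Y} → AddMonoidAlgebra ℤ Z2 := fun z x =>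
    ∑ u ∈ N (z - x.1), AddMonoidAlgebra.single u (1 : ℤ) with hF
  set A : {x // x ∈ Y} → Z2 → ℤ := fun x u => ii T (x.1 + lv a b u) with hA
  -- (i) columns
  have hcol : ∀ q : {x // x ∈ Y} → AddMonoidAlgebra ℤ Z2, (∀ z, ∑ x, q x * F z x = 0) → q = 0 := by
    intro q hq
    have h1 := nzd hC hCne (Finset.univ.sigma fun x : {x // x ∈ Y} => (q x).coeff.support)
      (fun i => i.1.1 - lv a b i.2)
      (by
        rintro ⟨x, v⟩ _ ⟨y, w⟩ _ h
        simp only at h
        have h2 : y.1 = x.1 + lv a b (w - v) := by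
          rw [lv_sub]
          have h3 : x.1 = y.1 - lv a b w + lv a b v := by rw [← h, sub_add_cancel]
          rw [h3]
          abel
        have h3 : y = x := Subtype.ext (hY x.1 x.2 y.1 y.2 _ h2)
        subst h3
        have h4 : lv a b v = lv a b w := sub_right_injective h
        rw [lv_inj hab h4])
      (fun i => (q i.1).coeff i.2)
      (by
        rintro ⟨x, v⟩ hi
        exact Finsupp.mem_support_iff.1 (Finset.mem_sigma.1 hi).2)
      (by
        intro z
        rw [Finset.sum_sigma]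
        have h2 := congrArg (fun f : AddMonoidAlgebra ℤ Z2 => f.coeff 0) (hq z)
        simp only [AddMonoidAlgebra.coeff_sum, Finsupp.finsetSum_apply,
          AddMonoidAlgebra.coeff_zero, Finsupp.zero_apply] at h2
        rw [← h2]
        refine Finset.sum_congr rfl fun x _ => ?_
        rw [hF, coeff_mul_zero]
        refine Finset.sum_congr rfl fun v _ => ?_
        congr 1
        have e : z - (x.1 - lv a b v) = z - x.1 - lv a b (-v) := by rw [lv_neg]; abel
        by_cases hc : z - x.1 - lv a b (-v) ∈ C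
        · rw [if_pos ((hNm _ _).2 hc), e, OL.ii_of_mem hc]
        · rw [if_neg (fun h' => hc ((hNm _ _).1 h')), e, OL.ii_of_not hc])
    funext x
    by_contra hne
    have h2 : (q x).coeff ≠ 0 := fun h => hne (AddMonoidAlgebra.coeff_eq_zero.1 h)
    obtain ⟨v, hv⟩ := Finsupp.support_nonempty_iff.2 h2
    have h3 : (⟨x, v⟩ : Σ _ : {x // x ∈ Y}, Z2) ∈
        Finset.univ.sigma fun x : {x // x ∈ Y} => (q x).coeff.support :=
      Finset.mem_sigma.2 ⟨Finset.mem_univ _, hv⟩
    rw [h1] at h3
    exact absurd h3 (Finset.notMem_empty _)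
  -- (ii) tiling equation
  have htil : ∀ z, ∑ x, act (F z x) (A x) = fun _ => 1 := by
    intro z
    funext l
    rw [Finset.sum_apply]
    have h1 : ∀ x : {x // x ∈ Y}, act (F z x) (A x) l = ∑ u ∈ N (z - x.1), A x (l + u) := by
      intro x
      rw [hF, act_sum]
      simp
    rw [Finset.sum_congr rfl fun x _ => h1 x, Finset.sum_sigma']
    obtain ⟨t₁, ⟨ht₁, ht₁C⟩, huniq⟩ := hT (z + lv a b l)
    obtain ⟨x₁, hx₁, w₁, hw₁⟩ := hTY ht₁
    have hx₁' : x₁ ∈ Y := Finset.mem_coe.1 hx₁
    have hmem : (⟨⟨x₁, hx₁'⟩, w₁ - l⟩ : Σ _ : {x // x ∈ Y}, Z2) ∈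
        Finset.univ.sigma fun x : {x // x ∈ Y} => N (z - x.1) := by
      refine Finset.mem_sigma.2 ⟨Finset.mem_univ _, (hNm _ _).2 ?_⟩
      rw [hw₁] at ht₁C
      rw [lv_sub]
      convert ht₁C using 1
      abel
    rw [Finset.sum_eq_single_of_mem _ hmem]
    · simp only [hA]
      rw [add_sub_cancel, ← hw₁, OL.ii_of_mem ht₁]
    · rintro ⟨x, u⟩ hxu hne
      simp only [hA]
      refine OL.ii_of_not fun hmem' => hne ?_
      have h2 := (hNm _ _).1 (Finset.mem_sigma.1 hxu).2
      have h3 := huniq (x.1 + lv a b (l + u)) ⟨hmem', by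
        rw [lv_add]
        convert h2 using 1
        abel⟩
      rw [hw₁] at h3
      have h4 : x₁ = x.1 + lv a b (l + u - w₁) := by
        rw [lv_sub, ← add_sub_assoc, h3, add_sub_cancel_right]
      have h5 : x₁ = x.1 := hY x.1 x.2 x₁ hx₁' _ h4
      have h6 : x = ⟨x₁, hx₁'⟩ := Subtype.ext h5.symm
      subst h6
      have h7 : lv a b (l + u) = lv a b w₁ := add_left_cancel h3
      have h8 := lv_inj hab h7
      have h9 : u = w₁ - l := by rw [← h8]; abel
      rw [h9]
  -- (iii)
  obtain ⟨Q, S, c, hQ, hc⟩ := lin_span F hcol ⟨x, hx⟩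
  have hQA : act Q (A ⟨x, hx⟩) = ∑ z ∈ S, act (c z) (fun _ => 1) := by
    have h1 : act Q (A ⟨x, hx⟩) = ∑ y, act (if y = ⟨x, hx⟩ then Q else 0) (A y) := by
      rw [Finset.sum_eq_single (⟨x, hx⟩ : {x // x ∈ Y})]
      · rw [if_pos rfl]
      · intro y _ hy
        rw [if_neg hy, map_zero, LinearMap.zero_apply]
      · intro h
        exact absurd (Finset.mem_univ _) h
    rw [h1]
    have h2 : ∀ y, act (if y = ⟨x, hx⟩ then Q else 0) (A y) =
        ∑ z ∈ S, act (c z) (act (F z y) (A y)) := by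
      intro y
      rw [← hc y, map_sum, LinearMap.sum_apply]
      refine Finset.sum_congr rfl fun z _ => ?_
      rw [map_mul, Module.End.mul_apply]
    rw [Finset.sum_congr rfl fun y _ => h2 y, Finset.sum_comm]
    refine Finset.sum_congr rfl fun z _ => ?_
    rw [← map_sum, htil]
  have hconst : ∀ l, act Q (A ⟨x, hx⟩) l = act Q (A ⟨x, hx⟩) 0 := by
    intro l
    rw [hQA, Finset.sum_apply, Finset.sum_apply]
    refine Finset.sum_congr rfl fun z _ => ?_
    rw [act_eq, act_eq]
  set e : Z2 := (1, 0) with he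
  refine ⟨(AddMonoidAlgebra.single e 1 - AddMonoidAlgebra.single 0 1) * Q, ?_, ?_⟩
  · refine mul_ne_zero ?_ hQ
    intro h0
    have h1 := congrArg (fun f : AddMonoidAlgebra ℤ Z2 => f.coeff e) h0
    simp only [AddMonoidAlgebra.coeff_sub, AddMonoidAlgebra.coeff_single, Finsupp.sub_apply,
      Finsupp.single_eq_same, AddMonoidAlgebra.coeff_zero, Finsupp.zero_apply] at h1
    rw [Finsupp.single_apply, if_neg (by rw [he]; decide)] at h1
    norm_num at h1
  · intro l
    have h1 := act_eq ((AddMonoidAlgebra.single e 1 - AddMonoidAlgebra.single 0 1) * Q)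
      (A ⟨x, hx⟩) l
    simp only [hA] at h1
    rw [← h1, map_mul, Module.End.mul_apply, map_sub, LinearMap.sub_apply, Pi.sub_apply,
      act_single, act_single]
    have h2 := hconst (l + e)
    have h3 := hconst (l + 0)
    simp only [hA] at h2 h3
    rw [h2, h3]
    ring

/-! ## From the group ring to products of differences -/

lemma split_list {a b : V} (M : List V) (hM : ∀ w ∈ M, ∃ u : Z2, u ≠ 0 ∧ w = lv a b u) :
    ∃ L : List Z2, (∀ w ∈ L, w ≠ 0) ∧ M = L.map (lv a b) := by
  induction M with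
  | nil => exact ⟨[], by simp, rfl⟩
  | cons w M ih =>
    obtain ⟨u, hu, e⟩ := hM w List.mem_cons_self
    obtain ⟨L, hL, e2⟩ := ih fun v hv => hM v (List.mem_cons_of_mem _ hv)
    refine ⟨u :: L, ?_, by rw [List.map_cons, ← e2, e]⟩
    intro v hv
    rcases List.mem_cons.1 hv with rfl | h
    · exact hu
    · exact hL v h

lemma class_rel {a b : V} (hab : rdet a b ≠ 0) (T : Set V) (x : V) (P : AddMonoidAlgebra ℤ Z2)
    (hP : P ≠ 0) (h : ∀ l, ∑ u ∈ P.coeff.support, P.coeff u * ii T (x + lv a b (l + u)) = 0) :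
    ∃ L : List Z2, (∀ w ∈ L, w ≠ 0) ∧
      difs (L.map (lv a b)) (ii {t | t ∈ T ∧ ∃ u : Z2, t = x + lv a b u}) = 0 := by
  classical
  set T' : Set V := {t | t ∈ T ∧ ∃ u : Z2, t = x + lv a b u} with hT'
  set p : Z2 → V := fun u => -lv a b u with hp
  have hpi : ∀ u v, p u = p v → u = v := fun u v huv => lv_inj hab (neg_injective huv)
  set D : Finset V := P.coeff.support.image p with hD
  set c : V → ℤ := fun v => ∑ u ∈ P.coeff.support, if p u = v then P.coeff u else 0 with hc
  have hcp : ∀ u ∈ P.coeff.support, c (p u) = P.coeff u := by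
    intro u hu
    rw [hc]
    simp only
    rw [Finset.sum_eq_single u]
    · rw [if_pos rfl]
    · intro v _ hv
      rw [if_neg fun h' => hv (hpi _ _ h')]
    · intro h'
      exact absurd hu h'
  have hsum : ∀ z, ∑ v ∈ D, c v * ii T' (z - v) = 0 := by
    intro z
    rw [hD, Finset.sum_image fun u _ v _ huv => hpi u v huv,
      Finset.sum_congr rfl fun u hu => by rw [hcp u hu]]
    by_cases hz : ∃ l : Z2, z = x + lv a b l
    · obtain ⟨l, rfl⟩ := hz
      rw [← h l]
      refine Finset.sum_congr rfl fun u _ => ?_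
      congr 1
      refine OL.ii_congr ?_
      have e : x + lv a b l - p u = x + lv a b (l + u) := by
        rw [hp, lv_add]
        simp only
        abel
      rw [e, hT']
      exact ⟨fun h' => h'.1, fun h' => ⟨h', l + u, rfl⟩⟩
    · refine Finset.sum_eq_zero fun u _ => ?_
      rw [OL.ii_of_not, mul_zero]
      rintro ⟨-, w, hw⟩
      apply hz
      refine ⟨w - u, ?_⟩
      rw [lv_sub, ← add_sub_assoc, ← hw, hp]
      simp only
      abel
  obtain ⟨u₀, hu₀⟩ := Finsupp.support_nonempty_iff.2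
    (fun h0 => hP (AddMonoidAlgebra.coeff_eq_zero.1 h0) : P.coeff ≠ 0)
  have hv₀ : p u₀ ∈ D := Finset.mem_image_of_mem _ hu₀
  have h1 := OL.special D c (ii T') (OL.ii_bdd T') hsum hv₀ (by
    rw [hcp u₀ hu₀]
    exact Finsupp.mem_support_iff.1 hu₀)
  obtain ⟨L, hL, e⟩ := split_list (a := a) (b := b) ((D.erase (p u₀)).toList.map fun v =>
      ((∑ v ∈ D, |c v|).toNat.factorial) • (v - p u₀)) (by
    intro w hw
    obtain ⟨v, hv, rfl⟩ := List.mem_map.1 hw
    rw [Finset.mem_toList, Finset.mem_erase, hD, Finset.mem_image] at hv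
    obtain ⟨hne, u, hu, rfl⟩ := hv
    refine ⟨((∑ v ∈ D, |c v|).toNat.factorial : ℤ) • (u₀ - u), ?_, ?_⟩
    · intro h0
      rcases smul_eq_zero.1 h0 with h2 | h2
      · exact absurd h2 (by exact_mod_cast (Nat.factorial_ne_zero _))
      · exact hne (by rw [sub_eq_zero.1 h2])
    · rw [lv_zsmul, lv_sub, natCast_zsmul, hp]
      simp only
      congr 1
      abel)
  exact ⟨L, hL, by rw [← e]; exact h1⟩

lemma difs_append (L L' : List V) (u : V → ℤ) : difs (L ++ L') u = difs L (difs L' u) := by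
  induction L with
  | nil => rfl
  | cons w L ih => rw [List.cons_append, OL.difs_cons, ih, OL.difs_cons]

lemma difs_zero (L : List V) : difs L (0 : V → ℤ) = 0 := by
  induction L with
  | nil => rfl
  | cons w L ih =>
    rw [OL.difs_cons, ih]
    funext z
    simp [dif]

lemma difs_add (L : List V) (u v : V → ℤ) : difs L (u + v) = difs L u + difs L v := by
  induction L with
  | nil => rfl
  | cons w L ih =>
    rw [OL.difs_cons, ih, OL.difs_cons, OL.difs_cons]
    funext z
    simp only [dif, Pi.add_apply]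
    ring

/-- sum over the classes -/
lemma sum_rel {a b : V} (T : Set V) (Y : Finset V)
    (h : ∀ x ∈ Y, ∃ L : List Z2, (∀ w ∈ L, w ≠ 0) ∧
      difs (L.map (lv a b)) (ii {t | t ∈ T ∧ ∃ u : Z2, t = x + lv a b u}) = 0) :
    ∃ L : List Z2, (∀ w ∈ L, w ≠ 0) ∧ difs (L.map (lv a b))
      (∑ x ∈ Y, ii {t | t ∈ T ∧ ∃ u : Z2, t = x + lv a b u}) = 0 := by
  classical
  induction Y using Finset.induction_on with
  | empty => exact ⟨[], by simp, rfl⟩
  | insert x Y hx ih =>
    obtain ⟨L, hL, hL'⟩ := ih fun y hy => h y (Finset.mem_insert_of_mem hy)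
    obtain ⟨M, hM, hM'⟩ := h x (Finset.mem_insert_self _ _)
    refine ⟨L ++ M, ?_, ?_⟩
    · intro w hw
      rcases List.mem_append.1 hw with h | h
      · exact hL w h
      · exact hM w h
    · rw [Finset.sum_insert hx, List.map_append, difs_add, difs_append, hM', difs_zero, zero_add,
        OL.difs_perm List.perm_append_comm, difs_append, hL', difs_zero]

/-- Merging parallel directions. -/
lemma merge {a b : V} (f : V → ℤ) (hf : ∃ B, ∀ z, |f z| ≤ B) : ∀ (n : ℕ) (L : List Z2),
    L.length ≤ n → (∀ w ∈ L, w ≠ 0) → difs (L.map (lv a b)) f = 0 →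
    ∃ L' : List Z2, (∀ w ∈ L', w ≠ 0) ∧ L'.Pairwise (fun w w' => GT.det w w' ≠ 0) ∧
      difs (L'.map (lv a b)) f = 0 := by
  intro n
  induction n with
  | zero =>
    intro L hn hL h
    have : L = [] := List.length_eq_zero_iff.1 (by omega)
    subst this
    exact ⟨[], by simp, List.Pairwise.nil, h⟩
  | succ n ih =>
    intro L hn hL h
    by_cases hp : L.Pairwise (fun w w' => GT.det w w' ≠ 0)
    · exact ⟨L, hL, hp, h⟩
    · rw [List.pairwise_iff_forall_sublist] at hp
      push Not at hp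
      obtain ⟨w, w', hs, hdet⟩ := hp
      obtain ⟨M, hM⟩ := hs.exists_perm_append
      have hw : w ≠ 0 := hL w (hM.mem_iff.2 (by simp))
      have hw' : w' ≠ 0 := hL w' (hM.mem_iff.2 (by simp))
      obtain ⟨v, c, c', hv, e, e'⟩ : ∃ (v : Z2) (c c' : ℤ), v ≠ 0 ∧ v = c • w ∧ v = c' • w' := by
        by_cases h1 : w.1 = 0
        · have h2 : w.2 ≠ 0 := fun h2 => hw (Prod.ext h1 h2)
          have h3 : w'.1 = 0 := by
            simp only [GT.det, h1, zero_mul, zero_sub, neg_eq_zero] at hdet
            exact (mul_eq_zero.1 hdet).resolve_left h2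
          have h4 : w'.2 ≠ 0 := fun h4 => hw' (Prod.ext h3 h4)
          refine ⟨w'.2 • w, w'.2, w.2, ?_, rfl, ?_⟩
          · intro h0
            rcases smul_eq_zero.1 h0 with h5 | h5
            · exact h4 h5
            · exact hw h5
          · ext
            · simp [h1, h3]
            · simp [mul_comm]
        · have h3 : w'.1 ≠ 0 := by
            intro h3
            simp only [GT.det, h3, mul_zero, sub_zero] at hdet
            exact hw' (Prod.ext h3 ((mul_eq_zero.1 hdet).resolve_left h1))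
          refine ⟨w'.1 • w, w'.1, w.1, ?_, rfl, ?_⟩
          · intro h0
            rcases smul_eq_zero.1 h0 with h5 | h5
            · exact h3 h5
            · exact hw h5
          · simp only [GT.det] at hdet
            ext
            · simp [mul_comm]
            · simp only [Prod.smul_snd, smul_eq_mul]
              linarith
      -- replace w, w' by v
      have hM' : L.Perm (w :: w' :: M) := hM
      have h1 : difs ((w :: w' :: M).map (lv a b)) f = 0 := by
        rw [← OL.difs_perm (hM'.map (lv a b))]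
        exact h
      have h2 : difs (lv a b v :: (w' :: M).map (lv a b)) f = 0 := by
        rw [e, lv_zsmul]
        exact OL.difs_zsmul h1 c
      have h3 : difs (lv a b w' :: lv a b v :: M.map (lv a b)) f = 0 := by
        rw [OL.difs_perm (List.Perm.swap _ _ _)]
        exact h2
      have h4 : difs (lv a b v :: lv a b v :: M.map (lv a b)) f = 0 := by
        have := OL.difs_zsmul h3 c'
        rwa [← lv_zsmul, ← e'] at this
      have h5 : difs ((v :: M).map (lv a b)) f = 0 := by
        rw [OL.difs_cons, OL.difs_cons] at h4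
        exact OL.dif_sq (OL.difs_bdd _ hf) h4
      refine ih (v :: M) ?_ ?_ h5
      · have := hM.length_eq
        simp only [List.length_append, List.length_cons, List.length_nil] at this
        simp only [List.length_cons]
        omega
      · intro u hu
        rcases List.mem_cons.1 hu with rfl | h6
        · exact hv
        · exact hL u (hM.mem_iff.2 (by simp [h6]))

/-- ANN. -/
theorem p_ANN : T_ANN := by
  classical
  intro a b hab X hX C T hC hT hTX
  obtain ⟨Y, hXY, hY⟩ := reps a b X hX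
  have hTY : T ⊆ XL a b (Y : Set V) := hTX.trans hXY
  obtain ⟨L, hL, hL'⟩ := sum_rel (a := a) (b := b) T Y (fun x hx => by
    obtain ⟨P, hP, h⟩ := class_ann hab hC hT Y hTY hY x hx
    exact class_rel hab T x P hP h)
  have e : (∑ x ∈ Y, ii {t | t ∈ T ∧ ∃ u : Z2, t = x + lv a b u}) = ii T := by
    funext z
    rw [Finset.sum_apply]
    by_cases hz : z ∈ T
    · obtain ⟨x, hx, u, hu⟩ := hTY hz
      rw [OL.ii_of_mem hz, Finset.sum_eq_single_of_mem x (Finset.mem_coe.1 hx)]
      · exact OL.ii_of_mem ⟨hz, u, hu⟩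
      · intro y hy hne
        refine OL.ii_of_not ?_
        rintro ⟨-, w, hw⟩
        apply hne
        refine hY x (Finset.mem_coe.1 hx) y hy (u - w) ?_
        rw [lv_sub, ← add_sub_assoc, ← hu, hw, add_sub_cancel_right]
    · rw [OL.ii_of_not hz]
      refine Finset.sum_eq_zero fun x _ => OL.ii_of_not ?_
      rintro ⟨h, -⟩
      exact hz h
  rw [e] at hL'
  obtain ⟨L', h1, h2, h3⟩ := merge (ii T) ⟨1, OL.ii_bdd T⟩ L.length L le_rfl hL hL'
  refine ⟨L', h1, h2, fun z => ?_⟩
  rw [fds_difs, h3]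
  simp

/-- R3 from R3W. -/
theorem R3_of (hR3W : T_R3W) : T_R3 := by
  intro a b hab X hX C T hC hT hTX
  obtain ⟨L, h1, h2, h3⟩ := p_ANN a b hab X hX C T hC hT hTX
  exact hR3W a b hab X hX C T hC hT hTX L h1 h2 h3

end Pool.Agent.PTL
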