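import Pool.Agent.PTL.Targets

/-!
# PTL: CHV, FIN
-/

set_option autoImplicit false

namespace Pool.Agent.PTL

open Pool.Agent.PTR
open Pool.Agent.PTR.OL (V ii dif difs FLC InHull)

lemma det_smul_left (c : ℤ) (u v : Z2) : GT.det (c • u) v = c * GT.det u v := by
  simp only [GT.det, Prod.smul_fst, Prod.smul_snd, smul_eq_mul]
  ring

lemma det_smul_right (c : ℤ) (u v : Z2) : GT.det u (c • v) = c * GT.det u v := by
  simp only [GT.det, Prod.smul_fst, Prod.smul_snd, smul_eq_mul]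
  ring

/-- CHV. -/
theorem p_CHV : T_CHV := by
  intro w Q hw hQ
  obtain ⟨e, he⟩ : ∃ e : Z2, GT.det e w ≠ 0 := by
    by_cases h2 : w.2 = 0
    · refine ⟨(0, 1), ?_⟩
      have h1 : w.1 ≠ 0 := fun h1 => hw (Prod.ext h1 h2)
      simpa [GT.det] using h1
    · exact ⟨(1, 0), by simpa [GT.det] using h2⟩
  set D : ℤ := (Q.map (fun w' => GT.det w w')).prod with hD
  have hD0 : D ≠ 0 := by
    rw [hD, Ne, List.prod_eq_zero_iff]
    intro h
    obtain ⟨w', hw', h0⟩ := List.mem_map.1 h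
    exact hQ w' hw' h0
  refine ⟨D • e, ?_, ?_⟩
  · rw [det_smul_left]
    exact mul_ne_zero hD0 he
  · intro w' hw'
    obtain ⟨c, hc⟩ : GT.det w w' ∣ D := List.dvd_prod (List.mem_map.2 ⟨w', hw', rfl⟩)
    refine ⟨c * GT.det e w', c * GT.det w e, ?_⟩
    rw [hc, mul_comm, mul_smul, gt_cram, smul_add, ← mul_smul, ← mul_smul]

/-- FIN. -/
theorem p_FIN : T_FIN := by
  classical
  intro a b X hX v w hvw
  set d : ℤ := |GT.det v w| with hd
  have hd0 : 0 < d := abs_pos.2 hvw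
  obtain ⟨ε, hε⟩ : ∃ ε : ℤ, d = ε * GT.det v w := by
    rcases abs_choice (GT.det v w) with h | h
    · exact ⟨1, by rw [hd, h]; ring⟩
    · exact ⟨-1, by rw [hd, h]; ring⟩
  set R : Finset V := (hX.toFinset ×ˢ ((Finset.Ico 0 d) ×ˢ (Finset.Ico 0 d))).image
    (fun p => p.1 + lv a b p.2) with hR
  refine ⟨R, ?_, ?_⟩
  · intro z hz
    rw [hR, Finset.coe_image] at hz
    obtain ⟨p, hp, rfl⟩ := hz
    have hp' := Finset.mem_product.1 (Finset.mem_coe.1 hp)
    exact ⟨p.1, hX.mem_toFinset.1 hp'.1, p.2, rfl⟩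
  · rintro t ⟨x, hx, u, rfl⟩
    refine ⟨x + lv a b (u.1 % d, u.2 % d), ?_, ε * GT.det (u.1 / d, u.2 / d) w,
      ε * GT.det v (u.1 / d, u.2 / d), ?_⟩
    · rw [hR]
      refine Finset.mem_image.2 ⟨(x, (u.1 % d, u.2 % d)), ?_, rfl⟩
      simp only [Finset.mem_product, Finset.mem_Ico, Set.Finite.mem_toFinset]
      exact ⟨hx, ⟨Int.emod_nonneg _ hd0.ne', Int.emod_lt_of_pos _ hd0⟩,
        Int.emod_nonneg _ hd0.ne', Int.emod_lt_of_pos _ hd0⟩
    · have h1 : (ε * GT.det (u.1 / d, u.2 / d) w) • v + (ε * GT.det v (u.1 / d, u.2 / d)) • w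
          = d • ((u.1 / d, u.2 / d) : Z2) := by
        rw [mul_smul, mul_smul, ← smul_add, ← gt_cram, ← mul_smul, ← hε]
      have h2 : u = (u.1 % d, u.2 % d) + d • ((u.1 / d, u.2 / d) : Z2) := by
        ext
        · simp only [Prod.fst_add, Prod.smul_fst, smul_eq_mul]
          exact (Int.emod_add_mul_ediv u.1 d).symm
        · simp only [Prod.snd_add, Prod.smul_snd, smul_eq_mul]
          exact (Int.emod_add_mul_ediv u.2 d).symm
      rw [h1, add_assoc, ← lv_add, ← h2]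

end Pool.Agent.PTL
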