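import Pool.Agent.PTL.Targets

/-!
# PTL: limits along one direction
-/

set_option autoImplicit false

namespace Pool.Agent.PTL

open Pool.Agent.PTR
open Pool.Agent.PTR.OL (V ii dif difs FLC InHull)

/-- An ultrafilter which contains the union of finitely many sets contains one of them. -/
lemma uf_pick {ι : Type} (U : Ultrafilter ℤ) (N : Set ι) (hN : N.Finite) (P : ι → ℤ → Prop)
    (h : ∀ l : ℤ, ∃ t ∈ N, P t l) : ∃ t ∈ N, ∀ᶠ l in (U : Filter ℤ), P t l := by
  have h1 : (⋃ t ∈ N, {l | P t l}) ∈ U := by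
    have e : (⋃ t ∈ N, {l | P t l}) = Set.univ := by
      ext l
      obtain ⟨t, ht, hl⟩ := h l
      simp only [Set.mem_iUnion, Set.mem_univ, iff_true]
      exact ⟨t, ht, hl⟩
    rw [e]
    exact Filter.univ_mem
  rw [Ultrafilter.finite_biUnion_mem_iff hN] at h1
  obtain ⟨t, ht, h2⟩ := h1
  exact ⟨t, ht, h2⟩

theorem p_LIM : T_LIM := by
  intro U a b hab X hX w C T hC hT hsub
  obtain ⟨r, hr⟩ := hC
  refine ⟨?_, ?_⟩
  · intro z
    set N : Set V := {t | t ∈ XL a b X ∧ z - t ∈ C} with hN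
    have hNf : N.Finite := by
      refine (fin_ball a b hab X hX (‖z‖ + r)).subset ?_
      rintro t ⟨ht, htC⟩
      refine ⟨?_, ht⟩
      have h1 := hr _ htC
      calc ‖t‖ = ‖z - (z - t)‖ := by rw [sub_sub_cancel]
        _ ≤ ‖z‖ + ‖z - t‖ := norm_sub_le _ _
        _ ≤ ‖z‖ + r := by linarith
    obtain ⟨t, ht, hev⟩ := uf_pick U N hNf (fun t l => t + l • lv a b w ∈ T) (by
      intro l
      obtain ⟨s, ⟨hs, hsC⟩, _⟩ := hT (z + l • lv a b w)
      refine ⟨s - l • lv a b w, ⟨?_, ?_⟩, ?_⟩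
      · have h2 := (XL_add a b X s (-(l • w))).2 (hsub hs)
        rwa [lv_neg, lv_zsmul, ← sub_eq_add_neg] at h2
      · rwa [show z - (s - l • lv a b w) = z + l • lv a b w - s by abel]
      · simpa only [sub_add_cancel] using hs)
    refine ⟨t, ⟨hev, ht.2⟩, ?_⟩
    rintro t' ⟨ht', htC'⟩
    have hev' : ∀ᶠ l in (U : Filter ℤ), t' + l • lv a b w ∈ T := ht'
    obtain ⟨l, h1, h2⟩ := (hev'.and hev).exists
    have h3 := (hT (z + l • lv a b w)).unique
      ⟨h1, by rwa [show z + l • lv a b w - (t' + l • lv a b w) = z - t' by abel]⟩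
      ⟨h2, by
        have := ht.2
        rwa [show z + l • lv a b w - (t + l • lv a b w) = z - t by abel]⟩
    exact add_right_cancel h3
  · intro t ht
    have hev : ∀ᶠ l in (U : Filter ℤ), t + l • lv a b w ∈ T := ht
    obtain ⟨l, h1⟩ := hev.exists
    have h2 := hsub h1
    rw [← lv_zsmul] at h2
    exact (XL_add a b X t (l • w)).1 h2

/-- Eventually the finite combinations agree with those of the limit. -/
lemma fds_lim (U : Ultrafilter ℤ) (W : V) (T : Set V) (L : List V) : ∀ t : V,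
    ∀ᶠ l in (U : Filter ℤ), fds L (rI T) (t + l • W) = fds L (rI (LimW U W T)) t := by
  induction L with
  | nil =>
    intro t
    simp only [fds_nil]
    by_cases ht : t ∈ LimW U W T
    · have hev : ∀ᶠ l in (U : Filter ℤ), t + l • W ∈ T := ht
      filter_upwards [hev] with l hl
      rw [rI_mem hl, rI_mem ht]
    · have hev : ∀ᶠ l in (U : Filter ℤ), t + l • W ∉ T := Ultrafilter.eventually_not.2 ht
      filter_upwards [hev] with l hl
      rw [rI_not hl, rI_not ht]
  | cons w L ih =>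
    intro t
    filter_upwards [ih (t + w), ih t] with l h1 h2
    simp only [fds_cons, fd]
    rw [← h1, ← h2, show t + l • W + w = t + w + l • W by abel]

theorem p_LIF : T_LIF := by
  intro U W T L t c h
  obtain ⟨l, hl⟩ := (fds_lim U W T L t).exists
  rw [← hl, h l]

end Pool.Agent.PTL
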