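import Pool.Agent.PTL.Mean
import Pool.Agent.PTL.Seq

set_option autoImplicit false

/-!
# PTL: products of differences (RED, MUL), averages (AVB), integrality (INT)
-/

namespace Pool.Agent.PTL

open Pool.Agent.PTR
open Pool.Agent.PTR.OL (V)

lemma fd_comm (w w' : V) (F : V → ℝ) : fd w (fd w' F) = fd w' (fd w F) := by
  funext z
  simp only [fd]
  rw [add_right_comm z w w']
  ring

lemma fds_fd (w : V) (L : List V) (F : V → ℝ) : fds L (fd w F) = fd w (fds L F) := by
  induction L with
  | nil => rfl
  | cons a L ih => rw [fds_cons, fds_cons, ih, fd_comm]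

lemma fds_shift (L : List V) (F : V → ℝ) (c z : V) :
    fds L (fun z => F (z + c)) z = fds L F (z + c) := by
  induction L generalizing z with
  | nil => rfl
  | cons a L ih =>
    rw [fds_cons, fds_cons]
    simp only [fd]
    rw [ih, ih, add_right_comm]

lemma fds_sub (L : List V) (F G : V → ℝ) (z : V) :
    fds L (fun z => F z - G z) z = fds L F z - fds L G z := by
  induction L generalizing z with
  | nil => rfl
  | cons a L ih =>
    rw [fds_cons, fds_cons, fds_cons]
    simp only [fd]
    rw [ih, ih]
    ring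

lemma fds_int (L : List V) (F : V → ℝ) (hF : ∀ z, ∃ n : ℤ, F z = n) (z : V) :
    ∃ n : ℤ, fds L F z = n := by
  induction L generalizing z with
  | nil => exact hF z
  | cons a L ih =>
    obtain ⟨x, hx⟩ := ih (z + a)
    obtain ⟨y, hy⟩ := ih z
    refine ⟨x - y, ?_⟩
    rw [fds_cons]
    simp only [fd]
    rw [hx, hy]
    push_cast
    ring

lemma it_zero (K : ℕ) (s : ℤ) : (Dl 1)^[K] (fun _ => (0 : ℝ)) s = 0 := by
  induction K generalizing s with
  | zero => rfl
  | succ K ih => rw [it_succ, ih, ih, sub_zero]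

lemma inv_zsmul {α : V → ℝ} {W : V} (h : ∀ z, α (z + W) = α z) (k : ℤ) (z : V) :
    α (z + k • W) = α z := by
  induction k using Int.induction_on with
  | zero => rw [zero_smul, add_zero]
  | succ i ih => rw [add_smul, one_smul, ← add_assoc, h, ih]
  | pred i ih =>
    rw [← ih, ← h (z + (-(i : ℤ) - 1) • W), add_assoc, ← add_one_zsmul, sub_add_cancel]

/-- RED. -/
theorem p_RED : T_RED := by
  intro A a b n v w L
  induction L with
  | nil =>
    intro _ α t _ hcl u s
    have h1 := hcl (u + s • v)
    have e : lv a b ((n : ℤ) • (u + s • v)) = lv a b ((n : ℤ) • u) + lv a b (s • (n : ℤ) • v) := by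
      rw [smul_add, lv_add, smul_comm]
    rw [List.map_nil, fds_nil, e, ← add_assoc] at h1
    exact h1
  | cons w' L ih =>
    intro hL α t hinv hcl u s
    have hα1 : ∀ z, fd (lv a b ((n : ℤ) • w')) α (z + lv a b ((n : ℤ) • w)) =
        fd (lv a b ((n : ℤ) • w')) α z := by
      intro z
      simp only [fd]
      rw [add_right_comm, hinv, hinv]
    have hcl1 : ∀ u : Z2, fds (L.map fun w' => lv a b ((n : ℤ) • w'))
        (fd (lv a b ((n : ℤ) • w')) α) (t + lv a b ((n : ℤ) • u)) ∈ A := by
      intro u
      rw [fds_fd]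
      exact hcl u
    have hih := ih (fun w'' hw'' => hL w'' (List.mem_cons_of_mem _ hw''))
      (fd (lv a b ((n : ℤ) • w')) α) t hα1 hcl1
    obtain ⟨p, q, hpq⟩ := hL w' List.mem_cons_self
    rw [List.length_cons, Function.iterate_succ_apply]
    -- the first difference
    have e0 : Dl 1 (fun s => α (t + lv a b ((n : ℤ) • u) + lv a b (s • (n : ℤ) • v))) =
        fun s => α (t + lv a b ((n : ℤ) • (u + q • w')) + lv a b (s • (n : ℤ) • v)) -
          α (t + lv a b ((n : ℤ) • u) + lv a b (s • (n : ℤ) • v)) := by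
      funext s
      simp only [Dl]
      congr 1
      have e1 : t + lv a b ((n : ℤ) • u) + lv a b ((s + 1) • (n : ℤ) • v) =
          (t + lv a b ((n : ℤ) • (u + q • w')) + lv a b (s • (n : ℤ) • v)) +
            p • lv a b ((n : ℤ) • w) := by
        have e2 : (s + 1) • (n : ℤ) • v = s • (n : ℤ) • v + (n : ℤ) • (p • w) +
            (n : ℤ) • (q • w') := by
          rw [add_smul, one_smul, add_assoc, ← smul_add, ← hpq]
        rw [e2, lv_add, lv_add, smul_add (n : ℤ) u, lv_add, smul_comm (n : ℤ) p w, lv_zsmul a b p]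
        abel
      rw [e1, inv_zsmul hinv]
    rw [e0]
    -- steps
    have key : ∀ q : ℤ, ∀ u : Z2, (Dl 1)^[L.length] (fun s =>
        α (t + lv a b ((n : ℤ) • (u + q • w')) + lv a b (s • (n : ℤ) • v)) -
          α (t + lv a b ((n : ℤ) • u) + lv a b (s • (n : ℤ) • v))) s ∈ A := by
      have hstep : ∀ (q : ℤ) (u : Z2), (Dl 1)^[L.length] (fun s =>
          α (t + lv a b ((n : ℤ) • (u + (q + 1) • w')) + lv a b (s • (n : ℤ) • v)) -
          α (t + lv a b ((n : ℤ) • (u + q • w')) + lv a b (s • (n : ℤ) • v))) s ∈ A := by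
        intro q u
        have h1 := hih (u + q • w') s
        have e3 : (fun s : ℤ => fd (lv a b ((n : ℤ) • w')) α
            (t + lv a b ((n : ℤ) • (u + q • w')) + lv a b (s • (n : ℤ) • v))) = fun s =>
            α (t + lv a b ((n : ℤ) • (u + (q + 1) • w')) + lv a b (s • (n : ℤ) • v)) -
            α (t + lv a b ((n : ℤ) • (u + q • w')) + lv a b (s • (n : ℤ) • v)) := by
          funext s
          simp only [fd]
          congr 2
          rw [add_smul q 1 w', one_smul, ← add_assoc u, smul_add (n : ℤ) _ w', lv_add a b _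
            ((n : ℤ) • w')]
          abel
        rw [e3] at h1
        exact h1
      intro q
      induction q using Int.induction_on with
      | zero =>
        intro u
        simp only [zero_smul, add_zero, sub_self]
        rw [it_zero]
        exact A.zero_mem
      | succ i ihq =>
        intro u
        have h1 := A.add_mem (ihq u) (hstep i u)
        rw [← it_add] at h1
        have e4 : (fun s : ℤ =>
            α (t + lv a b ((n : ℤ) • (u + (i : ℤ) • w')) + lv a b (s • (n : ℤ) • v)) -
            α (t + lv a b ((n : ℤ) • u) + lv a b (s • (n : ℤ) • v)) +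
            (α (t + lv a b ((n : ℤ) • (u + ((i : ℤ) + 1) • w')) + lv a b (s • (n : ℤ) • v)) -
            α (t + lv a b ((n : ℤ) • (u + (i : ℤ) • w')) + lv a b (s • (n : ℤ) • v)))) =
            fun s => α (t + lv a b ((n : ℤ) • (u + ((i : ℤ) + 1) • w')) +
              lv a b (s • (n : ℤ) • v)) -
            α (t + lv a b ((n : ℤ) • u) + lv a b (s • (n : ℤ) • v)) := by
          funext s
          ring
        rw [e4] at h1
        exact h1
      | pred i ihq =>
        intro u
        have h1 := A.sub_mem (ihq u) (hstep (-(i : ℤ) - 1) u)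
        rw [← it_sub] at h1
        have e4 : (fun s : ℤ =>
            α (t + lv a b ((n : ℤ) • (u + (-(i : ℤ)) • w')) + lv a b (s • (n : ℤ) • v)) -
            α (t + lv a b ((n : ℤ) • u) + lv a b (s • (n : ℤ) • v)) -
            (α (t + lv a b ((n : ℤ) • (u + (-(i : ℤ) - 1 + 1) • w')) +
              lv a b (s • (n : ℤ) • v)) -
            α (t + lv a b ((n : ℤ) • (u + (-(i : ℤ) - 1) • w')) + lv a b (s • (n : ℤ) • v)))) =
            fun s => α (t + lv a b ((n : ℤ) • (u + (-(i : ℤ) - 1) • w')) +
              lv a b (s • (n : ℤ) • v)) -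
            α (t + lv a b ((n : ℤ) • u) + lv a b (s • (n : ℤ) • v)) := by
          funext s
          rw [sub_add_cancel]
          ring
        rw [e4] at h1
        exact h1
    exact key q u

/-- MUL. -/
theorem p_MUL : T_MUL := by
  intro A a b n c L
  induction L with
  | nil =>
    intro F t hcl u
    exact hcl u
  | cons w' L ih =>
    intro F t hcl
    have h1 := ih (fd (lv a b ((n : ℤ) • w')) F) t (fun u => by
      rw [fds_fd]
      exact hcl u)
    set G := fds (L.map fun w' => lv a b (((n * c : ℕ) : ℤ) • w')) F with hG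
    have h2 : ∀ u : Z2, G (t + lv a b ((n : ℤ) • (u + w'))) - G (t + lv a b ((n : ℤ) • u)) ∈ A := by
      intro u
      have h3 := h1 u
      rw [fds_fd] at h3
      simp only [fd] at h3
      rw [smul_add, lv_add, ← add_assoc]
      exact h3
    have h3 : ∀ (i : ℕ) (u : Z2),
        G (t + lv a b ((n : ℤ) • (u + (i : ℤ) • w'))) - G (t + lv a b ((n : ℤ) • u)) ∈ A := by
      intro i
      induction i with
      | zero =>
        intro u
        simp only [Nat.cast_zero, zero_smul, add_zero, sub_self]
        exact A.zero_mem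
      | succ i ihi =>
        intro u
        have h4 := A.add_mem (ihi u) (h2 (u + (i : ℤ) • w'))
        have e : u + (i : ℤ) • w' + w' = u + ((i + 1 : ℕ) : ℤ) • w' := by
          push_cast
          rw [add_smul, one_smul, add_assoc]
        rw [e] at h4
        have e2 : G (t + lv a b ((n : ℤ) • (u + (i : ℤ) • w'))) - G (t + lv a b ((n : ℤ) • u)) +
            (G (t + lv a b ((n : ℤ) • (u + ((i + 1 : ℕ) : ℤ) • w'))) -
              G (t + lv a b ((n : ℤ) • (u + (i : ℤ) • w')))) =
            G (t + lv a b ((n : ℤ) • (u + ((i + 1 : ℕ) : ℤ) • w'))) -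
              G (t + lv a b ((n : ℤ) • u)) := by ring
        rw [e2] at h4
        exact h4
    intro u
    rw [List.map_cons, fds_cons, ← hG]
    simp only [fd]
    have h5 := h3 c u
    have e : t + lv a b ((n : ℤ) • (u + (c : ℤ) • w')) =
        t + lv a b ((n : ℤ) • u) + lv a b (((n * c : ℕ) : ℤ) • w') := by
      rw [smul_add, lv_add, smul_smul, ← add_assoc]
      push_cast
      rfl
    rw [e] at h5
    exact h5

lemma Av_fd (m : IM) (W w : V) (F : V → ℝ) : Av m W (fd w F) = fd w (Av m W F) := by
  funext t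
  simp only [Av, fd]
  rw [m.sub]
  congr 2
  funext k
  rw [add_right_comm]

lemma rI_comp (T : Set V) (t W : V) :
    (fun k : ℤ => rI T (t + k • W)) = rI {k : ℤ | t + k • W ∈ T} := by
  funext k
  by_cases h : t + k • W ∈ T
  · rw [rI_mem h, rI_mem (show k ∈ {k : ℤ | t + k • W ∈ T} from h)]
  · rw [rI_not h, rI_not (show k ∉ {k : ℤ | t + k • W ∈ T} from h)]

lemma Av_rI (m : IM) (W : V) (T : Set V) (t : V) :
    Av m W (rI T) t = m.E (rI {k : ℤ | t + k • W ∈ T}) := by
  rw [← rI_comp]
  rfl

/-- AVB. -/
theorem p_AVB : T_AVB := by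
  intro m W
  refine ⟨?_, ?_, ?_, ?_, ?_, ?_⟩
  · intro L F
    induction L with
    | nil => rfl
    | cons w L ih => rw [fds_cons, fds_cons, Av_fd, ih]
  · intro F t k hF
    obtain ⟨C, hC⟩ := hF
    unfold Av
    rw [← m.shift (fun j : ℤ => F (t + j • W)) k ⟨C, fun s => hC _⟩]
    congr 1
    funext j
    rw [add_assoc, ← add_smul, add_comm k j]
  · intro F t h
    unfold Av
    simp only [h]
    exact m.const _
  · intro T t
    rw [Av_rI]
    exact ⟨m.rI_nonneg _, m.rI_le_one _⟩
  · intro T t
    rw [Av_rI]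
    exact Iff.rfl
  · intro T t
    rw [Av_rI]
    unfold IM.Null
    have e : rI {k : ℤ | t + k • W ∉ T} = fun k => 1 - rI {k : ℤ | t + k • W ∈ T} k := by
      funext k
      by_cases h : t + k • W ∈ T
      · rw [rI_mem (show k ∈ {k : ℤ | t + k • W ∈ T} from h),
          rI_not (show k ∉ {k : ℤ | t + k • W ∉ T} from fun h' => h' h), sub_self]
      · rw [rI_not (show k ∉ {k : ℤ | t + k • W ∈ T} from h),
          rI_mem (show k ∈ {k : ℤ | t + k • W ∉ T} from h), sub_zero]
    rw [e, m.sub, m.const]
    constructor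
    · intro h
      have h' : m.E (fun k => rI {k : ℤ | t + k • W ∈ T} k) = 1 := h
      rw [h', sub_self]
    · intro h
      have h' : (1 : ℝ) - m.E (rI {k : ℤ | t + k • W ∈ T}) = 0 := h
      linarith

end Pool.Agent.PTL
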