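import Pool.Agent.PTL.All
import Pool.Agent.PTL.P_ANN

/-!
# PTL: R3, unconditional
-/

set_option autoImplicit false

namespace Pool.Agent.PTL

/-- R3. A bounded set with an exact cover of the plane by translates, all translation vectors in
finitely many translates of one lattice, has a doubly periodic exact cover. -/
theorem p_R3 : T_R3 := R3_of p_R3W

end Pool.Agent.PTL
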