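import Pool.Agent.PTL.P_LIM
import Pool.Agent.PTL.P_RED
import Pool.Agent.PTL.Mean

/-!
# PTL: one step
-/

set_option autoImplicit false

namespace Pool.Agent.PTL

open Pool.Agent.PTR
open Pool.Agent.PTR.OL (V ii dif difs FLC InHull)

/-- Combinations with vectors in `n Λ` depend only on the values on the class. -/
lemma fds_cls (a b : V) (n : ℕ) (L : List Z2) (F G : V → ℝ) (t : V)
    (h : ∀ u : Z2, F (t + lv a b ((n : ℤ) • u)) = G (t + lv a b ((n : ℤ) • u))) (u : Z2) :
    fds (L.map fun w => lv a b ((n : ℤ) • w)) F (t + lv a b ((n : ℤ) • u)) =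
      fds (L.map fun w => lv a b ((n : ℤ) • w)) G (t + lv a b ((n : ℤ) • u)) := by
  induction L generalizing u with
  | nil => exact h u
  | cons w L ih =>
    simp only [List.map_cons, fds_cons, fd]
    rw [add_assoc, ← lv_add, ← smul_add, ih (u + w), ih u]

lemma fds_const_inv (L : List V) (c : ℝ) (z z' : V) :
    fds L (fun _ => c) z = fds L (fun _ => c) z' := by
  induction L generalizing z z' with
  | nil => rfl
  | cons w L ih =>
    simp only [fds_cons, fd]
    rw [ih (z + w) z, ih (z' + w) z', sub_self, sub_self]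

lemma fds_const (L : List V) (hL : L ≠ []) (c : ℝ) (z : V) : fds L (fun _ => c) z = 0 := by
  cases L with
  | nil => exact absurd rfl hL
  | cons w L =>
    simp only [fds_cons, fd]
    rw [fds_const_inv L c (z + w) z, sub_self]

lemma cls_eq (a b : V) (n c : ℕ) (t : V) (u w : Z2) (l : ℤ) :
    t + lv a b (((n * c : ℕ) : ℤ) • u) + l • lv a b ((n : ℤ) • w) =
      t + lv a b ((n : ℤ) • ((c : ℤ) • u + l • w)) := by
  rw [smul_add, lv_add, ← lv_zsmul, Nat.cast_mul, mul_smul, smul_comm l (n : ℤ) w, add_assoc]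

/-- Every multiple by the determinant is a combination. -/
lemma cls_cram (v w u : Z2) : ∃ i k : ℤ, (((GT.det v w).natAbs : ℕ) : ℤ) • u = i • v + k • w := by
  have h := GT.cram v w u
  rcases Int.natAbs_eq (GT.det v w) with h1 | h1
  · refine ⟨GT.det u w, GT.det v u, ?_⟩
    rw [← h1, h]
  · refine ⟨-GT.det u w, -GT.det v u, ?_⟩
    rw [neg_smul, neg_smul, ← neg_add, ← h, ← neg_smul]
    congr 1
    omega

/-- The average on a class of the finer lattice is one of the values of the sequence. -/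
lemma av_gam (hAVB : T_AVB) (m : IM) (a b : V) (n : ℕ) (v w : Z2) (T : Set V) (t : V) (u : Z2) :
    ∃ i : ℤ, Av m (lv a b ((n : ℤ) • w)) (rI T)
      (t + lv a b (((n * (GT.det v w).natAbs : ℕ) : ℤ) • u)) =
      gam m a b ((n : ℤ) • v) ((n : ℤ) • w) T t i := by
  obtain ⟨i, k, hik⟩ := cls_cram v w u
  refine ⟨i, ?_⟩
  have h := (hAVB m (lv a b ((n : ℤ) • w))).2.1 (rI T) (t + lv a b (i • (n : ℤ) • v)) k
    ⟨1, rI_abs T⟩
  rw [gam, ← h, Nat.cast_mul, mul_smul, hik, smul_add, lv_add, ← lv_zsmul, smul_comm (n : ℤ) i v,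
    smul_comm (n : ℤ) k w, ← add_assoc]

/-- A period on a class passes to the limit. -/
lemma settled (U : Ultrafilter ℤ) (a b : V) (n c : ℕ) (w w' : Z2) (T : Set V) (t : V)
    (h : ∀ u : Z2, (t + lv a b ((n : ℤ) • (u + w')) ∈ T ↔ t + lv a b ((n : ℤ) • u) ∈ T)) (u : Z2) :
    t + lv a b (((n * c : ℕ) : ℤ) • (u + w')) ∈ LimW U (lv a b ((n : ℤ) • w)) T ↔
      t + lv a b (((n * c : ℕ) : ℤ) • u) ∈ LimW U (lv a b ((n : ℤ) • w)) T := by
  refine Filter.eventually_congr (Filter.Eventually.of_forall fun l => ?_)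
  rw [cls_eq, cls_eq, show (c : ℤ) • (u + w') + l • w =
    (c : ℤ) • u + l • w + (c : ℤ) • w' by rw [smul_add]; abel]
  exact GT.iff_per (P := fun u => t + lv a b ((n : ℤ) • u) ∈ T) (h := w') h _ _

theorem STEP_of (hM : T_MEAN) (hU : T_ULT) (hTYP : T_TYP) (hNOTI : T_NOTI) (hMUL : T_MUL)
    (hAVB : T_AVB) : T_STEP := by
  rintro a b hab X hX C T hC hT hsub P L w hw hdet ⟨n, hn, hS⟩
  obtain ⟨m⟩ := hM
  obtain ⟨U, hFull⟩ := hU m
  obtain ⟨v, hgood, htyp⟩ := hTYP m a b X hX n P L w T hn hw hdet hS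
  have hcm := hNOTI m a b hab X hX n P L w v C T hn hS hgood hC hT hsub htyp
  obtain ⟨hlim, hlimsub⟩ := p_LIM U a b hab X hX ((n : ℤ) • w) C T hC hT hsub
  obtain ⟨A1, A2, A3, A4, A5, A6⟩ := hAVB m (lv a b ((n : ℤ) • w))
  set c : ℕ := (GT.det v w).natAbs with hc
  have hcpos : 0 < c := Int.natAbs_pos.2 hgood.1
  refine ⟨LimW U (lv a b ((n : ℤ) • w)) T, hlim, hlimsub, n * c, Nat.mul_pos hn hcpos, ?_⟩
  intro t
  by_cases htX : t ∈ XL a b X
  swap
  · left
    refine ⟨w, List.mem_cons_self, fun u => ?_⟩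
    constructor
    · intro h
      exact absurd ((XL_add a b X t _).1 (hlimsub h)) htX
    · intro h
      exact absurd ((XL_add a b X t _).1 (hlimsub h)) htX
  rcases hS t with ⟨w', hw', h⟩ | h
  · exact Or.inl ⟨w', List.mem_cons_of_mem _ hw', settled U a b n c w w' T t h⟩
  by_cases hL : L = []
  · left
    refine ⟨w, List.mem_cons_self, settled U a b n c w w T t fun u => ?_⟩
    have h1 := h u
    rw [hL] at h1
    simp only [List.map_cons, List.map_nil, fds_cons, fds_nil, fd] at h1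
    rw [add_assoc, ← lv_add, ← smul_add] at h1
    constructor
    · intro h2
      by_contra h3
      rw [rI_mem h2, rI_not h3] at h1
      norm_num at h1
    · intro h2
      by_contra h3
      rw [rI_mem h2, rI_not h3] at h1
      norm_num at h1
  -- values of the average
  have hval := fun u => av_gam hAVB m a b n v w T t u
  have hcmt := hcm t htX
  set g := gam m a b ((n : ℤ) • v) ((n : ℤ) • w) T t with hg
  have hg01 : ∀ s, 0 ≤ g s ∧ g s ≤ 1 := fun s => A4 T _
  by_cases hcase : g 0 = 0 ∨ g 0 = 1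
  · left
    refine ⟨w, List.mem_cons_self, fun u => ?_⟩
    have h01 : ∀ s, g s = 0 ∨ g s = 1 := by
      intro s
      obtain ⟨j, hj⟩ := hcmt s
      have h2 := hg01 s
      obtain ⟨k, hk⟩ : ∃ k : ℤ, g s = k := by
        rcases hcase with h0 | h0
        · exact ⟨j, by rw [hj, h0, zero_add]⟩
        · exact ⟨1 + j, by rw [hj, h0]; push_cast; ring⟩
      rw [hk] at h2 ⊢
      have h3 : (0 : ℤ) ≤ k := by exact_mod_cast h2.1
      have h4 : k ≤ 1 := by exact_mod_cast h2.2
      have h5 : k = 0 ∨ k = 1 := by omega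
      rcases h5 with h5 | h5 <;> simp [h5]
    have hmem : ∀ u : Z2, (t + lv a b (((n * c : ℕ) : ℤ) • u) ∈
        LimW U (lv a b ((n : ℤ) • w)) T ↔
        Av m (lv a b ((n : ℤ) • w)) (rI T) (t + lv a b (((n * c : ℕ) : ℤ) • u)) = 1) := by
      intro u
      obtain ⟨i, hi⟩ := hval u
      constructor
      · intro h2
        have h3 : ∀ᶠ l in (U : Filter ℤ), t + lv a b (((n * c : ℕ) : ℤ) • u) +
          l • lv a b ((n : ℤ) • w) ∈ T := h2
        rcases h01 i with h4 | h4
        · rw [← hi, A5] at h4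
          have h5 : ∀ᶠ l in (U : Filter ℤ), ¬ (t + lv a b (((n * c : ℕ) : ℤ) • u) +
            l • lv a b ((n : ℤ) • w) ∈ T) := hFull _ h4
          obtain ⟨l, h6, h7⟩ := (h3.and h5).exists
          exact absurd h6 h7
        · rw [hi, h4]
      · intro h2
        rw [A6] at h2
        have h5 : ∀ᶠ l in (U : Filter ℤ), ¬ ¬ (t + lv a b (((n * c : ℕ) : ℤ) • u) +
          l • lv a b ((n : ℤ) • w) ∈ T) := hFull _ h2
        have h6 : ∀ᶠ l in (U : Filter ℤ), t + lv a b (((n * c : ℕ) : ℤ) • u) +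
          l • lv a b ((n : ℤ) • w) ∈ T := by
          filter_upwards [h5] with l hl
          exact not_not.1 hl
        exact h6
    rw [hmem, hmem, smul_add, lv_add, ← add_assoc]
    have h6 : lv a b (((n * c : ℕ) : ℤ) • w) = (c : ℤ) • lv a b ((n : ℤ) • w) := by
      rw [← lv_zsmul, smul_smul, Nat.cast_mul, mul_comm]
    rw [h6, A2 _ _ _ ⟨1, rI_abs T⟩]
  · push Not at hcase
    have hconst : ∀ s, g s = g 0 := by
      intro s
      obtain ⟨j, hj⟩ := hcmt s
      have h1 := hg01 s
      have h2 := hg01 0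
      have h3 : 0 < g 0 := lt_of_le_of_ne h2.1 (Ne.symm hcase.1)
      have h4 : g 0 < 1 := lt_of_le_of_ne h2.2 hcase.2
      have h5 : (j : ℝ) < 1 := by linarith
      have h6 : (-1 : ℝ) < j := by linarith
      have h7 : j < 1 := by exact_mod_cast h5
      have h8 : -1 < j := by exact_mod_cast h6
      have h9 : j = 0 := by omega
      rw [hj, h9]
      simp
    right
    intro u
    set L' : List V := L.map fun w => lv a b (((n * c : ℕ) : ℤ) • w) with hL'
    have hL'ne : L' ≠ [] := by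
      rw [hL']
      intro h0
      exact hL (List.map_eq_nil_iff.1 h0)
    -- the combination is invariant along the class
    have hinv : ∀ u : Z2, fds L' (rI T) (t + lv a b ((n : ℤ) • (u + w))) =
        fds L' (rI T) (t + lv a b ((n : ℤ) • u)) := by
      intro u
      have h1 := hMUL ⊥ a b n c L (fd (lv a b ((n : ℤ) • w)) (rI T)) t (by
        intro u
        rw [AddSubgroup.mem_bot, fds_fd]
        have h2 := h u
        rwa [List.map_cons, fds_cons] at h2) u
      rw [AddSubgroup.mem_bot, fds_fd] at h1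
      simp only [fd] at h1
      rw [add_assoc, ← lv_add, ← smul_add] at h1
      exact sub_eq_zero.1 h1
    have hinv' : ∀ (u : Z2) (l : ℤ), fds L' (rI T) (t + lv a b (((n * c : ℕ) : ℤ) • u) +
        l • lv a b ((n : ℤ) • w)) = fds L' (rI T) (t + lv a b (((n * c : ℕ) : ℤ) • u)) := by
      intro u l
      have h1 := GT.per_zsmul (f := fun u : Z2 => fds L' (rI T) (t + lv a b ((n : ℤ) • u)))
        (h := w) hinv l ((c : ℤ) • u)
      have h2 := cls_eq a b n c t u w l
      have h3 := cls_eq a b n c t u w 0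
      rw [zero_smul, zero_smul, add_zero, add_zero] at h3
      rw [h2, h3]
      exact h1
    refine p_LIF U _ T L' _ 0 fun l => ?_
    rw [hinv']
    have h1 := A3 (fds L' (rI T)) (t + lv a b (((n * c : ℕ) : ℤ) • u)) (hinv' u)
    rw [← h1, A1]
    rw [fds_cls a b (n * c) L _ (fun _ => g 0) t (fun u => by
      obtain ⟨i, hi⟩ := hval u
      rw [hi, hconst])]
    exact fds_const L' hL'ne _ _

end Pool.Agent.PTL
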