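import Pool.Agent.PTL.Defs
import Pool.Agent.PTR.Targets

/-!
# PTL: targets

R3 and R5 of ideas row 2586 (MP_eac546_co): tilings with translation vectors in finitely many
translates of one lattice, and polygonal bodies with a tiling of finite local complexity.
-/

set_option autoImplicit false

namespace Pool.Agent.PTL

open Pool.Agent.PTR
open Pool.Agent.PTR.OL (V ii dif difs FLC InHull)

/-! ## Means -/

/-- MEAN. Existence. Limit along `hyperfilter ℕ` of `(1/(n+1)) ∑_{i<n+1} f i` on the submodule of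
bounded functions, extended to all functions by `LinearMap.exists_extend`. -/
def T_MEAN : Prop := Nonempty IM

/-- ULT. There is an ultrafilter which contains all sets of full measure (the complements of null
sets form a proper filter). -/
def T_ULT : Prop := ∀ m : IM, ∃ U : Ultrafilter ℤ, Full m U

/-! ## Sequences modulo 1 -/

/-- DIF. Differences. `(Dl 1)^[K] (Dl h g) = Dl h ((Dl 1)^[K] g)`, and `Dl h` of a sequence is a sum
of `|h|` shifts of `± Dl 1`. -/
def T_DIF : Prop := ∀ (K : ℕ) (θ : ℝ) (g : ℤ → ℝ) (h : ℤ), Ty (K + 1) θ g →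
  Ty K (h * θ) (Dl h g)

/-- REF. Refinement. Induction on `K`. `K = 0, 1`: `CM`. `K + 1` (`K ≥ 1`): `(Dl 1)^[K] g` is
constant `θ` modulo 1 (its `Dl 1` is integer valued). `θ` irrational: for every `q' > 0` and `r`
the sequence `g (q' s + r)` is `Ty K (q' ^ K * θ)`: `TI`, and `q = 1` works. `θ = a / q₀`: the
sequences `g (q₀ s + r)` have integer valued `K`-th differences; let `q_r` be given by the
induction hypothesis for `0 ≤ r < q₀`, and `q = q₀ ∏ q_r`. -/
def T_REF : Prop := ∀ (K : ℕ) (g : ℤ → ℝ), (∀ s, ∃ n : ℤ, (Dl 1)^[K] g s = n) →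
  ∃ q : ℕ, 0 < q ∧ ∀ q' : ℕ, 0 < q' → q ∣ q' → ∀ r : ℤ,
    CM (fun s => g (q' * s + r)) ∨ TI (fun s => g (q' * s + r))

/-- WEYL. Induction on `K` in `Ty (K + 1) θ g`. `K = 0`: `g (s + 1) = g s + θ + n`, so with
`x = E cos(2πg)`, `y = E sin(2πg)` (shift invariance) `x = x cos 2πθ - y sin 2πθ`,
`y = y cos 2πθ + x sin 2πθ`, and `(1 - cos 2πθ)^2 + sin^2 2πθ > 0` since `θ` is not an integer.
Step (van der Corput): for every `H > 0`,
`x^2 + y^2 = (E A)^2 + (E B)^2 ≤ E (A^2 + B^2)` with `A s = (1/H) ∑_{h<H} cos 2πg(s+h)`,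
`B s = (1/H) ∑_{h<H} sin 2πg(s+h)`, and `A^2 + B^2 = (1/H^2) ∑_{h,h'<H} cos 2π(g(s+h)-g(s+h'))`,
whose mean is `1/H` (the terms `h ≠ h'` have mean 0 by induction: DIF with step `h - h'`,
shift invariance). -/
def T_WEYL : Prop := ∀ (m : IM) (g : ℤ → ℝ), TI g →
  m.E (fun s => Real.cos (2 * Real.pi * g s)) = 0 ∧
  m.E (fun s => Real.sin (2 * Real.pi * g s)) = 0

/-- HALF. Put `b x = x^2 - x + 1/6`; for `x ∈ [0,1]`,
`b x = (1/π^2) ∑_{n ≥ 1} cos(2πnx)/n^2` (`hasSum_one_div_nat_pow_mul_cos`, `k = 1`), uniformly, so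
`E (b ∘ g) = 0` for every `TI` sequence with values in `[0,1]` (WEYL for `n g`, which is `TI`).
For `0 < h < 1` let `g' s = fract (g s + h)`, also `TI`. Then `b (g' s) - b (g s) ≤
h (2 g s - 1 + h)` (equality if `g s + h < 1`; otherwise the difference is
`2 (1 - g s) - 2 h ≤ 0`). Mean: `0 ≤ 2 E g - 1 + h` for all `h`. -/
def T_HALF : Prop := ∀ (m : IM) (g : ℤ → ℝ), TI g → (∀ s, 0 ≤ g s ∧ g s ≤ 1) →
  1 / 2 ≤ m.E g

/-- NUL. Let `g₀ s = fract (g s - c)`, `g₁ s = 1` if `g₀ s = 0` and `g₀ s` otherwise; `g₀` and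
`1 - g₁` are `TI` with values in `[0,1]`; HALF: `E g₀ ≥ 1/2`, `E g₁ ≤ 1/2`, and
`g₁ - g₀` is the indicator function of `{g₀ = 0}`. -/
def T_NUL : Prop := ∀ (m : IM) (g : ℤ → ℝ) (c : ℝ), TI g → m.Null {s | g s = c}

/-- NUL0. `Ty (K + 1) θ g` gives `Ty K (i * θ) (Dl i g)`. `K = 0`: `Dl i g` is never `0`, so the set
is everything. `K ≥ 1`: NUL for `Dl i g`, `c = 0`. -/
def T_NUL0 : Prop := ∀ (m : IM) (g : ℤ → ℝ) (i : ℤ), TI g → i ≠ 0 →
  ¬ m.Null {s | g (s + i) ≠ g s}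

/-- PAIR. All means of the `TI` terms are at least `1/2` and the total is `1`, so at most two terms
are `TI`. If only `i` is `TI` then `g i` is constant modulo 1 (1 minus the sum of the others):
then it takes at most two values (in `[0,1]`), contradiction to NUL. So exactly two, `i` and `j`,
and the other terms have mean `≤ 0`, so mean 0; such a term is `CM` with values in `[0,1]`: constant
(then 0) or with values in `{0,1}`. So `g i + g j` has values in `{0,1}`, and it is `0` only if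
`g i s = 0`: null set. -/
def T_PAIR : Prop := ∀ (m : IM) (ι : Type) (F : Finset ι) (g : ι → ℤ → ℝ),
  (∀ i ∈ F, ∀ s, 0 ≤ g i s) → (∀ s, ∑ i ∈ F, g i s = 1) → (∀ i ∈ F, CM (g i) ∨ TI (g i)) →
  ∀ i ∈ F, TI (g i) → ∃ j ∈ F, j ≠ i ∧ TI (g j) ∧ m.Null {s | g i s + g j s ≠ 1}

/-! ## Averages along one direction -/

/-- RED. Reduction of a product of differences to a power of one difference, for functions which
are invariant under `W = n w`. `Good v' w L`, `v' = p w + q w'`, so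
`fd (n v') α = ∑_{i<q} (fd (n w') α)(· + i n w')` (for `q < 0` similarly). Induction on `L`
generalizing `α`: `fds (w' :: L) α = fds L (fd w' α)`. `A` is an additive subgroup of the reals
(used for the integers and for `0`). -/
def T_RED : Prop := ∀ (A : AddSubgroup ℝ) (a b : V) (n : ℕ) (v w : Z2) (L : List Z2),
  (∀ w' ∈ L, ∃ p q : ℤ, v = p • w + q • w') → ∀ (α : V → ℝ) (t : V),
  (∀ z, α (z + lv a b ((n : ℤ) • w)) = α z) →
  (∀ u : Z2, fds (L.map fun w' => lv a b ((n : ℤ) • w')) α (t + lv a b ((n : ℤ) • u)) ∈ A) →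
  ∀ (u : Z2) (s : ℤ),
    (Dl 1)^[L.length] (fun s => α (t + lv a b ((n : ℤ) • u) + lv a b (s • (n : ℤ) • v))) s ∈ A

/-- MUL. Replacing the vectors by multiples:
`fd (c w) F = ∑_{i<c} (fd w F)(· + i w)`. -/
def T_MUL : Prop := ∀ (A : AddSubgroup ℝ) (a b : V) (n c : ℕ) (L : List Z2) (F : V → ℝ) (t : V),
  (∀ u : Z2, fds (L.map fun w' => lv a b ((n : ℤ) • w')) F (t + lv a b ((n : ℤ) • u)) ∈ A) →
  ∀ u : Z2, fds (L.map fun w' => lv a b (((n * c : ℕ) : ℤ) • w')) F
    (t + lv a b ((n : ℤ) • u)) ∈ A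

/-- AVB. Basic facts on averages. -/
def T_AVB : Prop := ∀ (m : IM) (W : V),
  (∀ (L : List V) (F : V → ℝ), Av m W (fds L F) = fds L (Av m W F)) ∧
  (∀ (F : V → ℝ) (t : V) (k : ℤ), (∃ C : ℝ, ∀ z, |F z| ≤ C) →
    Av m W F (t + k • W) = Av m W F t) ∧
  (∀ (F : V → ℝ) (t : V), (∀ k : ℤ, F (t + k • W) = F t) → Av m W F t = F t) ∧
  (∀ (T : Set V) (t : V), 0 ≤ Av m W (rI T) t ∧ Av m W (rI T) t ≤ 1) ∧
  (∀ (T : Set V) (t : V), Av m W (rI T) t = 0 ↔ m.Null {k | t + k • W ∈ T}) ∧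
  (∀ (T : Set V) (t : V), Av m W (rI T) t = 1 ↔ m.Null {k | t + k • W ∉ T})

/-- INT. Integrality. Let `α = Av m (lv (n w)) (rI T)`. If the class of `t` is settled by
`w' ∈ P` then `v = p w + q w'` and the period `n w'` and the invariance of `α` give
`α (z + n v) = α z` on the class, the first difference is 0. Otherwise `b = fds L_n (rI T)` is
invariant under `n w` on the class, so equal to `fds L_n α` there (AVB), and integer valued: RED
with `A` = integers, one more difference. -/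
def T_INT : Prop := ∀ (m : IM) (a b : V) (n : ℕ) (P L : List Z2) (w v : Z2) (T : Set V),
  StgN a b n P (w :: L) T → Good v w (P ++ L) → ∀ (t : V) (s : ℤ), ∃ j : ℤ,
    (Dl 1)^[L.length + 1] (gam m a b ((n : ℤ) • v) ((n : ℤ) • w) T t) s = j

/-- CHV. `v = D • e` with `D = ∏_{w' ∈ Q} det w w'` and `e` not parallel to `w`; Cramer
(`GT.cram`): `det w w' • e = det e w' • w + det w e • w'`. -/
def T_CHV : Prop := ∀ (w : Z2) (Q : List Z2), w ≠ 0 → (∀ w' ∈ Q, GT.det w w' ≠ 0) →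
  ∃ v, Good v w Q

/-- FIN. Finitely many classes modulo `ℤ v + ℤ w`. `|det v w| • u ∈ ℤ v + ℤ w` (Cramer). -/
def T_FIN : Prop := ∀ (a b : V) (X : Set V), X.Finite → ∀ v w : Z2, GT.det v w ≠ 0 →
  ∃ R : Finset V, (R : Set V) ⊆ XL a b X ∧ ∀ t ∈ XL a b X, ∃ r ∈ R, ∃ i k : ℤ,
    t = r + lv a b (i • v + k • w)

/-- TYP. A good `v` such that all sequences are `CM` or `TI`. CHV gives `v₀`, INT and REF give for
every representative `r ∈ R` (FIN for `n v₀`, `n w`) some `q_r`; `v = (∏ q_r) v₀`. For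
`t = r + i n v₀ + k n w` the sequence of `t` for `n v` is `s ↦ γ_r (q s + i)`. -/
def T_TYP : Prop := ∀ (m : IM) (a b : V) (X : Set V), X.Finite →
  ∀ (n : ℕ) (P L : List Z2) (w : Z2) (T : Set V), 0 < n → w ≠ 0 →
  (∀ w' ∈ P ++ L, GT.det w w' ≠ 0) → StgN a b n P (w :: L) T →
  ∃ v : Z2, Good v w (P ++ L) ∧ ∀ t ∈ XL a b X,
    CM (gam m a b ((n : ℤ) • v) ((n : ℤ) • w) T t) ∨
    TI (gam m a b ((n : ℤ) • v) ((n : ℤ) • w) T t)

/-- LIM. Limits along `W`. The tiles near `z` are in a finite set (`fin_ball`), and every eventual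
statement about finitely many points passes to the limit. -/
def T_LIM : Prop := ∀ (U : Ultrafilter ℤ) (a b : V), rdet a b ≠ 0 → ∀ (X : Set V), X.Finite →
  ∀ (w : Z2) (C T : Set V), (∃ r : ℝ, ∀ z ∈ C, ‖z‖ ≤ r) → ECov C T → T ⊆ XL a b X →
  ECov C (LimW U (lv a b w) T) ∧ LimW U (lv a b w) T ⊆ XL a b X

/-- LIF. If a finite combination is constant along `W` then it is unchanged in the limit. -/
def T_LIF : Prop := ∀ (U : Ultrafilter ℤ) (W : V) (T : Set V) (L : List V) (t : V) (c : ℝ),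
  (∀ l : ℤ, fds L (rI T) (t + l • W) = c) → fds L (rI (LimW U W T)) t = c

/-- PER. The mean of a periodic function with values 0 and 1 is a multiple of `1 / |κ|`. -/
def T_PER : Prop := ∀ (m : IM) (κ : ℤ) (S : Set ℤ), κ ≠ 0 → (∀ k, k + κ ∈ S ↔ k ∈ S) →
  ∃ j : ℕ, j ≤ κ.natAbs ∧ m.E (rI S) = j / κ.natAbs

/-- BPC. A bounded sequence with vanishing `K`-th difference is constant. -/
def T_BPC : Prop := ∀ (K : ℕ) (δ : ℤ → ℝ), (∃ C : ℝ, ∀ s, |δ s| ≤ C) →
  (∀ s, (Dl 1)^[K] δ s = 0) → ∀ s, δ s = δ 0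

/-- KAP. A type I point is not equivalent to its translate by a multiple of `n w`. If the class of
`t` is settled then the sequence is constant (as in INT), contradiction to NUL. Otherwise let
`T' = LimW U (n w) T`, `U` full (ULT). With `b = fds L_n (rI T)` (invariant under `n w` on the
class): `fds L_n (rI T') = b` (LIF), so `β = Av (rI T) - Av (rI T')` has `fds L_n β = 0` on the
class, and by RED (`A = 0`) and BPC `s ↦ β (t + s n v)` is a constant `c`. For almost all `s`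
the set `T'` is `κ n w`-periodic along the row of `t + s n v` (fullness and shift invariance), so
`Av (rI T')` is there in `{j / |κ|}` (PER): `γ_t s` takes only finitely many values on a set of
full measure, contradiction to NUL. -/
def T_KAP : Prop := ∀ (m : IM) (a b : V) (n : ℕ) (P L : List Z2) (w v : Z2) (T : Set V),
  StgN a b n P (w :: L) T → Good v w (P ++ L) → ∀ (t : V) (κ : ℤ), κ ≠ 0 →
  TI (gam m a b ((n : ℤ) • v) ((n : ℤ) • w) T t) →
  ¬ Eqv m a b ((n : ℤ) • v) ((n : ℤ) • w) T t (t + lv a b (κ • (n : ℤ) • w))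

/-- EQB. Basic facts on `Eqv` and `Opp`. The last one: `γ_t s + γ_t' s = 1` and at most one of the
two points is in `T`. -/
def T_EQB : Prop := ∀ (m : IM) (a b : V) (v w : Z2) (T : Set V),
  (∀ t, Eqv m a b v w T t t) ∧
  (∀ t t', Eqv m a b v w T t t' → Eqv m a b v w T t' t) ∧
  (∀ t t', Opp m a b v w T t t' → Opp m a b v w T t' t) ∧
  (∀ t t' t'', Eqv m a b v w T t t' → Eqv m a b v w T t' t'' → Eqv m a b v w T t t'') ∧
  (∀ t t' t'', Eqv m a b v w T t t' → Opp m a b v w T t' t'' → Opp m a b v w T t t'') ∧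
  (∀ t t' t'', Opp m a b v w T t t' → Opp m a b v w T t' t'' → Eqv m a b v w T t t'') ∧
  (∀ t t', Eqv m a b v w T t t' →
    m.Null {s | gam m a b v w T t s ≠ gam m a b v w T t' s}) ∧
  (∀ t t', Opp m a b v w T t t' →
    m.Null {s | gam m a b v w T t s + gam m a b v w T t' s ≠ 1}) ∧
  (∀ t t', (∀ u : Z2, t + lv a b u ∈ T → t' + lv a b u ∉ T) →
    m.Null {s | gam m a b v w T t s + gam m a b v w T t' s ≠ 1} → Opp m a b v w T t t')

/-- NZD. No zero divisors. Choose a linear form `λ` injective on `P ∪ Q`, `t` in `P ∪ Q` with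
`λ t` maximal, `ε` the gap to the others, `c ∈ C` with `λ c > sup λ(C) - ε`, and `z = t + c`. -/
def T_NZD : Prop := ∀ C P Q : Set V, (∃ r : ℝ, ∀ z ∈ C, ‖z‖ ≤ r) → C.Nonempty → P.Finite →
  Q.Finite → Disjoint P Q → P.Nonempty →
  (∀ z, (∃ t ∈ P, z - t ∈ C) → ∃ t ∈ Q, z - t ∈ C) →
  (∀ z, (∃ t ∈ Q, z - t ∈ C) → ∃ t ∈ P, z - t ∈ C) → False

/-- NOTI. There is no type I sequence. Let `t₀` be type I, `P`, `Q` the sets of `t ∈ XL` with
`Eqv t t₀`, `Opp t t₀`. All of them are type I (they are `CM` or `TI`; a `CM` sequence in `[0,1]`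
takes at most two values; NUL). `P` and `Q` are disjoint (`γ = 1/2` almost everywhere; NUL). If
`t` is in `P` and `z - t ∈ C`: the finite set `N_z` of all `t' ∈ XL` with `z - t' ∈ C` has
`∑ γ_t' s = 1` (exact cover of `z + s n v + k n w`, mean over `k`), so PAIR and EQB give
`t' ∈ N_z` with `Opp t t'`, so `t' ∈ Q`; and conversely. Two different equivalent type I points in
one class modulo `ℤ n v + ℤ n w` are impossible: difference `i n v + k n w` with `i ≠ 0`:
`γ_t (s + i) = γ_t s` almost everywhere, NUL0; `i = 0`: KAP. So `P` and `Q` are finite (FIN), and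
NZD is a contradiction. -/
def T_NOTI : Prop := ∀ (m : IM) (a b : V), rdet a b ≠ 0 → ∀ (X : Set V), X.Finite →
  ∀ (n : ℕ) (P L : List Z2) (w v : Z2) (C T : Set V), 0 < n →
  StgN a b n P (w :: L) T → Good v w (P ++ L) → (∃ r : ℝ, ∀ z ∈ C, ‖z‖ ≤ r) → ECov C T →
  T ⊆ XL a b X →
  (∀ t ∈ XL a b X, CM (gam m a b ((n : ℤ) • v) ((n : ℤ) • w) T t) ∨
    TI (gam m a b ((n : ℤ) • v) ((n : ℤ) • w) T t)) →
  ∀ t ∈ XL a b X, CM (gam m a b ((n : ℤ) • v) ((n : ℤ) • w) T t)

/-- STEP. TYP, NOTI; `T' = LimW U (n w) T` with a full `U`; new number `n' = n |det v w|`, so that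
`n' u = i (n v) + k (n w)` for every `u`. On the class `t + n' Λ` the average `α` is a constant
in `(0,1)` or has values in `{0,1}` (CM). In the second case `T' = {α = 1}` on the class (AVB,
fullness), invariant under `n' w`. In the first case: if the class `t + n Λ` is settled for
`T`, it is settled for `T'`. Otherwise and if `L = []`, `T` is `n w`-periodic on the class,
also `T'`. If `L` is not empty: `b = fds L_n' (rI T)` is invariant under `n w` on the class
`t + n Λ` (MUL for `fd (n w) (rI T)`), so `b = Av b = fds L_n' α = 0` on `t + n' Λ` (AVB, `α`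
constant there), and LIF gives `fds L_n' (rI T') = 0` there. -/
def T_STEP : Prop := ∀ (a b : V), rdet a b ≠ 0 → ∀ (X : Set V), X.Finite →
  ∀ (C T : Set V), (∃ r : ℝ, ∀ z ∈ C, ‖z‖ ≤ r) → ECov C T → T ⊆ XL a b X →
  ∀ (P L : List Z2) (w : Z2), w ≠ 0 → (∀ w' ∈ P ++ L, GT.det w w' ≠ 0) →
  Stg a b P (w :: L) T →
  ∃ T' : Set V, ECov C T' ∧ T' ⊆ XL a b X ∧ Stg a b (w :: P) L T'

/-- R3W. Iteration of STEP (start: `Stg a b [] L T` with `n = 1`), and `surgery`. -/
def T_R3W : Prop := ∀ (a b : V), rdet a b ≠ 0 → ∀ (X : Set V), X.Finite →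
  ∀ (C T : Set V), (∃ r : ℝ, ∀ z ∈ C, ‖z‖ ≤ r) → ECov C T → T ⊆ XL a b X →
  ∀ L : List Z2, (∀ w ∈ L, w ≠ 0) → L.Pairwise (fun w w' => GT.det w w' ≠ 0) →
  (∀ z, fds (L.map (lv a b)) (rI T) z = 0) → DP C

/-- FLCR. The general theorem for tilings of finite local complexity with a relation:
`one_lattice`, `ecov_hull`, `per_case`, R3W (`difs L (ii T) = 0` gives `fds L (rI T) = 0`:
`fds L F z = difs L F (z + L.sum)`). -/
def T_FLCR : Prop := ∀ (C : Set V), (∃ r : ℝ, ∀ z ∈ C, ‖z‖ ≤ r) → ∀ (T : Set V), ECov C T →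
  FLC T → ∀ L : List V, (∀ w ∈ L, w ≠ 0) → difs L (ii T) = 0 → DP C

/-- ANN. Every tiling inside finitely many translates of one lattice has a relation: see the
row. -/
def T_ANN : Prop := ∀ (a b : V), rdet a b ≠ 0 → ∀ (X : Set V), X.Finite →
  ∀ (C T : Set V), (∃ r : ℝ, ∀ z ∈ C, ‖z‖ ≤ r) → ECov C T → T ⊆ XL a b X →
  ∃ L : List Z2, (∀ w ∈ L, w ≠ 0) ∧ L.Pairwise (fun w w' => GT.det w w' ≠ 0) ∧
    ∀ z, fds (L.map (lv a b)) (rI T) z = 0

/-- R3. -/
def T_R3 : Prop := ∀ (a b : V), rdet a b ≠ 0 → ∀ (X : Set V), X.Finite →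
  ∀ (C T : Set V), (∃ r : ℝ, ∀ z ∈ C, ‖z‖ ≤ r) → ECov C T → T ⊆ XL a b X → DP C

end Pool.Agent.PTL
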