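import Pool.Agent.PTL.Mean
import Pool.Agent.PTL.Seq

set_option autoImplicit false

/-!
# PTL: Weyl's theorem for means (WEYL)
-/

namespace Pool.Agent.PTL

open Real

lemma IM.sq_le (m : IM) {f : ℤ → ℝ} {C : ℝ} (hf : ∀ s, |f s| ≤ C) :
    (m.E f) ^ 2 ≤ m.E (fun s => f s ^ 2) := by
  set x := m.E f with hx
  have h1 : 0 ≤ m.E (fun s => (f s - x) ^ 2) := by
    apply m.pos
    · intro s; positivity
    · refine ⟨(C + |x|) ^ 2, fun s => ?_⟩
      have h2 : |f s - x| ≤ C + |x| := (abs_sub _ _).trans (by linarith [hf s])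
      rw [← sq_abs (f s - x)]
      exact pow_le_pow_left₀ (abs_nonneg _) h2 2
  have h2 : (fun s => (f s - x) ^ 2) = fun s => (f s ^ 2 - (2 * x) * f s) + x ^ 2 := by
    funext s
    ring
  rw [h2, m.add, m.sub, m.smul, m.const, ← hx] at h1
  nlinarith

lemma cos_bdd (g : ℤ → ℝ) : ∃ C : ℝ, ∀ s, |cos (2 * π * g s)| ≤ C :=
  ⟨1, fun _ => abs_cos_le_one _⟩

lemma sin_bdd (g : ℤ → ℝ) : ∃ C : ℝ, ∀ s, |sin (2 * π * g s)| ≤ C :=
  ⟨1, fun _ => abs_sin_le_one _⟩

lemma two_sums (H : ℕ) (g : ℤ → ℝ) (s : ℤ) :
    (∑ h ∈ Finset.range H, cos (2 * π * g (s + h))) ^ 2 +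
    (∑ h ∈ Finset.range H, sin (2 * π * g (s + h))) ^ 2 =
    ∑ h ∈ Finset.range H, ∑ h' ∈ Finset.range H,
      cos (2 * π * (g (s + h) - g (s + h'))) := by
  rw [sq, sq, Finset.sum_mul_sum, Finset.sum_mul_sum, ← Finset.sum_add_distrib]
  refine Finset.sum_congr rfl fun h _ => ?_
  rw [← Finset.sum_add_distrib]
  refine Finset.sum_congr rfl fun h' _ => ?_
  rw [mul_sub, cos_sub]

theorem weyl_aux (m : IM) : ∀ (K : ℕ) (θ : ℝ) (g : ℤ → ℝ), Irrational θ → Ty (K + 1) θ g →
    m.E (fun s => cos (2 * π * g s)) = 0 ∧ m.E (fun s => sin (2 * π * g s)) = 0 := by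
  intro K
  induction K with
  | zero =>
    intro θ g hθ hg
    set x := m.E (fun s => cos (2 * π * g s)) with hx
    set y := m.E (fun s => sin (2 * π * g s)) with hy
    have h1 : ∀ s, ∃ n : ℤ, g (s + 1) = g s + θ + n := by
      intro s
      obtain ⟨n, hn⟩ := hg s
      rw [it_succ] at hn
      have hn' : g (s + 1) - g s = θ + n := hn
      exact ⟨n, by linarith⟩
    have hc : ∀ s, cos (2 * π * g (s + 1)) =
        cos (2 * π * θ) * cos (2 * π * g s) - sin (2 * π * θ) * sin (2 * π * g s) := by
      intro s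
      obtain ⟨n, hn⟩ := h1 s
      have e : 2 * π * g (s + 1) = (2 * π * g s + 2 * π * θ) + n * (2 * π) := by rw [hn]; ring
      rw [e, cos_add_int_mul_two_pi, cos_add]
      ring
    have hs : ∀ s, sin (2 * π * g (s + 1)) =
        cos (2 * π * θ) * sin (2 * π * g s) + sin (2 * π * θ) * cos (2 * π * g s) := by
      intro s
      obtain ⟨n, hn⟩ := h1 s
      have e : 2 * π * g (s + 1) = (2 * π * g s + 2 * π * θ) + n * (2 * π) := by rw [hn]; ring
      rw [e, sin_add_int_mul_two_pi, sin_add]
      ring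
    have e1 : x = cos (2 * π * θ) * x - sin (2 * π * θ) * y := by
      have := m.shift (fun s => cos (2 * π * g s)) 1 (cos_bdd g)
      simp only [hc] at this
      rw [m.sub, m.smul, m.smul] at this
      exact this.symm
    have e2 : y = cos (2 * π * θ) * y + sin (2 * π * θ) * x := by
      have := m.shift (fun s => sin (2 * π * g s)) 1 (sin_bdd g)
      simp only [hs] at this
      rw [m.add, m.smul, m.smul] at this
      exact this.symm
    have hC : 1 - cos (2 * π * θ) ≠ 0 := by
      intro h
      have h2 : cos (2 * π * θ) = 1 := by linarith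
      rw [cos_eq_one_iff] at h2
      obtain ⟨n, hn⟩ := h2
      have h3 : θ = n := by
        have : (n : ℝ) * (2 * π) = θ * (2 * π) := by rw [hn]; ring
        exact (mul_right_cancel₀ (by positivity) this).symm
      exact hθ ⟨n, by rw [h3]; simp⟩
    have e3 : (x ^ 2 + y ^ 2) * (1 - cos (2 * π * θ)) = 0 := by
      linear_combination x * e1 + y * e2
    have e4 : x ^ 2 + y ^ 2 = 0 := (mul_eq_zero.1 e3).resolve_right hC
    constructor
    · nlinarith [sq_nonneg x, sq_nonneg y]
    · nlinarith [sq_nonneg x, sq_nonneg y]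
  | succ K ih =>
    intro θ g hθ hg
    set x := m.E (fun s => cos (2 * π * g s)) with hx
    set y := m.E (fun s => sin (2 * π * g s)) with hy
    -- correlations
    have hcor : ∀ h h' : ℕ, h ≠ h' →
        m.E (fun s => cos (2 * π * (g (s + h) - g (s + h')))) = 0 := by
      intro h h' hne
      have hd : ((h : ℤ) - h') ≠ 0 := by
        intro hcon
        apply hne
        have : (h : ℤ) = h' := by linarith
        exact_mod_cast this
      have h1 := p_DIF (K + 1) θ g ((h : ℤ) - h') hg
      have h2 := (ih _ _ (hθ.intCast_mul hd) h1).1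
      have h3 := m.shift (fun s => cos (2 * π * Dl ((h : ℤ) - h') g s)) h' (cos_bdd _)
      rw [h2] at h3
      rw [← h3]
      congr 1
      funext s
      have e : s + (h' : ℤ) + ((h : ℤ) - h') = s + h := by ring
      simp only [Dl, e]
    have key : ∀ H : ℕ, 0 < H → x ^ 2 + y ^ 2 ≤ 1 / H := by
      intro H hH
      have hHr : (0 : ℝ) < H := by exact_mod_cast hH
      have hcb : ∀ s : ℤ, |∑ h ∈ Finset.range H, cos (2 * π * g (s + h))| ≤ H := by
        intro s
        refine (Finset.abs_sum_le_sum_abs _ _).trans ?_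
        have : ∑ h ∈ Finset.range H, |cos (2 * π * g (s + h))| ≤ ∑ _h ∈ Finset.range H, (1 : ℝ) :=
          Finset.sum_le_sum fun h _ => abs_cos_le_one _
        simpa using this
      have hsb : ∀ s : ℤ, |∑ h ∈ Finset.range H, sin (2 * π * g (s + h))| ≤ H := by
        intro s
        refine (Finset.abs_sum_le_sum_abs _ _).trans ?_
        have : ∑ h ∈ Finset.range H, |sin (2 * π * g (s + h))| ≤ ∑ _h ∈ Finset.range H, (1 : ℝ) :=
          Finset.sum_le_sum fun h _ => abs_sin_le_one _
        simpa using this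
      have ex : m.E (fun s => ∑ h ∈ Finset.range H, cos (2 * π * g (s + h))) = H * x := by
        rw [m.sum (Finset.range H) (fun h s => cos (2 * π * g (s + h)))]
        rw [Finset.sum_congr rfl fun (h : ℕ) _ =>
          m.shift (fun s => cos (2 * π * g s)) (h : ℤ) (cos_bdd g)]
        rw [Finset.sum_const, Finset.card_range, nsmul_eq_mul]
      have ey : m.E (fun s => ∑ h ∈ Finset.range H, sin (2 * π * g (s + h))) = H * y := by
        rw [m.sum (Finset.range H) (fun h s => sin (2 * π * g (s + h)))]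
        rw [Finset.sum_congr rfl fun (h : ℕ) _ =>
          m.shift (fun s => sin (2 * π * g s)) (h : ℤ) (sin_bdd g)]
        rw [Finset.sum_const, Finset.card_range, nsmul_eq_mul]
      have h1 := m.sq_le hcb
      have h2 := m.sq_le hsb
      have h3 : m.E (fun s => (∑ h ∈ Finset.range H, cos (2 * π * g (s + h))) ^ 2) +
          m.E (fun s => (∑ h ∈ Finset.range H, sin (2 * π * g (s + h))) ^ 2) = H := by
        rw [← m.add]
        simp only [two_sums]
        rw [m.sum (Finset.range H) (fun h s => ∑ h' ∈ Finset.range H,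
          cos (2 * π * (g (s + h) - g (s + h'))))]
        have h4 : ∀ h ∈ Finset.range H, m.E (fun s => ∑ h' ∈ Finset.range H,
            cos (2 * π * (g (s + h) - g (s + h')))) = 1 := by
          intro h hh
          rw [m.sum (Finset.range H) (fun h' s => cos (2 * π * (g (s + h) - g (s + h'))))]
          rw [Finset.sum_eq_single h]
          · simp only [sub_self, mul_zero, cos_zero]
            exact m.one
          · intro h' _ hne
            exact hcor h h' hne.symm
          · intro h'
            exact absurd hh h'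
        rw [Finset.sum_congr rfl h4, Finset.sum_const, Finset.card_range, nsmul_eq_mul, mul_one]
      rw [ex] at h1
      rw [ey] at h2
      have h5 : (x ^ 2 + y ^ 2) * H ^ 2 ≤ H := by nlinarith
      rw [le_div_iff₀ hHr]
      nlinarith
    have h0 : x ^ 2 + y ^ 2 ≤ 0 := by
      by_contra hcon
      push Not at hcon
      obtain ⟨H, hH⟩ := exists_nat_gt (1 / (x ^ 2 + y ^ 2))
      have hH0 : (0 : ℝ) < H := lt_trans (by positivity) hH
      have h6 := key H (by exact_mod_cast hH0)
      rw [div_lt_iff₀ hcon] at hH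
      rw [le_div_iff₀ hH0] at h6
      linarith
    constructor
    · nlinarith [sq_nonneg x, sq_nonneg y]
    · nlinarith [sq_nonneg x, sq_nonneg y]

/-- WEYL. -/
theorem p_WEYL : T_WEYL := by
  intro m g hg
  obtain ⟨K, θ, hθ, hT⟩ := hg
  exact weyl_aux m K θ g hθ hT

end Pool.Agent.PTL
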